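import Mathlib

/-! Graphs of bounded degree without small balanced cuts. -/

set_option autoImplicit false
set_option linter.unusedSectionVars false

namespace Pool.Agent.H58.LM

open Finset

/-- a graph given by two permutations without fixed points, with a root -/
structure Gr (V : Type) where
  σ : Bool → Equiv.Perm V
  ne : ∀ b v, σ b v ≠ v
  root : V

/-- the edges leaving a set -/
def Gr.cut {V : Type} [Fintype V] [DecidableEq V] (G : Gr V) (T : Finset V) :
    Finset (V × Bool) :=
  univ.filter fun e => ¬ (e.1 ∈ T ↔ G.σ e.2 e.1 ∈ T)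

/-- Sets with few edges leaving them are small or large, and the graph is connected. -/
structure Gr.Good {V : Type} [Fintype V] [DecidableEq V] (G : Gr V) (D : ℕ) : Prop where
  bal : ∀ T : Finset V, (G.cut T).card ≤ D →
    3 * T.card < Fintype.card V ∨ 2 * Fintype.card V < 3 * T.card
  conn : ∀ T : Finset V, G.cut T = ∅ → T = ∅ ∨ T = univ

section perm

variable {V : Type} [Fintype V] [DecidableEq V]

theorem exists_perm {T₁ T₂ : Finset V} (h : T₁.card = T₂.card) :
    ∃ ρ : Equiv.Perm V, T₁.map ρ.toEmbedding = T₂ := by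
  obtain ⟨e⟩ : Nonempty ({x // x ∈ T₁} ≃ {x // x ∈ T₂}) := by
    rw [← Fintype.card_eq, Fintype.card_coe, Fintype.card_coe]
    exact h
  refine ⟨e.extendSubtype, ?_⟩
  refine Finset.eq_of_subset_of_card_le ?_ (by rw [Finset.card_map]; exact h.ge)
  intro y hy
  obtain ⟨x, hx, rfl⟩ := Finset.mem_map.1 hy
  exact e.extendSubtype_mem x hx

theorem card_perm_map_le {T₁ T₂ : Finset V} (T' : Finset V) (h : T₁.card = T₂.card) :
    (univ.filter fun π : Equiv.Perm V => T'.map π.toEmbedding = T₁).card ≤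
      (univ.filter fun π : Equiv.Perm V => T'.map π.toEmbedding = T₂).card := by
  obtain ⟨ρ, hρ⟩ := exists_perm h
  refine Finset.card_le_card_of_injOn (fun π => ρ * π) ?_ ?_
  · intro π hπ
    have h1 := (Finset.mem_filter.1 (Finset.mem_coe.1 hπ)).2
    refine Finset.mem_coe.2 (Finset.mem_filter.2 ⟨Finset.mem_univ _, ?_⟩)
    rw [← hρ, ← h1, Finset.map_map]
    rfl
  · intro π _ π' _ h
    exact mul_left_cancel h

/-- the number of permutations which map one set to another set -/
theorem card_perm_map (T' T : Finset V) (h : T'.card = T.card) :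
    (univ.filter fun π : Equiv.Perm V => T'.map π.toEmbedding = T).card *
      (Fintype.card V).choose T.card = Fintype.card (Equiv.Perm V) := by
  have h1 : (univ : Finset (Equiv.Perm V)).card =
      ∑ T₁ ∈ powersetCard T.card (univ : Finset V),
        (univ.filter fun π : Equiv.Perm V => T'.map π.toEmbedding = T₁).card := by
    refine Finset.card_eq_sum_card_fiberwise fun π _ => ?_
    refine Finset.mem_coe.2 (Finset.mem_powersetCard.2 ⟨Finset.subset_univ _, ?_⟩)
    rw [Finset.card_map, h]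
  have h2 : ∀ T₁ ∈ powersetCard T.card (univ : Finset V),
      (univ.filter fun π : Equiv.Perm V => T'.map π.toEmbedding = T₁).card =
      (univ.filter fun π : Equiv.Perm V => T'.map π.toEmbedding = T).card := by
    intro T₁ hT₁
    have h3 := (Finset.mem_powersetCard.1 hT₁).2
    exact le_antisymm (card_perm_map_le T' h3) (card_perm_map_le T' h3.symm)
  rw [Finset.sum_congr rfl h2, Finset.sum_const, Finset.card_powersetCard, Finset.card_univ,
    smul_eq_mul, mul_comm, Finset.card_univ] at h1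
  exact h1.symm

end perm

section cyc

variable {N : ℕ} [NeZero N]

theorem const_of_step {P : ZMod N → Prop} (h : ∀ i, P i ↔ P (i + 1)) (i j : ZMod N) :
    P i ↔ P j := by
  have key : ∀ n : ℕ, P (n : ZMod N) ↔ P 0 := by
    intro n
    induction n with
    | zero => rw [Nat.cast_zero]
    | succ n ih =>
      rw [Nat.cast_succ, ← h]
      exact ih
  have h1 := key i.val
  have h2 := key j.val
  rw [ZMod.natCast_zmod_val] at h1 h2
  exact h1.trans h2.symm

/-- the boundary of a set in the cycle -/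
def cy (T : Finset (ZMod N)) : Finset (ZMod N) := univ.filter fun i => ¬ (i ∈ T ↔ i + 1 ∈ T)

theorem mem_cy {T : Finset (ZMod N)} {i : ZMod N} : i ∈ cy T ↔ ¬ (i ∈ T ↔ i + 1 ∈ T) := by
  simp [cy]

theorem cy_inj {T T' : Finset (ZMod N)} (h : cy T = cy T') (h0 : 0 ∈ T ↔ 0 ∈ T') : T = T' := by
  have h1 : ∀ i, ((i ∈ T ↔ i ∈ T') ↔ (i + 1 ∈ T ↔ i + 1 ∈ T')) := by
    intro i
    have h2 : i ∈ cy T ↔ i ∈ cy T' := by rw [h]
    rw [mem_cy, mem_cy] at h2
    tauto
  ext i
  exact (const_of_step (P := fun i => (i ∈ T ↔ i ∈ T')) h1 i 0).mpr h0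

/-- the number of sets with small boundary in the cycle -/
theorem card_few (D : ℕ) : (univ.filter fun T : Finset (ZMod N) => (cy T).card ≤ D).card ≤
    2 * ∑ a ∈ range (D + 1), N.choose a := by
  have h1 : (univ.filter fun T : Finset (ZMod N) => (cy T).card ≤ D).card ≤
      ((univ : Finset Bool) ×ˢ ((range (D + 1)).biUnion fun a =>
        powersetCard a (univ : Finset (ZMod N)))).card := by
    refine Finset.card_le_card_of_injOn (fun T => (decide (0 ∈ T), cy T)) ?_ ?_
    · intro T hT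
      have h2 := (Finset.mem_filter.1 (Finset.mem_coe.1 hT)).2
      refine Finset.mem_coe.2 (Finset.mem_product.2 ⟨Finset.mem_univ _,
        Finset.mem_biUnion.2 ⟨(cy T).card, Finset.mem_range.2 (by omega),
        Finset.mem_powersetCard.2 ⟨Finset.subset_univ _, rfl⟩⟩⟩)
    · intro T _ T' _ h
      have h2 := Prod.ext_iff.1 h
      refine cy_inj h2.2 ?_
      have h3 := h2.1
      simp only [decide_eq_decide] at h3
      exact h3
  rw [Finset.card_product, Finset.card_univ, Fintype.card_bool] at h1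
  refine h1.trans (Nat.mul_le_mul_left _ (Finset.card_biUnion_le.trans ?_))
  refine Finset.sum_le_sum fun a _ => ?_
  rw [Finset.card_powersetCard, Finset.card_univ, ZMod.card]

end cyc

theorem two_pow_le_centralBinom (n : ℕ) : 2 ^ n ≤ Nat.centralBinom n := by
  rcases Nat.eq_zero_or_pos n with h | h
  · rw [h]
    simp
  · have h1 := Nat.four_pow_le_two_mul_self_mul_centralBinom n h
    have h2 : 2 * n ≤ 2 ^ n := by
      obtain ⟨c, rfl⟩ : ∃ c, n = c + 1 := ⟨n - 1, by omega⟩
      have h3 : c < 2 ^ c := Nat.lt_two_pow_self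
      rw [pow_succ]
      omega
    have h3 : 2 ^ n * 2 ^ n ≤ 2 ^ n * Nat.centralBinom n := by
      calc 2 ^ n * 2 ^ n = 4 ^ n := by
            rw [← mul_pow]
            norm_num
        _ ≤ 2 * n * Nat.centralBinom n := h1
        _ ≤ 2 ^ n * Nat.centralBinom n := Nat.mul_le_mul_right _ h2
    exact Nat.le_of_mul_le_mul_left h3 (by positivity)

theorem two_pow_le_choose {N t a : ℕ} (h1 : a ≤ t) (h2 : a + t ≤ N) : 2 ^ a ≤ N.choose t := by
  rcases Nat.lt_or_ge N (2 * t) with h | h
  · rw [← Nat.choose_symm (by omega : t ≤ N)]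
    calc 2 ^ a ≤ 2 ^ (N - t) := Nat.pow_le_pow_right (by norm_num) (by omega)
      _ ≤ Nat.centralBinom (N - t) := two_pow_le_centralBinom _
      _ = (2 * (N - t)).choose (N - t) := rfl
      _ ≤ N.choose (N - t) := Nat.choose_le_choose _ (by omega)
  · calc 2 ^ a ≤ 2 ^ t := Nat.pow_le_pow_right (by norm_num) h1
      _ ≤ Nat.centralBinom t := two_pow_le_centralBinom _
      _ = (2 * t).choose t := rfl
      _ ≤ N.choose t := Nat.choose_le_choose _ h

/-- the numerical inequality -/
theorem few_lt {D : ℕ} (hD : 3 ≤ D) :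
    (2 * ∑ a ∈ range (D + 1), (48 * D).choose a) ^ 2 < 2 ^ (16 * D) := by
  obtain ⟨S, hS⟩ : ∃ S, S = ∑ a ∈ range (D + 1), (48 * D).choose a := ⟨_, rfl⟩
  rw [← hS]
  have h1 : S * 32 ^ (47 * D) ≤ 33 ^ (48 * D) := by
    have h2 : (33 : ℕ) ^ (48 * D) =
        ∑ a ∈ range (48 * D + 1), 1 ^ a * 32 ^ (48 * D - a) * (48 * D).choose a := by
      have h3 := add_pow (1 : ℕ) 32 (48 * D)
      simp only [Nat.cast_id] at h3
      rw [← h3]
    rw [h2, hS, Finset.sum_mul]
    calc ∑ a ∈ range (D + 1), (48 * D).choose a * 32 ^ (47 * D)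
        ≤ ∑ a ∈ range (D + 1), 1 ^ a * 32 ^ (48 * D - a) * (48 * D).choose a := by
          refine Finset.sum_le_sum fun a ha => ?_
          have ha' := Finset.mem_range.1 ha
          rw [one_pow, one_mul, mul_comm]
          exact Nat.mul_le_mul_right _ (Nat.pow_le_pow_right (by norm_num) (by omega))
      _ ≤ _ := Finset.sum_le_sum_of_subset_of_nonneg (Finset.range_mono (by omega))
          fun _ _ _ => Nat.zero_le _
  have h2 : (33 : ℕ) ^ 96 ≤ 32 ^ 94 * 2 ^ 15 := by norm_num
  refine Nat.lt_of_mul_lt_mul_right (a := 32 ^ (94 * D)) ?_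
  calc (2 * S) ^ 2 * 32 ^ (94 * D) = 4 * (S * 32 ^ (47 * D)) ^ 2 := by
        rw [mul_pow, mul_pow, ← pow_mul, show 47 * D * 2 = 94 * D by ring]
        ring
    _ ≤ 4 * (33 ^ (48 * D)) ^ 2 := by gcongr
    _ = 4 * (33 ^ 96) ^ D := by rw [← pow_mul, ← pow_mul]; ring_nf
    _ ≤ 4 * (32 ^ 94 * 2 ^ 15) ^ D := Nat.mul_le_mul_left _ (Nat.pow_le_pow_left h2 _)
    _ = 2 ^ (15 * D + 2) * 32 ^ (94 * D) := by
        rw [mul_pow, ← pow_mul, ← pow_mul, pow_add]
        ring
    _ < 2 ^ (16 * D) * 32 ^ (94 * D) := by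
        refine Nat.mul_lt_mul_of_pos_right ?_ (by positivity)
        exact Nat.pow_lt_pow_right (by norm_num) (by omega)

/-- **Graphs without small balanced cuts.** -/
theorem exists_good {D : ℕ} (hD : 3 ≤ D) [NeZero (48 * D)] :
    ∃ G : Gr (ZMod (48 * D)), G.Good D := by
  classical
  obtain ⟨N, hN⟩ : ∃ N, N = 48 * D := ⟨_, rfl⟩
  obtain ⟨Fm, hFm⟩ : ∃ Fm : Finset (Finset (ZMod (48 * D))),
    Fm = univ.filter fun T => (cy T).card ≤ D ∧ 48 * D ≤ 3 * T.card ∧ 3 * T.card ≤ 2 * (48 * D) :=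
    ⟨_, rfl⟩
  have hmem : ∀ T, T ∈ Fm ↔ (cy T).card ≤ D ∧ 48 * D ≤ 3 * T.card ∧
      3 * T.card ≤ 2 * (48 * D) := by
    intro T
    rw [hFm]
    simp
  have hcard : Fm.card ^ 2 < 2 ^ (16 * D) := by
    refine lt_of_le_of_lt (Nat.pow_le_pow_left ?_ 2) (few_lt hD)
    refine le_trans (Finset.card_le_card ?_) (card_few D)
    intro T hT
    exact Finset.mem_filter.2 ⟨Finset.mem_univ _, ((hmem T).1 hT).1⟩
  -- a permutation
  obtain ⟨π, hπ⟩ : ∃ π : Equiv.Perm (ZMod (48 * D)), ∀ T' ∈ Fm, ∀ T ∈ Fm,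
      T'.map π.toEmbedding ≠ T := by
    by_contra hcon
    push Not at hcon
    have h1 : (univ : Finset (Equiv.Perm (ZMod (48 * D)))) ⊆ (Fm ×ˢ Fm).biUnion fun q =>
        univ.filter fun π : Equiv.Perm (ZMod (48 * D)) => q.1.map π.toEmbedding = q.2 := by
      intro π _
      obtain ⟨T', hT', T, hT, h⟩ := hcon π
      exact Finset.mem_biUnion.2 ⟨(T', T), Finset.mem_product.2 ⟨hT', hT⟩,
        Finset.mem_filter.2 ⟨Finset.mem_univ _, h⟩⟩
    have h2 := (Finset.card_le_card h1).trans Finset.card_biUnion_le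
    obtain ⟨F, hF⟩ : ∃ F, F = Fintype.card (Equiv.Perm (ZMod (48 * D))) := ⟨_, rfl⟩
    have hF0 : 0 < F := by
      rw [hF]
      exact Fintype.card_pos
    rw [Finset.card_univ, ← hF] at h2
    have h3 : ∀ q ∈ Fm ×ˢ Fm, (univ.filter fun π : Equiv.Perm (ZMod (48 * D)) =>
        q.1.map π.toEmbedding = q.2).card * 2 ^ (16 * D) ≤ F := by
      intro q hq
      obtain ⟨hq1, hq2⟩ := Finset.mem_product.1 hq
      obtain ⟨-, h4, h5⟩ := (hmem _).1 hq2
      by_cases hc : q.1.card = q.2.card
      · have h6 := card_perm_map q.1 q.2 hc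
        rw [ZMod.card, ← hF] at h6
        rw [← h6]
        exact Nat.mul_le_mul_left _ (two_pow_le_choose (by omega) (by omega))
      · rw [Finset.card_eq_zero.2, zero_mul]
        · exact Nat.zero_le _
        · rw [Finset.filter_eq_empty_iff]
          intro π _ h6
          apply hc
          rw [← h6, Finset.card_map]
    have h4 : F * 2 ^ (16 * D) ≤ Fm.card ^ 2 * F := by
      calc F * 2 ^ (16 * D) ≤ (∑ q ∈ Fm ×ˢ Fm, (univ.filter fun π :
            Equiv.Perm (ZMod (48 * D)) => q.1.map π.toEmbedding = q.2).card) * 2 ^ (16 * D) :=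
            Nat.mul_le_mul_right _ h2
        _ = ∑ q ∈ Fm ×ˢ Fm, (univ.filter fun π : Equiv.Perm (ZMod (48 * D)) =>
            q.1.map π.toEmbedding = q.2).card * 2 ^ (16 * D) := Finset.sum_mul _ _ _
        _ ≤ ∑ _q ∈ Fm ×ˢ Fm, F := Finset.sum_le_sum h3
        _ = Fm.card ^ 2 * F := by
          rw [Finset.sum_const, Finset.card_product, smul_eq_mul, sq]
    have h5 : Fm.card ^ 2 * F < 2 ^ (16 * D) * F := Nat.mul_lt_mul_of_pos_right hcard hF0
    rw [mul_comm F] at h4
    omega
  have hπ1 : ∀ v, π (π⁻¹ v) = v := fun v => Equiv.apply_symm_apply π v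
  have hπ2 : ∀ v, π⁻¹ (π v) = v := fun v => Equiv.symm_apply_apply π v
  -- the graph
  have h1ne : (1 : ZMod (48 * D)) ≠ 0 := by
    have : Fact (1 < 48 * D) := ⟨by omega⟩
    exact one_ne_zero
  let τ : Equiv.Perm (ZMod (48 * D)) := Equiv.addRight 1
  have hτ : ∀ v, τ v = v + 1 := fun v => rfl
  let G : Gr (ZMod (48 * D)) :=
    { σ := fun b => if b then π * τ * π⁻¹ else τ
      ne := by
        intro b v
        cases b
        · show τ v ≠ v
          rw [hτ]
          intro h
          exact h1ne (by simpa using h)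
        · show π (τ (π⁻¹ v)) ≠ v
          rw [hτ]
          intro h
          have h2 : π⁻¹ v + 1 = π⁻¹ v := by
            rw [Equiv.Perm.eq_inv_iff_eq]
            exact h
          exact h1ne (by simpa using h2)
      root := 0 }
  have hcut : ∀ T : Finset (ZMod (48 * D)),
      (cy T).card + (cy (T.map (π⁻¹ : Equiv.Perm _).toEmbedding)).card = (G.cut T).card := by
    intro T
    have hmap : ∀ w, w ∈ T.map (π⁻¹ : Equiv.Perm (ZMod (48 * D))).toEmbedding ↔ π w ∈ T := by
      intro w
      rw [Finset.mem_map]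
      constructor
      · rintro ⟨v, hv, rfl⟩
        show π (π⁻¹ v) ∈ T
        rwa [hπ1]
      · intro h
        exact ⟨π w, h, hπ2 w⟩
    rw [← Finset.card_disjSum]
    refine Finset.card_bij (fun o _ => match o with
      | Sum.inl v => (v, false)
      | Sum.inr w => (π w, true)) ?_ ?_ ?_
    · rintro (v | w) ho
      · have h2 : v ∈ cy T := by simpa using ho
        rw [mem_cy] at h2
        refine Finset.mem_filter.2 ⟨Finset.mem_univ _, ?_⟩
        exact h2
      · have h2 : w ∈ cy (T.map (π⁻¹ : Equiv.Perm (ZMod (48 * D))).toEmbedding) := by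
          simpa using ho
        rw [mem_cy, hmap, hmap] at h2
        refine Finset.mem_filter.2 ⟨Finset.mem_univ _, ?_⟩
        show ¬ (π w ∈ T ↔ π (τ (π⁻¹ (π w))) ∈ T)
        rw [hπ2, hτ]
        exact h2
    · rintro (v | w) _ (v' | w') _ h
      · simp only [Prod.mk.injEq] at h
        rw [h.1]
      · simp at h
      · simp at h
      · simp only [Prod.mk.injEq, EmbeddingLike.apply_eq_iff_eq] at h
        rw [h.1]
    · rintro ⟨v, b⟩ hv
      have h2 := (Finset.mem_filter.1 hv).2
      cases b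
      · refine ⟨Sum.inl v, ?_, rfl⟩
        have : v ∈ cy T := by
          rw [mem_cy]
          exact h2
        simpa using this
      · refine ⟨Sum.inr (π⁻¹ v), ?_, ?_⟩
        · have : π⁻¹ v ∈ cy (T.map (π⁻¹ : Equiv.Perm (ZMod (48 * D))).toEmbedding) := by
            rw [mem_cy, hmap, hmap, hπ1]
            exact h2
          simpa using this
        · show (π (π⁻¹ v), true) = (v, true)
          rw [hπ1]
  refine ⟨G, ⟨fun T hT => ?_, fun T hT => ?_⟩⟩
  · by_contra hcon
    push Not at hcon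
    rw [ZMod.card] at hcon
    obtain ⟨h2, h3⟩ := hcon
    have h4 := hcut T
    have h5 : T ∈ Fm := (hmem T).2 ⟨by omega, h2, h3⟩
    have h6 : T.map (π⁻¹ : Equiv.Perm _).toEmbedding ∈ Fm :=
      (hmem _).2 ⟨by omega, by rw [Finset.card_map]; exact h2, by rw [Finset.card_map]; exact h3⟩
    refine hπ _ h6 _ h5 ?_
    ext v
    rw [Finset.mem_map]
    constructor
    · rintro ⟨w, hw, rfl⟩
      obtain ⟨v, hv, rfl⟩ := Finset.mem_map.1 hw
      show π (π⁻¹ v) ∈ T
      rwa [hπ1]
    · intro hv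
      refine ⟨π⁻¹ v, Finset.mem_map_of_mem _ hv, ?_⟩
      exact hπ1 v
  · have h4 := hcut T
    rw [hT, Finset.card_empty] at h4
    have h5 : cy T = ∅ := Finset.card_eq_zero.1 (by omega)
    by_cases h0 : (0 : ZMod (48 * D)) ∈ T
    · right
      refine cy_inj ?_ (by simp [h0])
      rw [h5]
      ext i
      rw [mem_cy]
      simp
    · left
      refine cy_inj ?_ (by simp [h0])
      rw [h5]
      ext i
      rw [mem_cy]
      simp

end Pool.Agent.H58.LM
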