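import Pool.Agent.H58.LM.Ker
import Pool.Agent.H58.LM.Exp

/-! Parities on disjoint copies of a graph. -/

set_option autoImplicit false
set_option linter.unusedSectionVars false

namespace Pool.Agent.H58.LM

open Finset

/-- the vertices of `g` disjoint copies of a graph -/
abbrev TV (g : ℕ) (V : Type) := Fin g × V

/-- the edges: two edges start at every vertex -/
abbrev TE (g : ℕ) (V : Type) := TV g V × Bool

variable {V : Type} [Fintype V] [DecidableEq V] {g D : ℕ}

/-- the second end of an edge -/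
def Gr.nxt (G : Gr V) (e : TE g V) : TV g V := (e.1.1, G.σ e.2 e.1.2)

/-- the boundary of a set of vertices -/
def Gr.bd (G : Gr V) (T : Finset (TV g V)) : Finset (TE g V) :=
  univ.filter fun e => ¬ (e.1 ∈ T ↔ G.nxt e ∈ T)

theorem mem_bd {G : Gr V} {T : Finset (TV g V)} {e : TE g V} :
    e ∈ G.bd T ↔ ¬ (e.1 ∈ T ↔ G.nxt e ∈ T) := by
  simp [Gr.bd]

theorem bd_symmDiff (G : Gr V) (T T' : Finset (TV g V)) :
    G.bd (symmDiff T T') = symmDiff (G.bd T) (G.bd T') := by
  ext e
  rw [mem_bd, Finset.mem_symmDiff, Finset.mem_symmDiff, Finset.mem_symmDiff, mem_bd, mem_bd]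
  tauto

theorem bd_empty (G : Gr V) : G.bd (∅ : Finset (TV g V)) = ∅ := by
  ext e
  rw [mem_bd]
  simp

/-- the part in one copy -/
def slc (T : Finset (TV g V)) (c : Fin g) : Finset V := univ.filter fun p => (c, p) ∈ T

theorem mem_slc {T : Finset (TV g V)} {c : Fin g} {p : V} : p ∈ slc T c ↔ (c, p) ∈ T := by
  simp [slc]

theorem card_cut_slc_le (G : Gr V) (T : Finset (TV g V)) (c : Fin g) :
    (G.cut (slc T c)).card ≤ (G.bd T).card := by
  refine Finset.card_le_card_of_injOn (fun e => (((c, e.1), e.2) : TE g V)) ?_ ?_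
  · intro e he
    have h1 := (Finset.mem_filter.1 (Finset.mem_coe.1 he)).2
    rw [mem_slc, mem_slc] at h1
    exact Finset.mem_coe.2 (mem_bd.2 h1)
  · intro e _ e' _ h
    simp only [Prod.mk.injEq, true_and] at h
    exact Prod.ext h.1 h.2

/-- less than a third of every copy -/
def Small (T : Finset (TV g V)) : Prop := ∀ c, 3 * (slc T c).card < Fintype.card V

noncomputable instance (T : Finset (TV g V)) : Decidable (Small T) := Classical.dec _

/-- one vertex of every copy has odd charge -/
def org (G : Gr V) (v : TV g V) : Bool := decide (v.2 = G.root)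

/-- the charge of a set -/
def sgn (G : Gr V) (T : Finset (TV g V)) : ℝ := chi T (org G)

theorem small_of_small_bd {G : Gr V} (hG : G.Good D) {T : Finset (TV g V)}
    (hT : (G.bd T).card ≤ D) (h : ∀ c, 3 * (slc T c).card < 2 * Fintype.card V) : Small T := by
  intro c
  rcases hG.bal (slc T c) ((card_cut_slc_le G T c).trans hT) with h1 | h1
  · exact h1
  · have := h c
    omega

theorem slc_symmDiff_card (T T' : Finset (TV g V)) (c : Fin g) :
    (slc (symmDiff T T') c).card ≤ (slc T c).card + (slc T' c).card := by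
  refine le_trans (Finset.card_le_card ?_) (Finset.card_union_le _ _)
  intro p hp
  rw [mem_slc, Finset.mem_symmDiff] at hp
  rw [Finset.mem_union, mem_slc, mem_slc]
  tauto

theorem small_symmDiff {G : Gr V} (hG : G.Good D) {T T' : Finset (TV g V)} (hT : Small T)
    (hT' : Small T') (h : (symmDiff (G.bd T) (G.bd T')).card ≤ D) : Small (symmDiff T T') := by
  refine small_of_small_bd hG (by rw [bd_symmDiff]; exact h) fun c => ?_
  have h1 := slc_symmDiff_card T T' c
  have h2 := hT c
  have h3 := hT' c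
  omega

theorem small_empty (G : Gr V) : Small (∅ : Finset (TV g V)) := by
  intro c
  have h1 : slc (∅ : Finset (TV g V)) c = ∅ := by
    ext p
    rw [mem_slc]
    simp
  rw [h1, Finset.card_empty, mul_zero]
  exact Fintype.card_pos_iff.2 ⟨G.root⟩

theorem eq_empty_of_slc {T : Finset (TV g V)} (h : ∀ c, slc T c = ∅) : T = ∅ := by
  rw [Finset.eq_empty_iff_forall_notMem]
  rintro ⟨c, p⟩ hv
  have h2 : p ∈ slc T c := mem_slc.mpr hv
  rw [h c] at h2
  exact Finset.notMem_empty _ h2

/-- a set without boundary is a union of copies -/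
theorem slc_of_bd_empty {G : Gr V} (hG : G.Good D) {T : Finset (TV g V)} (h : G.bd T = ∅)
    (c : Fin g) : slc T c = ∅ ∨ slc T c = univ := by
  refine hG.conn _ ?_
  have h1 := card_cut_slc_le G T c
  rw [h, Finset.card_empty] at h1
  exact Finset.card_eq_zero.1 (by omega)

theorem small_unique {G : Gr V} (hG : G.Good D) {T T' : Finset (TV g V)} (hT : Small T)
    (hT' : Small T') (h : G.bd T = G.bd T') : T = T' := by
  have h0 : G.bd (symmDiff T T') = ∅ := by
    rw [bd_symmDiff, h, symmDiff_self]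
    rfl
  have h2 : Small (symmDiff T T') := small_symmDiff hG hT hT' (by
    rw [← bd_symmDiff, h0, Finset.card_empty]
    exact Nat.zero_le _)
  have h3 : symmDiff T T' = ∅ := by
    refine eq_empty_of_slc fun c => ?_
    rcases slc_of_bd_empty hG h0 c with h4 | h4
    · exact h4
    · have h5 := h2 c
      rw [h4, Finset.card_univ] at h5
      omega
  exact symmDiff_eq_bot.mp h3

open Classical in
/-- the sign of a parity -/
noncomputable def tsn (G : Gr V) (D : ℕ) (S : Finset (TE g V)) : ℝ :=
  if h : ∃ T : Finset (TV g V), Small T ∧ (G.bd T).card ≤ D ∧ G.bd T = S then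
    sgn G h.choose else 1

theorem tsn_bd {G : Gr V} (hG : G.Good D) {T : Finset (TV g V)} (hT : Small T)
    (hD : (G.bd T).card ≤ D) : tsn G D (G.bd T) = sgn G T := by
  unfold tsn
  have h : ∃ T' : Finset (TV g V), Small T' ∧ (G.bd T').card ≤ D ∧ G.bd T' = G.bd T :=
    ⟨T, hT, hD, rfl⟩
  rw [dif_pos h]
  obtain ⟨h1, h2, h3⟩ := h.choose_spec
  rw [small_unique hG h1 hT h3]

/-- **The system of the parities on small sets.** -/
noncomputable def tor (g : ℕ) (G : Gr V) (hG : G.Good D) : Sys (TE g V) D where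
  L := ((univ : Finset (Finset (TV g V))).filter fun T => Small T ∧ (G.bd T).card ≤ D).image G.bd
  sn := tsn G D
  sn_sq := by
    intro S hS
    obtain ⟨T, hT, rfl⟩ := Finset.mem_image.mp hS
    obtain ⟨-, h1, h2⟩ := Finset.mem_filter.mp hT
    rw [tsn_bd hG h1 h2]
    exact chi_mul_self T (org G)
  empty_mem := by
    refine Finset.mem_image.mpr ⟨∅, Finset.mem_filter.mpr ⟨Finset.mem_univ _, small_empty G, ?_⟩,
      bd_empty G⟩
    rw [bd_empty, Finset.card_empty]
    exact Nat.zero_le _
  sn_empty := by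
    have h2 := tsn_bd hG (small_empty (g := g) G)
      (by rw [bd_empty, Finset.card_empty]; exact Nat.zero_le _)
    rw [bd_empty] at h2
    rw [h2]
    exact chi_empty _
  card_le := by
    intro S hS
    obtain ⟨T, hT, rfl⟩ := Finset.mem_image.mp hS
    exact (Finset.mem_filter.mp hT).2.2
  closed := by
    intro S hS S' hS' hSS
    obtain ⟨T, hT, rfl⟩ := Finset.mem_image.mp hS
    obtain ⟨T', hT', rfl⟩ := Finset.mem_image.mp hS'
    obtain ⟨-, h1, h2⟩ := Finset.mem_filter.mp hT
    obtain ⟨-, h3, h4⟩ := Finset.mem_filter.mp hT'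
    have h5 := small_symmDiff hG h1 h3 hSS
    have h6 : (G.bd (symmDiff T T')).card ≤ D := by rw [bd_symmDiff]; exact hSS
    rw [← bd_symmDiff]
    refine ⟨Finset.mem_image.mpr ⟨symmDiff T T', Finset.mem_filter.mpr
      ⟨Finset.mem_univ _, h5, h6⟩, rfl⟩, ?_⟩
    rw [tsn_bd hG h5 h6, tsn_bd hG h1 h2, tsn_bd hG h3 h4]
    exact chi_symmDiff T T' (org G)

/-- the four edges at a vertex -/
def inc (G : Gr V) (v : TV g V) : Fin 4 → TE g V :=
  ![(v, false), (v, true), ((v.1, (G.σ false).symm v.2), false), ((v.1, (G.σ true).symm v.2), true)]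

theorem symm_ne (G : Gr V) (b : Bool) (v : V) : (G.σ b).symm v ≠ v := by
  intro h
  have h1 := G.ne b v
  rw [Equiv.symm_apply_eq] at h
  exact h1 h.symm

theorem inc_injective (G : Gr V) (v : TV g V) : Function.Injective (inc G v) := by
  obtain ⟨c, p⟩ := v
  have h2 := symm_ne G false p
  have h3 := symm_ne G true p
  have h2' := h2.symm
  have h3' := h3.symm
  intro a b hab
  fin_cases a <;> fin_cases b <;> simp_all [inc]

theorem bd_singleton (G : Gr V) (v : TV g V) : G.bd {v} = univ.image (inc G v) := by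
  obtain ⟨c, p⟩ := v
  ext ⟨⟨c', p'⟩, b⟩
  rw [mem_bd]
  simp only [Finset.mem_singleton, Finset.mem_image, Finset.mem_univ, true_and, Fin.exists_fin_succ,
    inc, Gr.nxt]
  have h1 := G.ne b p'
  cases b
  · simp
    constructor
    · intro h
      by_cases h2 : c' = c ∧ p' = p
      · obtain ⟨rfl, rfl⟩ := h2
        exact Or.inl ⟨rfl, rfl⟩
      · right
        have h3 : c' = c ∧ G.σ false p' = p := by tauto
        obtain ⟨rfl, rfl⟩ := h3
        exact ⟨rfl, by rw [Equiv.symm_apply_apply]⟩
    · rintro (⟨rfl, rfl⟩ | ⟨rfl, h⟩)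
      · simp [h1]
      · rw [Equiv.symm_apply_eq] at h
        subst h
        exact ⟨rfl, fun h2 => h1 (h2.mpr rfl).symm⟩
  · simp
    constructor
    · intro h
      by_cases h2 : c' = c ∧ p' = p
      · obtain ⟨rfl, rfl⟩ := h2
        exact Or.inl ⟨rfl, rfl⟩
      · right
        have h3 : c' = c ∧ G.σ true p' = p := by tauto
        obtain ⟨rfl, rfl⟩ := h3
        exact ⟨rfl, by rw [Equiv.symm_apply_apply]⟩
    · rintro (⟨rfl, rfl⟩ | ⟨rfl, h⟩)
      · simp [h1]
      · rw [Equiv.symm_apply_eq] at h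
        subst h
        exact ⟨rfl, fun h2 => h1 (h2.mpr rfl).symm⟩

theorem card_bd_singleton (G : Gr V) (v : TV g V) : (G.bd {v}).card ≤ 4 := by
  rw [bd_singleton]
  exact Finset.card_image_le.trans (by simp)

theorem small_singleton (h4 : 4 ≤ Fintype.card V) (v : TV g V) :
    Small ({v} : Finset (TV g V)) := by
  intro c
  have h1 : (slc {v} c).card ≤ 1 := by
    rw [Finset.card_le_one]
    intro a ha b hb
    rw [mem_slc, Finset.mem_singleton] at ha hb
    have := ha.trans hb.symm
    exact (Prod.ext_iff.mp this).2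
  omega

/-- the sign of a boundary is the product of the signs at the vertices -/
theorem chi_bd (G : Gr V) (T : Finset (TV g V)) (z : TE g V → Bool) :
    chi (G.bd T) z = ∏ v ∈ T, chi (G.bd {v}) z := by
  induction T using Finset.induction_on with
  | empty => rw [bd_empty, chi_empty, Finset.prod_empty]
  | insert v T hv ih =>
    have h1 : insert v T = symmDiff {v} T := by
      ext a
      rw [Finset.mem_insert, Finset.mem_symmDiff, Finset.mem_singleton]
      constructor
      · rintro (rfl | h)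
        · exact Or.inl ⟨rfl, hv⟩
        · exact Or.inr ⟨h, fun h' => hv (h' ▸ h)⟩
      · rintro (⟨h, _⟩ | ⟨h, _⟩)
        · exact Or.inl h
        · exact Or.inr h
    rw [Finset.prod_insert hv, ← ih, h1, bd_symmDiff, chi_symmDiff]

/-- the charge of a vertex is reached -/
def Sat (G : Gr V) (v : TV g V) (z : TE g V → Bool) : Prop := chi (G.bd {v}) z = sg (org G v)

theorem chi_bd_of_sat {G : Gr V} {T : Finset (TV g V)} {z : TE g V → Bool}
    (h : ∀ v ∈ T, Sat G v z) : chi (G.bd T) z = sgn G T := by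
  rw [chi_bd, sgn, chi]
  exact Finset.prod_congr rfl fun v hv => h v hv

/-- In every copy some vertex is not satisfied. -/
theorem exists_not_sat (G : Gr V) (c : Fin g) (z : TE g V → Bool) : ∃ p, ¬ Sat G (c, p) z := by
  classical
  by_contra hcon
  push Not at hcon
  obtain ⟨T, hT⟩ : ∃ T : Finset (TV g V), T = univ.filter fun v => v.1 = c := ⟨_, rfl⟩
  have h1 : G.bd T = ∅ := by
    ext e
    rw [mem_bd, hT]
    have : (G.nxt e).1 = e.1.1 := rfl
    simp [this]
  have h2 := chi_bd_of_sat (G := G) (T := T) (z := z) fun v hv => by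
    rw [hT] at hv
    obtain ⟨c', p⟩ := v
    have h3 : c' = c := (Finset.mem_filter.mp hv).2
    rw [h3]
    exact hcon p
  rw [h1, chi_empty] at h2
  have h3 : sgn G T = -1 := by
    unfold sgn chi
    rw [Finset.prod_eq_single_of_mem (c, G.root) (by rw [hT]; simp)]
    · simp [org, sg]
    · rintro ⟨c', p⟩ hv hne
      rw [hT] at hv
      have h4 : c' = c := (Finset.mem_filter.mp hv).2
      have h5 : p ≠ G.root := fun h => hne (by rw [h, h4])
      simp [org, sg, h5]
  rw [h3] at h2
  norm_num at h2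

/-- A set which fills no copy has a boundary. -/
theorem bd_ne_empty {G : Gr V} (hG : G.Good D) {T : Finset (TV g V)} (hT : T.Nonempty)
    (h : ∀ c, ∃ p, (c, p) ∉ T) : G.bd T ≠ ∅ := by
  intro h0
  obtain ⟨⟨c, p⟩, hv⟩ := hT
  rcases slc_of_bd_empty hG h0 c with h1 | h1
  · have h2 : p ∈ slc T c := mem_slc.mpr hv
    rw [h1] at h2
    exact Finset.notMem_empty _ h2
  · obtain ⟨q, hq⟩ := h c
    apply hq
    rw [← mem_slc, h1]
    exact Finset.mem_univ _

/-- a violated charge is a dead restriction -/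
theorem dead_of_not_sat {G : Gr V} (hG : G.Good D) (hD4 : 4 ≤ D) (hV4 : 4 ≤ Fintype.card V)
    {v : TV g V} {z : TE g V → Bool} (h : ¬ Sat G v z) {J : Finset (TE g V)}
    (hJ : G.bd {v} ⊆ J) : ¬ Live (tor g G hG) J z := by
  intro hl
  have h3 : (G.bd {v}).card ≤ D := (card_bd_singleton G v).trans hD4
  have h4 : G.bd {v} ∈ (tor g G hG).L := Finset.mem_image.mpr ⟨{v}, Finset.mem_filter.mpr
    ⟨Finset.mem_univ _, small_singleton hV4 v, h3⟩, rfl⟩
  have h5 := hl (G.bd {v}) h4 hJ
  have h6 : (tor g G hG).sn (G.bd {v}) = sgn G {v} := tsn_bd hG (small_singleton hV4 v) h3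
  rw [h6] at h5
  apply h
  unfold Sat
  rw [h5, sgn, chi, Finset.prod_singleton]

end Pool.Agent.H58.LM
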