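import Mathlib

/-! Linear spaces: lines cover all pairs of points and meet in at most one point. -/

set_option autoImplicit false
set_option linter.unusedSectionVars false

namespace Pool.Agent.H58.LM

open Finset

/-- The total size of the lines of a linear space. -/
theorem linear_space {P J : Type*} [DecidableEq P] [Fintype J] [DecidableEq J] (K : Finset P)
    (L : J → Finset P) {g : ℕ} (hK : 2 ≤ K.card) (hLK : ∀ j, L j ⊆ K)
    (hcov : ∀ x ∈ K, ∀ y ∈ K, x ≠ y → ∃ j, x ∈ L j ∧ y ∈ L j)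
    (hint : ∀ i j, ∀ x ∈ L i, ∀ y ∈ L i, x ≠ y → x ∈ L j → y ∈ L j → i = j)
    (hg : ∀ j, (L j).card + g ≤ K.card) :
    g * K.card ≤ 2 * ∑ j ∈ univ.filter (fun j => 2 ≤ (L j).card), (L j).card ∨
    K.card ^ 2 * (K.card - 1) ≤
      2 * (∑ j ∈ univ.filter (fun j => 2 ≤ (L j).card), (L j).card) ^ 2 := by
  classical
  obtain ⟨J2, hJ2⟩ : ∃ J2 : Finset J, J2 = univ.filter fun j => 2 ≤ (L j).card := ⟨_, rfl⟩
  rw [← hJ2]
  obtain ⟨r, hr⟩ : ∃ r : P → ℕ, ∀ x, r x = (J2.filter fun j => x ∈ L j).card := ⟨_, fun _ => rfl⟩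
  -- double counting
  have hsum : ∑ j ∈ J2, (L j).card = ∑ x ∈ K, r x := by
    have h1 : ∀ j ∈ J2, (L j).card = ∑ x ∈ K, if x ∈ L j then 1 else 0 := by
      intro j _
      rw [← Finset.card_filter]
      congr 1
      ext x
      rw [Finset.mem_filter]
      exact ⟨fun h => ⟨hLK j h, h⟩, fun h => h.2⟩
    rw [Finset.sum_congr rfl h1, Finset.sum_comm]
    refine Finset.sum_congr rfl fun x _ => ?_
    rw [hr, Finset.card_filter]
  -- a line through two points
  have hline : ∀ x ∈ K, ∀ y ∈ K, x ≠ y → ∃ j ∈ J2, x ∈ L j ∧ y ∈ L j := by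
    intro x hx y hy hxy
    obtain ⟨j, h1, h2⟩ := hcov x hx y hy hxy
    refine ⟨j, ?_, h1, h2⟩
    rw [hJ2]
    refine Finset.mem_filter.mpr ⟨Finset.mem_univ _, ?_⟩
    have : ({x, y} : Finset P) ⊆ L j := by
      intro z hz
      rcases Finset.mem_insert.mp hz with rfl | hz
      · exact h1
      · rw [Finset.mem_singleton.mp hz]
        exact h2
    have h3 := Finset.card_le_card this
    rwa [Finset.card_pair hxy] at h3
  obtain ⟨x0, hx0, y0, hy0, hxy0⟩ := Finset.one_lt_card.mp hK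
  obtain ⟨j1, hj1, -, -⟩ := hline x0 hx0 y0 hy0 hxy0
  obtain ⟨j0, hj0, hmax⟩ := Finset.exists_max_image J2 (fun j => (L j).card) ⟨j1, hj1⟩
  obtain ⟨w, hw⟩ : ∃ w, w = (L j0).card := ⟨_, rfl⟩
  have hw2 : 2 ≤ w := by
    rw [hw]
    rw [hJ2] at hj0
    exact (Finset.mem_filter.mp hj0).2
  -- every point is on many lines
  have hd : ∀ x ∈ K, K.card - 1 ≤ r x * (w - 1) := by
    intro x hx
    have h1 : K.erase x ⊆ (J2.filter fun j => x ∈ L j).biUnion fun j => (L j).erase x := by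
      intro y hy
      obtain ⟨hne, hyK⟩ := Finset.mem_erase.mp hy
      obtain ⟨j, h1, h2, h3⟩ := hline x hx y hyK (Ne.symm hne)
      exact Finset.mem_biUnion.mpr ⟨j, Finset.mem_filter.mpr ⟨h1, h2⟩,
        Finset.mem_erase.mpr ⟨hne, h3⟩⟩
    have h2 := (Finset.card_le_card h1).trans (Finset.card_biUnion_le_card_mul _ _ (w - 1)
      fun j hj => by
        obtain ⟨h3, h4⟩ := Finset.mem_filter.mp hj
        rw [Finset.card_erase_of_mem h4]
        have := hmax j h3
        omega)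
    rw [Finset.card_erase_of_mem hx] at h2
    rw [hr]
    exact h2
  -- points outside of the largest line
  have he : ∀ x ∈ K, x ∉ L j0 → w ≤ r x := by
    intro x hx hxj
    have h1 : ∀ b : P, ∃ j : J, b ∈ L j0 → j ∈ J2 ∧ x ∈ L j ∧ b ∈ L j := by
      intro b
      by_cases hb : b ∈ L j0
      · obtain ⟨j, h1, h2, h3⟩ := hline x hx b (hLK j0 hb) (fun h => hxj (h ▸ hb))
        exact ⟨j, fun _ => ⟨h1, h2, h3⟩⟩
      · exact ⟨j0, fun h => absurd h hb⟩
    choose f hf using h1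
    rw [hw, hr]
    refine Finset.card_le_card_of_injOn f ?_ ?_
    · intro b hb
      obtain ⟨h1, h2, h3⟩ := hf b (Finset.mem_coe.mp hb)
      exact Finset.mem_coe.mpr (Finset.mem_filter.mpr ⟨h1, h2⟩)
    · intro b hb b' hb' hbb
      by_contra hne
      obtain ⟨h1, h2, h3⟩ := hf b (Finset.mem_coe.mp hb)
      obtain ⟨h4, h5, h6⟩ := hf b' (Finset.mem_coe.mp hb')
      have h7 := hint j0 (f b) b (Finset.mem_coe.mp hb) b' (Finset.mem_coe.mp hb') hne h3
        (by rw [hbb]; exact h6)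
      rw [← h7] at h2
      exact hxj h2
  have hA : (K.card - w) * w ≤ ∑ x ∈ K, r x := by
    have h1 : ∑ x ∈ K \ L j0, w ≤ ∑ x ∈ K, r x := by
      refine (Finset.sum_le_sum fun x hx => ?_).trans
        (Finset.sum_le_sum_of_subset_of_nonneg Finset.sdiff_subset fun _ _ _ => Nat.zero_le _)
      obtain ⟨h1, h2⟩ := Finset.mem_sdiff.mp hx
      exact he x h1 h2
    rw [Finset.sum_const, smul_eq_mul, Finset.card_sdiff_of_subset (hLK j0), ← hw] at h1
    exact h1
  have hB : K.card * (K.card - 1) ≤ (∑ x ∈ K, r x) * (w - 1) := by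
    rw [Finset.sum_mul]
    have h1 : ∑ x ∈ K, (K.card - 1) ≤ ∑ x ∈ K, r x * (w - 1) :=
      Finset.sum_le_sum fun x hx => hd x hx
    rw [Finset.sum_const, smul_eq_mul] at h1
    exact h1
  rw [hsum]
  obtain ⟨W0, hW0⟩ : ∃ W0, W0 = ∑ x ∈ K, r x := ⟨_, rfl⟩
  rw [← hW0] at hA hB ⊢
  have hgw := hg j0
  rw [← hw] at hgw
  rcases Nat.lt_or_ge (2 * w) K.card with h | h
  · right
    have h1 : K.card * w ≤ 2 * W0 := by
      calc K.card * w ≤ (2 * (K.card - w)) * w := Nat.mul_le_mul_right _ (by omega)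
        _ = 2 * ((K.card - w) * w) := by ring
        _ ≤ 2 * W0 := Nat.mul_le_mul_left _ hA
    have h2 : K.card * (K.card - 1) ≤ W0 * w := hB.trans (Nat.mul_le_mul_left _ (by omega))
    have h3 : (K.card ^ 2 * (K.card - 1)) * w ≤ (2 * W0 ^ 2) * w := by
      calc (K.card ^ 2 * (K.card - 1)) * w = (K.card * w) * (K.card * (K.card - 1)) := by ring
        _ ≤ (2 * W0) * (W0 * w) := Nat.mul_le_mul h1 h2
        _ = (2 * W0 ^ 2) * w := by ring
    exact Nat.le_of_mul_le_mul_right h3 (by omega)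
  · left
    calc g * K.card ≤ g * (2 * w) := Nat.mul_le_mul_left _ h
      _ = 2 * (g * w) := by ring
      _ ≤ 2 * ((K.card - w) * w) := Nat.mul_le_mul_left _ (Nat.mul_le_mul_right _ (by omega))
      _ ≤ 2 * W0 := Nat.mul_le_mul_left _ hA

end Pool.Agent.H58.LM
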