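import Pool.Agent.H25.NM.Chain
import Pool.Agent.H58.LG.Cq
import Pool.Agent.H58.LM.Net
import Pool.Agent.H58.LM.Lin

/-! The graphs of the two kinds and the cliques of unions of random blocks. -/

set_option autoImplicit false
set_option linter.unusedSectionVars false

namespace Pool.Agent.H58.LM

open Finset
open Pool.Agent.H25.NM (nc nc_eq nc_congr nc_mono nc_le_card nc_false nc_bex_le pre
  nc_eq_sum_nat)
open Pool.Agent.H58.LG (zz nc_pi)

/-- the vertices of a block: a vertex of the graph and a point on each of the four edges at it -/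
abbrev BV (g : ℕ) (V α : Type) := TV g V × (Fin 4 → α)

variable {g D : ℕ} {V α : Type} [Fintype V] [DecidableEq V] [Fintype α] [DecidableEq α]

/-- the clique of a point of the space -/
def tq (B : Gr V) (x : TE g V → α) : SimpleGraph (BV g V α) where
  Adj p q := p.1 ≠ q.1 ∧ (∀ k, p.2 k = x (inc B p.1 k)) ∧ ∀ k, q.2 k = x (inc B q.1 k)
  symm := ⟨fun _ _ h => ⟨h.1.symm, h.2.2, h.2.1⟩⟩
  loopless := ⟨fun _ h => h.1 rfl⟩

/-- the bits at the chosen points on the edges at a vertex have the right sum -/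
def Ok (B : Gr V) (y : TE g V → α → Bool) (p : BV g V α) : Prop :=
  ∏ k, sg (y (inc B p.1 k) (p.2 k)) = sg (org B p.1)

/-- the graph of a choice of bits -/
def mp (B : Gr V) (y : TE g V → α → Bool) : SimpleGraph (BV g V α) where
  Adj p q := p.1 ≠ q.1 ∧ (∀ k k', inc B p.1 k = inc B q.1 k' → p.2 k = q.2 k') ∧ Ok B y p ∧ Ok B y q
  symm := ⟨fun _ _ h => ⟨h.1.symm, fun k k' e => (h.2.1 k' k e.symm).symm, h.2.2.2, h.2.2.1⟩⟩
  loopless := ⟨fun _ h => h.1 rfl⟩

theorem ok_iff {B : Gr V} {y : TE g V → α → Bool} {p : BV g V α} {x : TE g V → α}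
    (hx : ∀ k, p.2 k = x (inc B p.1 k)) : Ok B y p ↔ Sat B p.1 (zz x y) := by
  unfold Ok Sat chi
  rw [bd_singleton, Finset.prod_image fun a _ b _ h => inc_injective B _ h]
  have : ∀ k, sg (y (inc B p.1 k) (p.2 k)) = sg (zz x y (inc B p.1 k)) := fun k => by
    rw [hx]
    rfl
  rw [Finset.prod_congr rfl fun k _ => this k]

/-- An edge of the clique of `x` which is not an edge of the graph of `y` is witnessed by at most
eight bits. -/
theorem edge_dead {B : Gr V} (hB : B.Good D) (hD4 : 4 ≤ D) (hV4 : 4 ≤ Fintype.card V)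
    (x : TE g V → α) {p q : BV g V α} (h : (tq B x).Adj p q) : ∃ J : Finset (TE g V), J.card ≤ 8 ∧
      ∀ y, ¬ (mp B y).Adj p q → ¬ Live (tor g B hB) J (zz x y) := by
  obtain ⟨h1, h2, h3⟩ := h
  refine ⟨B.bd {p.1} ∪ B.bd {q.1}, ?_, fun y hy => ?_⟩
  · have h4 := card_bd_singleton B p.1
    have h5 := card_bd_singleton B q.1
    have h6 := Finset.card_union_le (B.bd {p.1}) (B.bd {q.1})
    omega
  · have h4 : ¬ Ok B y p ∨ ¬ Ok B y q := by
      by_contra hcon
      push Not at hcon
      refine hy ⟨h1, fun k k' e => ?_, hcon.1, hcon.2⟩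
      rw [h2, h3, e]
    rcases h4 with h4 | h4
    · rw [ok_iff h2] at h4
      exact dead_of_not_sat hB hD4 hV4 h4 Finset.subset_union_left
    · rw [ok_iff h3] at h4
      exact dead_of_not_sat hB hD4 hV4 h4 Finset.subset_union_right

theorem card_TV : Fintype.card (TV g V) = g * Fintype.card V := by
  rw [Fintype.card_prod, Fintype.card_fin]

theorem tq_not_cliqueFree (B : Gr V) {n : ℕ} (φ : BV g V α ↪ Fin n) (x : TE g V → α)
    (G : SimpleGraph (Fin n)) : ¬ (G ⊔ (tq B x).map φ).CliqueFree (g * Fintype.card V) := by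
  classical
  intro h
  let ψ : TV g V ↪ Fin n := ⟨fun v => φ (v, fun k => x (inc B v k)), fun i j hij =>
    (Prod.ext_iff.1 (φ.injective hij)).1⟩
  refine h (univ.map ψ) ⟨?_, by rw [Finset.card_map, Finset.card_univ, card_TV]⟩
  intro a ha b hb hab
  obtain ⟨i, -, rfl⟩ := Finset.mem_map.1 (Finset.mem_coe.1 ha)
  obtain ⟨j, -, rfl⟩ := Finset.mem_map.1 (Finset.mem_coe.1 hb)
  refine Or.inr ?_
  rw [SimpleGraph.map_adj]
  refine ⟨(i, fun k => x (inc B i k)), (j, fun k => x (inc B j k)), ⟨?_, fun _ => rfl, fun _ => rfl⟩,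
    rfl, rfl⟩
  intro hij
  have hij' : i = j := hij
  exact hab (by rw [hij'])

/-- characters are balanced -/
theorem sum_chi_zz {ι β : Type} [Fintype ι] [DecidableEq ι] [Fintype β] [DecidableEq β]
    {S : Finset ι} (hS : S.Nonempty) (x : ι → β) : ∑ y : ι → β → Bool, chi S (zz x y) = 0 := by
  obtain ⟨i, hi⟩ := hS
  refine Finset.sum_involution (fun y _ =>
    Function.update y i (Function.update (y i) (x i) (!(y i (x i))))) ?_ ?_ ?_ ?_
  · intro y _
    unfold chi
    rw [← Finset.mul_prod_erase S _ hi, ← Finset.mul_prod_erase S _ hi]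
    have h1 : sg (zz x (Function.update y i (Function.update (y i) (x i) (!(y i (x i))))) i) =
        - sg (zz x y i) := by
      unfold zz
      rw [Function.update_self, Function.update_self]
      cases y i (x i) <;> simp [sg]
    have h2 : ∏ j ∈ S.erase i,
        sg (zz x (Function.update y i (Function.update (y i) (x i) (!(y i (x i))))) j) =
        ∏ j ∈ S.erase i, sg (zz x y j) := by
      refine Finset.prod_congr rfl fun j hj => ?_
      unfold zz
      rw [Function.update_of_ne (Finset.ne_of_mem_erase hj)]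
    rw [h1, h2]
    ring
  · intro y _ _ h
    have h1 := congrFun (congrFun h i) (x i)
    rw [Function.update_self, Function.update_self] at h1
    cases hb : y i (x i) <;> rw [hb] at h1 <;> simp at h1
  · intro y _
    exact Finset.mem_univ _
  · intro y _
    funext j a
    by_cases hj : j = i
    · subst hj
      by_cases ha : a = x j
      · subst ha
        simp
      · simp [Function.update_of_ne ha]
    · simp [Function.update_of_ne hj]

/-- The probability that the charges of a set of vertices are reached. -/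
theorem nc_sat {B : Gr V} (hB : B.Good D) (A : TE g V → α) (T : Finset (TV g V)) (hT : ∀ c, ∃ p, (c, p) ∉ T) :
    nc (fun y : TE g V → α → Bool => ∀ v ∈ T, Sat B v (zz A y)) * 2 ^ T.card ≤
      Fintype.card (TE g V → α → Bool) := by
  classical
  have h1 : ∑ y : TE g V → α → Bool, ∏ v ∈ T, (1 + sg (org B v) * chi (B.bd {v}) (zz A y)) =
      (Fintype.card (TE g V → α → Bool) : ℝ) := by
    simp only [Finset.prod_one_add]
    rw [Finset.sum_comm, Finset.sum_eq_single_of_mem ∅ (Finset.empty_mem_powerset T)]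
    · rw [Finset.sum_congr rfl fun y _ => Finset.prod_empty, Finset.sum_const, Finset.card_univ,
        nsmul_eq_mul, mul_one]
    · intro S hS hne
      have h2 : ∀ y : TE g V → α → Bool, ∏ v ∈ S, (sg (org B v) * chi (B.bd {v}) (zz A y)) =
          sgn B S * chi (B.bd S) (zz A y) := by
        intro y
        rw [Finset.prod_mul_distrib, ← chi_bd]
        rfl
      rw [Finset.sum_congr rfl fun y _ => h2 y, ← Finset.mul_sum, sum_chi_zz, mul_zero]
      rw [Finset.nonempty_iff_ne_empty]
      refine bd_ne_empty hB (Finset.nonempty_iff_ne_empty.mpr hne) fun c => ?_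
      obtain ⟨p, hp⟩ := hT c
      exact ⟨p, fun h => hp (Finset.mem_powerset.mp hS h)⟩
  have hfac : ∀ (v : TV g V) (z : TE g V → Bool), 0 ≤ 1 + sg (org B v) * chi (B.bd {v}) z := by
    intro v z
    have h2 : |sg (org B v) * chi (B.bd {v}) z| = 1 := by
      rw [abs_mul, abs_chi, mul_one]
      cases org B v <;> simp [sg]
    have h3 := neg_abs_le (sg (org B v) * chi (B.bd {v}) z)
    linarith
  have h2 : (nc (fun y : TE g V → α → Bool => ∀ v ∈ T, Sat B v (zz A y)) : ℝ) * 2 ^ T.card ≤
      Fintype.card (TE g V → α → Bool) := by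
    rw [← h1, nc_eq_sum_nat]
    push_cast
    rw [Finset.sum_mul]
    refine Finset.sum_le_sum fun y _ => ?_
    split_ifs with h
    · rw [one_mul, ← Finset.prod_const]
      refine Finset.prod_le_prod (fun _ _ => by norm_num) fun v hv => ?_
      have h3 := h v hv
      unfold Sat at h3
      rw [h3, sg_mul_self]
      norm_num
    · rw [zero_mul]
      exact Finset.prod_nonneg fun v _ => hfac v _
  exact_mod_cast h2

theorem card_add_le {T : Finset (TV g V)} (hT : ∀ c, ∃ p, (c, p) ∉ T) :
    T.card + g ≤ g * Fintype.card V := by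
  classical
  choose p hp using hT
  have h1 : (univ.image fun c => ((c, p c) : TV g V)).card = g := by
    rw [Finset.card_image_of_injective _ fun a b h => (Prod.ext_iff.mp h).1, Finset.card_univ,
      Fintype.card_fin]
  have h2 : Disjoint T (univ.image fun c => ((c, p c) : TV g V)) := by
    rw [Finset.disjoint_right]
    intro v hv
    obtain ⟨c, -, rfl⟩ := Finset.mem_image.mp hv
    exact hp c
  have h3 := Finset.card_le_univ (T ∪ univ.image fun c => ((c, p c) : TV g V))
  rw [Finset.card_union_of_disjoint h2, h1, card_TV] at h3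
  exact h3

/-- the vertices of a clique are at different places -/
theorem clique_fst {B : Gr V} {y : TE g V → α → Bool} {W : Finset (BV g V α)}
    (hW : (mp B y).IsClique W) : Set.InjOn Prod.fst (W : Set (BV g V α)) := by
  intro p hp q hq h
  by_contra hne
  exact (hW hp hq hne).1 h

/-- the points of a clique are consistent -/
theorem clique_points [Nonempty α] {B : Gr V} {y : TE g V → α → Bool} {W : Finset (BV g V α)}
    (hW : (mp B y).IsClique W) : ∃ A : TE g V → α, ∀ p ∈ W, ∀ k, p.2 k = A (inc B p.1 k) := by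
  classical
  have h1 : ∀ e : TE g V, ∃ a : α, ∀ p ∈ W, ∀ k, inc B p.1 k = e → p.2 k = a := by
    intro e
    by_cases h : ∃ p ∈ W, ∃ k, inc B p.1 k = e
    · obtain ⟨p, hp, k, hk⟩ := h
      refine ⟨p.2 k, fun q hq k' hk' => ?_⟩
      by_cases hpq : q = p
      · subst hpq
        rw [inc_injective B _ (hk'.trans hk.symm)]
      · exact (hW (Finset.mem_coe.mpr hq) (Finset.mem_coe.mpr hp) hpq).2.1 k' k (hk'.trans hk.symm)
    · push Not at h
      exact ⟨Classical.arbitrary α, fun p hp k hk => absurd hk (h p hp k)⟩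
  choose A hA using h1
  exact ⟨A, fun p hp k => hA _ p hp k rfl⟩

theorem clique_sat {B : Gr V} {y : TE g V → α → Bool} {W : Finset (BV g V α)}
    (hW : (mp B y).IsClique W) (h2 : 2 ≤ W.card) {A : TE g V → α}
    (hA : ∀ p ∈ W, ∀ k, p.2 k = A (inc B p.1 k)) :
    ∀ v ∈ W.image Prod.fst, Sat B v (zz A y) := by
  classical
  intro v hv
  obtain ⟨p, hp, rfl⟩ := Finset.mem_image.mp hv
  rw [← ok_iff (hA p hp)]
  obtain ⟨q, hq, hpq⟩ := Finset.exists_mem_ne (by omega : 1 < W.card) p
  exact (hW (Finset.mem_coe.mpr hp) (Finset.mem_coe.mpr hq) (Ne.symm hpq)).2.2.1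

theorem clique_missing [Nonempty α] {B : Gr V} {y : TE g V → α → Bool} {W : Finset (BV g V α)}
    (hW : (mp B y).IsClique W) (h2 : 2 ≤ W.card) : ∀ c, ∃ p, (c, p) ∉ W.image Prod.fst := by
  classical
  intro c
  obtain ⟨A, hA⟩ := clique_points hW
  obtain ⟨p, hp⟩ := exists_not_sat B c (zz A y)
  exact ⟨p, fun h => hp (clique_sat hW h2 hA _ h)⟩

theorem clique_card [Nonempty α] {B : Gr V} {y : TE g V → α → Bool} {W : Finset (BV g V α)}
    (hW : (mp B y).IsClique W) (h2 : 2 ≤ W.card) : W.card + g ≤ g * Fintype.card V := by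
  classical
  have h := card_add_le (clique_missing hW h2)
  rwa [Finset.card_image_of_injOn (clique_fst hW)] at h

theorem nc_clique [Nonempty α] {B : Gr V} (hB : B.Good D) {W : Finset (BV g V α)} (h2 : 2 ≤ W.card) :
    nc (fun y : TE g V → α → Bool => (mp B y).IsClique W) * 2 ^ W.card ≤
      Fintype.card (TE g V → α → Bool) := by
  classical
  by_cases hne : ∃ y : TE g V → α → Bool, (mp B y).IsClique W
  swap
  · push Not at hne
    rw [nc_false hne, zero_mul]
    exact Nat.zero_le _
  obtain ⟨y0, hy0⟩ := hne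
  obtain ⟨A, hA⟩ := clique_points hy0
  have h3 := nc_sat hB A _ (clique_missing hy0 h2)
  rw [Finset.card_image_of_injOn (clique_fst hy0)] at h3
  refine le_trans (Nat.mul_le_mul_right _ (nc_mono fun y hy => ?_)) h3
  exact clique_sat hy h2 hA

variable {n J : ℕ}

/-- The probability that a set of vertices is a clique of the union of random blocks. -/
theorem nc_isClique_le [Nonempty α] {B : Gr V} (hB : B.Good D) {Λ : ℕ}
    (hl : 4 ≤ Fintype.card V) (hg : 1 ≤ g) (hgΛ : 2 * Λ ≤ g)
    (hmΛ : 2 * Λ ^ 2 + 1 ≤ g * Fintype.card V) (φ : Fin J → BV g V α ↪ Fin n)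
    (hφ : ∀ i j u v u' v', u ≠ v → φ i u = φ j u' → φ i v = φ j v' → i = j)
    (K : Finset (Fin n)) (hK : K.card = g * Fintype.card V) :
    nc (fun ω : Fin J → (TE g V → α → Bool) => (pre φ (mp B) ω J).IsClique K) *
      2 ^ (g * Fintype.card V * Λ) ≤ Fintype.card (Fin J → (TE g V → α → Bool)) := by
  classical
  have hgl : g * 4 ≤ g * Fintype.card V := Nat.mul_le_mul_left _ hl
  by_cases hne : ∃ ω : Fin J → (TE g V → α → Bool), (pre φ (mp B) ω J).IsClique K
  swap
  · push Not at hne
    rw [nc_false hne, zero_mul]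
    exact Nat.zero_le _
  obtain ⟨ω0, hω0⟩ := hne
  obtain ⟨W, hW⟩ : ∃ W : Fin J → Finset (BV g V α), ∀ j, W j = univ.filter fun v => φ j v ∈ K :=
    ⟨fun j => univ.filter fun v => φ j v ∈ K, fun _ => rfl⟩
  have hmemW : ∀ j v, v ∈ W j ↔ φ j v ∈ K := by
    intro j v
    rw [hW]
    simp
  have hcl : ∀ ω : Fin J → (TE g V → α → Bool), (pre φ (mp B) ω J).IsClique K →
      ∀ j, (mp B (ω j)).IsClique (W j) := by
    intro ω hω j v hv w hw hne
    have hv' := (hmemW j v).mp (Finset.mem_coe.mp hv)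
    have hw' := (hmemW j w).mp (Finset.mem_coe.mp hw)
    have hne' : φ j v ≠ φ j w := fun h => hne ((φ j).injective h)
    obtain ⟨i, -, hadj⟩ := hω (Finset.mem_coe.mpr hv') (Finset.mem_coe.mpr hw') hne'
    rw [SimpleGraph.map_adj] at hadj
    obtain ⟨a, b, hab, ha, hb⟩ := hadj
    have hab' : a ≠ b := fun h => hab.ne h
    have hij : i = j := hφ i j a b v w hab' ha hb
    subst hij
    rw [(φ i).injective ha, (φ i).injective hb] at hab
    exact hab
  have hcardL : ∀ j, ((W j).map (φ j)).card = (W j).card := fun j => Finset.card_map _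
  -- the lines
  have hlin := linear_space K (fun j => (W j).map (φ j)) (g := g) (by omega) (by
      intro j x hx
      obtain ⟨v, hv, rfl⟩ := Finset.mem_map.mp hx
      exact (hmemW j v).mp hv) (by
      intro x hx y hy hxy
      obtain ⟨j, -, hadj⟩ := hω0 (Finset.mem_coe.mpr hx) (Finset.mem_coe.mpr hy) hxy
      rw [SimpleGraph.map_adj] at hadj
      obtain ⟨v, w, hvw, rfl, rfl⟩ := hadj
      exact ⟨j, Finset.mem_map_of_mem _ ((hmemW j v).mpr hx),
        Finset.mem_map_of_mem _ ((hmemW j w).mpr hy)⟩) (by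
      intro i j x hx y hy hxy hx' hy'
      obtain ⟨v, hv, rfl⟩ := Finset.mem_map.mp hx
      obtain ⟨w, hw, rfl⟩ := Finset.mem_map.mp hy
      obtain ⟨v', hv', e1⟩ := Finset.mem_map.mp hx'
      obtain ⟨w', hw', e2⟩ := Finset.mem_map.mp hy'
      exact hφ i j v w v' w' (fun h => hxy (by rw [h])) e1.symm e2.symm) (by
      intro j
      rw [hcardL, hK]
      rcases Nat.lt_or_ge (W j).card 2 with h | h
      · omega
      · exact clique_card (hcl ω0 hω0 j) h)
  rw [Finset.sum_congr rfl fun j _ => hcardL j, Finset.filter_congr fun j _ => by rw [hcardL],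
    hK] at hlin
  obtain ⟨W0, hW0⟩ : ∃ W0, W0 = ∑ j ∈ univ.filter (fun j => 2 ≤ (W j).card), (W j).card := ⟨_, rfl⟩
  rw [← hW0] at hlin
  have hm : g * Fintype.card V * Λ ≤ W0 := by
    rcases hlin with h | h
    · have h1 : 2 * (g * Fintype.card V * Λ) ≤ 2 * W0 := by
        calc 2 * (g * Fintype.card V * Λ) = (2 * Λ) * (g * Fintype.card V) := by ring
          _ ≤ g * (g * Fintype.card V) := Nat.mul_le_mul_right _ hgΛ
          _ ≤ 2 * W0 := h
      omega
    · have h1 : 2 * (g * Fintype.card V * Λ) ^ 2 ≤ 2 * W0 ^ 2 := by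
        calc 2 * (g * Fintype.card V * Λ) ^ 2 = (g * Fintype.card V) ^ 2 * (2 * Λ ^ 2) := by ring
          _ ≤ (g * Fintype.card V) ^ 2 * (g * Fintype.card V - 1) := Nat.mul_le_mul_left _ (by omega)
          _ ≤ 2 * W0 ^ 2 := h
      have h2 : (g * Fintype.card V * Λ) ^ 2 ≤ W0 ^ 2 := by omega
      exact (Nat.pow_le_pow_iff_left (by norm_num)).mp h2
  have h1 : nc (fun ω : Fin J → (TE g V → α → Bool) => (pre φ (mp B) ω J).IsClique K) ≤
      ∏ j, nc fun y : TE g V → α → Bool => (mp B y).IsClique (W j) := by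
    rw [← nc_pi]
    exact nc_mono fun ω hω => hcl ω hω
  have h2 : 2 ^ W0 = ∏ j, 2 ^ (if 2 ≤ (W j).card then (W j).card else 0) := by
    rw [Finset.prod_pow_eq_pow_sum, hW0, Finset.sum_filter]
  calc nc (fun ω : Fin J → (TE g V → α → Bool) => (pre φ (mp B) ω J).IsClique K) *
        2 ^ (g * Fintype.card V * Λ)
      ≤ (∏ j, nc fun y : TE g V → α → Bool => (mp B y).IsClique (W j)) * 2 ^ W0 :=
        Nat.mul_le_mul h1 (Nat.pow_le_pow_right (by norm_num) hm)
    _ = ∏ j, (nc (fun y : TE g V → α → Bool => (mp B y).IsClique (W j)) *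
        2 ^ (if 2 ≤ (W j).card then (W j).card else 0)) := by
        rw [h2, Finset.prod_mul_distrib]
    _ ≤ ∏ _j : Fin J, Fintype.card (TE g V → α → Bool) := by
        refine Finset.prod_le_prod' fun j _ => ?_
        split_ifs with h
        · exact nc_clique hB h
        · rw [pow_zero, mul_one]
          exact nc_le_card _
    _ = _ := by
        rw [Finset.prod_const, Finset.card_univ, Fintype.card_fin,
          Fintype.card_fun (α := Fin J), Fintype.card_fin]

theorem nc_not_cliqueFree_le [Nonempty α] {B : Gr V} (hB : B.Good D) {L : ℕ}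
    (hl : 4 ≤ Fintype.card V) (hg : 2 * (L + 1) ≤ g)
    (hm : 2 * (L + 1) ^ 2 + 1 ≤ g * Fintype.card V) (hn : n ≤ 2 ^ L) (φ : Fin J → BV g V α ↪ Fin n)
    (hφ : ∀ i j u v u' v', u ≠ v → φ i u = φ j u' → φ i v = φ j v' → i = j) :
    2 * nc (fun ω : Fin J → (TE g V → α → Bool) => ¬ (pre φ (mp B) ω J).CliqueFree (g * Fintype.card V)) ≤
      Fintype.card (Fin J → (TE g V → α → Bool)) := by
  classical
  obtain ⟨m, hm'⟩ : ∃ m, m = g * Fintype.card V := ⟨_, rfl⟩
  rw [← hm'] at hm ⊢
  have h1 : nc (fun ω : Fin J → (TE g V → α → Bool) => ¬ (pre φ (mp B) ω J).CliqueFree m) ≤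
      ∑ U ∈ powersetCard m (univ : Finset (Fin n)),
        nc (fun ω : Fin J → (TE g V → α → Bool) => (pre φ (mp B) ω J).IsClique U) := by
    refine le_trans (nc_mono fun ω hω => ?_) (nc_bex_le _ _)
    unfold SimpleGraph.CliqueFree at hω
    push Not at hω
    obtain ⟨U, hU⟩ := hω
    exact ⟨U, Finset.mem_powersetCard.2 ⟨Finset.subset_univ _, hU.card_eq⟩, hU.isClique⟩
  refine Nat.le_of_mul_le_mul_right ?_ (show 0 < 2 ^ (m * (L + 1)) by positivity)
  calc 2 * nc (fun ω : Fin J → (TE g V → α → Bool) => ¬ (pre φ (mp B) ω J).CliqueFree m) *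
      2 ^ (m * (L + 1))
      ≤ 2 * (∑ U ∈ powersetCard m (univ : Finset (Fin n)),
        nc (fun ω : Fin J → (TE g V → α → Bool) => (pre φ (mp B) ω J).IsClique U)) *
        2 ^ (m * (L + 1)) := by gcongr
    _ = 2 * ∑ U ∈ powersetCard m (univ : Finset (Fin n)),
        nc (fun ω : Fin J → (TE g V → α → Bool) => (pre φ (mp B) ω J).IsClique U) *
        2 ^ (m * (L + 1)) := by
        rw [mul_assoc, Finset.sum_mul]
    _ ≤ 2 * ∑ U ∈ powersetCard m (univ : Finset (Fin n)),
        Fintype.card (Fin J → (TE g V → α → Bool)) := by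
        refine Nat.mul_le_mul_left _ (Finset.sum_le_sum fun U hU => ?_)
        have hk := (Finset.mem_powersetCard.1 hU).2
        rw [hm']
        exact nc_isClique_le hB hl (by omega) hg (by rw [← hm']; exact hm) φ hφ U (by rw [hk, hm'])
    _ = 2 * n.choose m * Fintype.card (Fin J → (TE g V → α → Bool)) := by
        rw [Finset.sum_const, Finset.card_powersetCard, Finset.card_univ, Fintype.card_fin,
          smul_eq_mul]
        ring
    _ ≤ 2 ^ (m * (L + 1)) * Fintype.card (Fin J → (TE g V → α → Bool)) := by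
        refine Nat.mul_le_mul_right _ ?_
        calc 2 * n.choose m ≤ 2 * n ^ m := Nat.mul_le_mul_left _ (Nat.choose_le_pow n m)
          _ ≤ 2 * (2 ^ L) ^ m := Nat.mul_le_mul_left _ (Nat.pow_le_pow_left hn m)
          _ = 2 ^ (L * m + 1) := by rw [← pow_mul, pow_succ, mul_comm]
          _ ≤ 2 ^ (m * (L + 1)) := by
            refine Nat.pow_le_pow_right (by norm_num) ?_
            have h5 : 1 ≤ m := by omega
            nlinarith
    _ = _ := mul_comm _ _

end Pool.Agent.H58.LM
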