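import Pool.Agent.H58.LM.Blk
import Pool.Agent.H58.LM.Cq

/-! Chains of graphs along which every step is detected. -/

set_option autoImplicit false
set_option linter.unusedSectionVars false

namespace Pool.Agent.H58.LM

open Finset
open Pool.Agent.H25.NM (nc nc_eq nc_congr nc_mono nc_le_card nc_false nc_true nc_bex_le nc_update
  pre pre_mono pre_succ pre_update)
open Pool.Agent.H58.LG (zz)

variable {V α : Type} [Fintype V] [DecidableEq V] [Fintype α] [DecidableEq α]
  {n n₀ s R u d g : ℕ}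

/-- the block lemma for embedded blocks -/
theorem block_map (B : Gr V) (hB : B.Good (90 * d)) (hV : 90 * d + 1 ≤ Fintype.card V)
    (hα : Fintype.card α = (2 ^ u) ^ 17) (hd : 8 ≤ d) (hg : 1 ≤ g)
    (hk : 1 + 2 * (g * Fintype.card V) ≤ 2 ^ u) (hpu : u * (7872 * d + 80) ≤ 2 ^ u)
    (hs : s ≤ (2 ^ u) ^ (10 * d)) (hR : R + 1 ≤ (2 ^ u) ^ (10 * d))
    (f : Fin s → SimpleGraph (Fin n) → ℝ) (hf : ∀ i, Plain R f i) (o : Fin s)
    (W : SimpleGraph (Fin n)) (e : Fin n₀ ↪ Fin n) (φ : BV g V α ↪ Fin n₀)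
    (G : SimpleGraph (Fin n₀)) (θ : ℝ)
    (hX : ∀ x, θ < f o (W ⊔ (G ⊔ (tq B x).map φ).map e)) :
    nc (fun y : TE g V → α → Bool => f o (W ⊔ (G ⊔ (mp B y).map φ).map e) ≤ θ) *
      (2 ^ u) ^ (20 * d) < Fintype.card (TE g V → α → Bool) := by
  classical
  by_contra hcon
  push Not at hcon
  refine block B hB hV hα hd hg hk hpu hs hR f hf
    (fun x => W ⊔ (G ⊔ (tq B x).map φ).map e) (fun y => W ⊔ (G ⊔ (mp B y).map φ).map e) ?_ o
    univ (univ.filter fun y => f o (W ⊔ (G ⊔ (mp B y).map φ).map e) ≤ θ) ?_ ?_ ?_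
  · intro x v w hvw
    rw [SimpleGraph.sup_adj] at hvw
    rcases hvw with hvw | hvw
    · exact ⟨∅, by simp, fun y hy => absurd (Or.inl hvw) hy⟩
    · rw [SimpleGraph.map_adj] at hvw
      obtain ⟨v', w', hvw', rfl, rfl⟩ := hvw
      rw [SimpleGraph.sup_adj] at hvw'
      rcases hvw' with hvw' | hvw'
      · refine ⟨∅, by simp, fun y hy => absurd (Or.inr ?_) hy⟩
        rw [SimpleGraph.map_adj]
        exact ⟨v', w', Or.inl hvw', rfl, rfl⟩
      · rw [SimpleGraph.map_adj] at hvw'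
        obtain ⟨a, b, hab, rfl, rfl⟩ := hvw'
        obtain ⟨J, hJ1, hJ2⟩ := edge_dead hB (by omega) (by omega) x hab
        refine ⟨J, hJ1, fun y hy => hJ2 y fun hadj => hy (Or.inr ?_)⟩
        rw [SimpleGraph.map_adj]
        refine ⟨φ a, φ b, Or.inr ?_, rfl, rfl⟩
        rw [SimpleGraph.map_adj]
        exact ⟨a, b, hadj, rfl, rfl⟩
  · intro x _ y hy
    exact lt_of_le_of_lt (Finset.mem_filter.mp hy).2 (hX x)
  · rw [Finset.card_univ]
    exact Nat.le_mul_of_pos_right _ (by positivity)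
  · rw [← nc_eq]
    exact hcon

/-- **Chain theorem.** -/
theorem chain (B : Gr V) (hB : B.Good (90 * d)) (hV : 90 * d + 1 ≤ Fintype.card V)
    (hα : Fintype.card α = (2 ^ u) ^ 17) (hd : 8 ≤ d) (hg : 1 ≤ g)
    (hk : 1 + 2 * (g * Fintype.card V) ≤ 2 ^ u) (hpu : u * (7872 * d + 80) ≤ 2 ^ u)
    (hs : s ≤ (2 ^ u) ^ (10 * d)) (hR : R + 1 ≤ (2 ^ u) ^ (10 * d))
    (W : SimpleGraph (Fin n)) (e : Fin n₀ ↪ Fin n) {J : ℕ}
    (φ : Fin J → BV g V α ↪ Fin n₀)
    (F : SimpleGraph (Fin n₀) → SimpleGraph (Fin n₀) → Prop)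
    (good : SimpleGraph (Fin n₀) → Prop) (hmono : ∀ x y, x ≤ y → good y → good x)
    (hF : ∀ G, good G → ∃ (f : Fin s → SimpleGraph (Fin n) → ℝ) (o : Fin s),
      (∀ i, Plain R f i) ∧ ∀ H, G ≤ H → f o (W ⊔ H.map e) = bit (F G H))
    (hgood : ∀ (j : Fin J) (x : TE g V → α) (G : SimpleGraph (Fin n₀)), good G →
      F G (G ⊔ (tq B x).map (φ j)))
    (hhalf : Fintype.card (Fin J → (TE g V → α → Bool)) ≤
      2 * nc (fun ω : Fin J → (TE g V → α → Bool) => good (pre φ (mp B) ω J)))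
    (hJ : 2 * J < (2 ^ u) ^ (20 * d)) :
    ∃ ω : Fin J → (TE g V → α → Bool), good (pre φ (mp B) ω J) ∧
      ∀ j : Fin J, F (pre φ (mp B) ω j.1) (pre φ (mp B) ω (j.1 + 1)) := by
  classical
  by_contra hcon
  push Not at hcon
  obtain ⟨K, hK⟩ : ∃ K, K = Fintype.card (Fin J → (TE g V → α → Bool)) := ⟨_, rfl⟩
  obtain ⟨Ω, hΩ⟩ : ∃ Ω, Ω = Fintype.card (TE g V → α → Bool) := ⟨_, rfl⟩
  obtain ⟨Z, hZ⟩ : ∃ Z, Z = (2 ^ u) ^ (20 * d) := ⟨_, rfl⟩
  have hK0 : 0 < K := by
    rw [hK]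
    have : Nonempty (Fin J → (TE g V → α → Bool)) := ⟨fun _ _ _ => true⟩
    exact Fintype.card_pos
  have hΩ0 : 0 < Ω := by
    rw [hΩ]
    have : Nonempty (TE g V → α → Bool) := ⟨fun _ _ => true⟩
    exact Fintype.card_pos
  rw [← hK] at hhalf
  rw [← hZ] at hJ
  -- one block
  have hone : ∀ (j : Fin J) (G : SimpleGraph (Fin n₀)), good G →
      Z * nc (fun y : TE g V → α → Bool => ¬ F G (G ⊔ (mp B y).map (φ j))) ≤ Ω := by
    intro j G hG
    obtain ⟨f, o, hf, hfF⟩ := hF G hG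
    have h1 := block_map B hB hV hα hd hg hk hpu hs hR f hf o W e (φ j) G 0 (by
      intro x
      rw [hfF _ le_sup_left, bit_true (hgood j x G hG)]
      exact one_pos)
    have h2 : ∀ y : TE g V → α → Bool,
        f o (W ⊔ (G ⊔ (mp B y).map (φ j)).map e) ≤ 0 ↔ ¬ F G (G ⊔ (mp B y).map (φ j)) := by
      intro y
      rw [hfF _ le_sup_left]
      constructor
      · intro h h'
        rw [bit_true h'] at h
        linarith
      · intro h
        rw [bit_false h]
    rw [← hZ, ← hΩ, nc_congr h2, mul_comm] at h1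
    exact h1.le
  -- one step
  have hstep : ∀ j : Fin J, Z * nc (fun ω : Fin J → (TE g V → α → Bool) =>
      good (pre φ (mp B) ω J) ∧ ¬ F (pre φ (mp B) ω j.1) (pre φ (mp B) ω (j.1 + 1))) ≤ K := by
    intro j
    have h1 := nc_update j fun ω : Fin J → (TE g V → α → Bool) =>
      good (pre φ (mp B) ω J) ∧ ¬ F (pre φ (mp B) ω j.1) (pre φ (mp B) ω (j.1 + 1))
    rw [← hΩ] at h1
    refine Nat.le_of_mul_le_mul_left ?_ hΩ0
    calc Ω * (Z * nc (fun ω : Fin J → (TE g V → α → Bool) => good (pre φ (mp B) ω J) ∧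
          ¬ F (pre φ (mp B) ω j.1) (pre φ (mp B) ω (j.1 + 1))))
        = Z * (Ω * nc (fun ω : Fin J → (TE g V → α → Bool) => good (pre φ (mp B) ω J) ∧
          ¬ F (pre φ (mp B) ω j.1) (pre φ (mp B) ω (j.1 + 1)))) := by ring
      _ = ∑ ω : Fin J → (TE g V → α → Bool),
          Z * nc (fun y : TE g V → α → Bool =>
          good (pre φ (mp B) (Function.update ω j y) J) ∧
          ¬ F (pre φ (mp B) (Function.update ω j y) j.1)
            (pre φ (mp B) (Function.update ω j y) (j.1 + 1))) := by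
          rw [h1, Finset.mul_sum]
      _ ≤ ∑ ω : Fin J → (TE g V → α → Bool), Ω := by
          refine Finset.sum_le_sum fun ω _ => ?_
          by_cases hG : good (pre φ (mp B) ω j.1)
          · refine le_trans (Nat.mul_le_mul_left _ (nc_mono fun y hy => ?_))
              (hone j (pre φ (mp B) ω j.1) hG)
            obtain ⟨-, hy⟩ := hy
            rw [pre_succ, pre_update, Function.update_self] at hy
            exact hy
          · rw [nc_false, mul_zero]
            · exact Nat.zero_le _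
            · intro y hy
              refine hG ?_
              have h2 := hmono _ _ (pre_mono (φ := φ) (R := mp B) (Function.update ω j y)
                (le_of_lt j.2)) hy.1
              rwa [pre_update] at h2
      _ = Ω * K := by
          rw [Finset.sum_const, Finset.card_univ, smul_eq_mul, ← hK, mul_comm]
  -- all steps
  have hall : nc (fun ω : Fin J → (TE g V → α → Bool) => good (pre φ (mp B) ω J)) ≤
      ∑ j : Fin J, nc (fun ω : Fin J → (TE g V → α → Bool) =>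
        good (pre φ (mp B) ω J) ∧ ¬ F (pre φ (mp B) ω j.1) (pre φ (mp B) ω (j.1 + 1))) := by
    refine le_trans (nc_mono fun ω hω => ?_) (nc_bex_le _ _)
    obtain ⟨j, hj⟩ := hcon ω hω
    exact ⟨j, Finset.mem_univ _, hω, hj⟩
  have h1 : Z * K ≤ 2 * J * K := by
    calc Z * K ≤ Z * (2 * nc (fun ω : Fin J → (TE g V → α → Bool) =>
            good (pre φ (mp B) ω J))) := Nat.mul_le_mul_left _ hhalf
      _ ≤ Z * (2 * ∑ j : Fin J, nc (fun ω : Fin J → (TE g V → α → Bool) =>
          good (pre φ (mp B) ω J) ∧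
          ¬ F (pre φ (mp B) ω j.1) (pre φ (mp B) ω (j.1 + 1)))) := by gcongr
      _ = 2 * ∑ j : Fin J, Z * nc (fun ω : Fin J → (TE g V → α → Bool) =>
          good (pre φ (mp B) ω J) ∧
          ¬ F (pre φ (mp B) ω j.1) (pre φ (mp B) ω (j.1 + 1))) := by
          rw [← Finset.mul_sum]
          ring
      _ ≤ 2 * ∑ _j : Fin J, K := by
          gcongr with j
          exact hstep j
      _ = 2 * J * K := by
          rw [Finset.sum_const, Finset.card_univ, Fintype.card_fin, smul_eq_mul]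
          ring
  have h2 := Nat.le_of_mul_le_mul_right h1 hK0
  omega

end Pool.Agent.H58.LM
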