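import Mathlib

/-! Prices which flatten finitely many functions. -/

set_option autoImplicit false
set_option linter.unusedSectionVars false

namespace Pool.Agent.H58.LM

open Finset

variable {Ω K : Type*} [Fintype Ω] [DecidableEq Ω] [Fintype K] [DecidableEq K]

/-- The auction: there are prices such that every bidder has many nearly optimal objects. -/
theorem auction (s : Finset K) (Z : K → Finset Ω) (B : K → Ω → ℝ)
    (hB : ∀ k ∈ s, ∀ y ∈ Z k, 0 < B k y) (m : ℕ) (hm : ∀ k ∈ s, s.card * m < (Z k).card) :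
    ∃ ψ : Ω → ℕ, ∀ k ∈ s, ∃ Z' ⊆ Z k, m ≤ Z'.card ∧ ∀ y ∈ Z', ∀ y' ∈ Z k,
      B k y' * (1 / 2) ^ ψ y' ≤ 2 * (B k y * (1 / 2) ^ ψ y) := by
  classical
  obtain ⟨Inv, hInv⟩ : ∃ Inv : (Ω → ℕ) → (Ω → Option K) → Prop, ∀ ψ o, Inv ψ o ↔
      (∀ y, o y = none → ψ y = 0) ∧
      (∀ y k, o y = some k → k ∈ s ∧ y ∈ Z k ∧ ∀ y' ∈ Z k,
        B k y' * (1 / 2) ^ ψ y' ≤ 2 * (B k y * (1 / 2) ^ ψ y)) ∧
      ∀ k, (univ.filter fun y => o y = some k).card ≤ m := ⟨_, fun _ _ => Iff.rfl⟩
  by_contra hcon
  push Not at hcon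
  -- every state can be improved
  have hstep : ∀ ψ o, Inv ψ o → ∃ ψ' o', Inv ψ' o' ∧ ∑ y, ψ' y = ∑ y, ψ y + 1 := by
    intro ψ o hI
    rw [hInv] at hI
    obtain ⟨h1, h2, h3⟩ := hI
    obtain ⟨k, hk, hkZ⟩ := hcon ψ
    have hlt : (univ.filter fun y => o y = some k).card < m := by
      by_contra hge
      push Not at hge
      obtain ⟨y, hy, y', hy', hlt⟩ := hkZ (univ.filter fun y => o y = some k)
        (fun y hy => (h2 y k (Finset.mem_filter.mp hy).2).2.1) hge
      exact absurd ((h2 y k (Finset.mem_filter.mp hy).2).2.2 y' hy') (not_le.mpr hlt)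
    have hZne : (Z k).Nonempty := by
      rw [← Finset.card_pos]
      exact lt_of_le_of_lt (Nat.zero_le _) (hm k hk)
    obtain ⟨y0, hy0, hmax⟩ := Finset.exists_max_image (Z k) (fun y => B k y * (1 / 2) ^ ψ y) hZne
    have hle : ∀ k' ∈ s, ∀ y' ∈ Z k', B k' y' * (1 / 2 : ℝ) ^ (Function.update ψ y0 (ψ y0 + 1)) y' ≤
        B k' y' * (1 / 2) ^ ψ y' := by
      intro k' hk' y' hy'
      refine mul_le_mul_of_nonneg_left ?_ (hB k' hk' y' hy').le
      refine pow_le_pow_of_le_one (by norm_num) (by norm_num) ?_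
      by_cases h : y' = y0
      · rw [h, Function.update_self]
        omega
      · rw [Function.update_of_ne h]
    refine ⟨Function.update ψ y0 (ψ y0 + 1), Function.update o y0 (some k), ?_, ?_⟩
    · rw [hInv]
      refine ⟨fun y hy => ?_, fun y k' hy => ?_, fun k' => ?_⟩
      · by_cases h : y = y0
        · rw [h, Function.update_self] at hy
          exact absurd hy (by simp)
        · rw [Function.update_of_ne h] at hy ⊢
          exact h1 y hy
      · by_cases h : y = y0
        · subst h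
          rw [Function.update_self] at hy
          have hkk : k = k' := by simpa using hy
          subst hkk
          refine ⟨hk, hy0, fun y' hy' => ?_⟩
          refine (hle k hk y' hy').trans ((hmax y' hy').trans (le_of_eq ?_))
          rw [Function.update_self, pow_succ]
          ring
        · rw [Function.update_of_ne h] at hy
          obtain ⟨h4, h5, h6⟩ := h2 y k' hy
          refine ⟨h4, h5, fun y' hy' => ?_⟩
          rw [Function.update_of_ne h]
          exact (hle k' h4 y' hy').trans (h6 y' hy')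
      · by_cases h : k' = k
        · subst h
          have hsub : (univ.filter fun y => Function.update o y0 (some k') y = some k') ⊆
              insert y0 (univ.filter fun y => o y = some k') := by
            intro y hy
            by_cases hyy : y = y0
            · rw [hyy]
              exact Finset.mem_insert_self _ _
            · refine Finset.mem_insert_of_mem (Finset.mem_filter.mpr ⟨Finset.mem_univ _, ?_⟩)
              have := (Finset.mem_filter.mp hy).2
              rwa [Function.update_of_ne hyy] at this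
          refine (Finset.card_le_card hsub).trans ((Finset.card_insert_le _ _).trans ?_)
          omega
        · refine le_trans (Finset.card_le_card fun y hy => ?_) (h3 k')
          refine Finset.mem_filter.mpr ⟨Finset.mem_univ _, ?_⟩
          have h4 := (Finset.mem_filter.mp hy).2
          by_cases hyy : y = y0
          · rw [hyy, Function.update_self] at h4
            exact absurd (by simpa using h4.symm) h
          · rwa [Function.update_of_ne hyy] at h4
    · have h4 : ∑ y, Function.update ψ y0 (ψ y0 + 1) y = (ψ y0 + 1) + ∑ y ∈ univ \ {y0}, ψ y :=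
        Finset.sum_update_of_mem (Finset.mem_univ y0) ψ (ψ y0 + 1)
      have h5 : ∑ y, ψ y = ψ y0 + ∑ y ∈ univ \ {y0}, ψ y := by
        have := Finset.sum_update_of_mem (Finset.mem_univ y0) ψ (ψ y0)
        rwa [Function.update_eq_self] at this
      omega
  -- the initial state
  have hinit : Inv (fun _ => 0) (fun _ => none) := by
    rw [hInv]
    refine ⟨fun _ _ => rfl, fun y k h => absurd h (by simp), fun k => ?_⟩
    simp
  have hall : ∀ n : ℕ, ∃ ψ o, Inv ψ o ∧ ∑ y, ψ y = n := by
    intro n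
    induction n with
    | zero => exact ⟨_, _, hinit, by simp⟩
    | succ n ih =>
      obtain ⟨ψ, o, hI, hs⟩ := ih
      obtain ⟨ψ', o', hI', hs'⟩ := hstep ψ o hI
      exact ⟨ψ', o', hI', by omega⟩
  -- the bound
  obtain ⟨N, hN⟩ : ∃ N : ℕ, ∀ k ∈ s, ∀ y ∈ Z k, ∀ y' ∈ Z k, 2 * B k y < 2 ^ N * B k y' := by
    have h1 : ∀ q : K × Ω × Ω, ∃ N : ℕ, q.1 ∈ s → q.2.1 ∈ Z q.1 → q.2.2 ∈ Z q.1 →
        2 * B q.1 q.2.1 < 2 ^ N * B q.1 q.2.2 := by
      intro q
      by_cases h : q.1 ∈ s ∧ q.2.2 ∈ Z q.1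
      · have h2 := hB q.1 h.1 q.2.2 h.2
        obtain ⟨N, hN⟩ := pow_unbounded_of_one_lt (2 * B q.1 q.2.1 / B q.1 q.2.2)
          (by norm_num : (1 : ℝ) < 2)
        refine ⟨N, fun _ _ _ => ?_⟩
        rwa [div_lt_iff₀ h2] at hN
      · exact ⟨0, fun h1 _ h3 => absurd ⟨h1, h3⟩ h⟩
    choose f hf using h1
    refine ⟨∑ q, f q, fun k hk y hy y' hy' => ?_⟩
    have h2 := hf (k, y, y') hk hy hy'
    have h3 : f (k, y, y') ≤ ∑ q, f q :=
      Finset.single_le_sum (f := f) (fun _ _ => Nat.zero_le _) (Finset.mem_univ _)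
    refine h2.trans_le (mul_le_mul_of_nonneg_right (pow_le_pow_right₀ (by norm_num) h3)
      (hB k hk y' hy').le)
  have hbd : ∀ ψ o, Inv ψ o → ∀ y, ψ y ≤ N := by
    intro ψ o hI y
    rw [hInv] at hI
    obtain ⟨h1, h2, h3⟩ := hI
    rcases ho : o y with _ | k
    · rw [h1 y ho]
      exact Nat.zero_le _
    · obtain ⟨hk, hyZ, hopt⟩ := h2 y k ho
      -- an object without owner
      obtain ⟨y', hy', ho'⟩ : ∃ y' ∈ Z k, o y' = none := by
        by_contra hcon2
        push Not at hcon2
        have hsub : Z k ⊆ s.biUnion fun k' => univ.filter fun y => o y = some k' := by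
          intro y' hy'
          rcases ho' : o y' with _ | k'
          · exact absurd ho' (hcon2 y' hy')
          · exact Finset.mem_biUnion.mpr ⟨k', (h2 y' k' ho').1,
              Finset.mem_filter.mpr ⟨Finset.mem_univ _, ho'⟩⟩
        have h4 := (Finset.card_le_card hsub).trans (Finset.card_biUnion_le_card_mul s _ m
          fun k' _ => h3 k')
        have h5 := hm k hk
        omega
      have h4 := hopt y' hy'
      rw [h1 y' ho', pow_zero, mul_one] at h4
      by_contra hlt
      push Not at hlt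
      have h5 := hN k hk y hyZ y' hy'
      have h6 : (1 / 2 : ℝ) ^ ψ y ≤ (1 / 2) ^ N :=
        pow_le_pow_of_le_one (by norm_num) (by norm_num) hlt.le
      have h7 : B k y' ≤ 2 * (B k y * (1 / 2) ^ N) :=
        h4.trans (mul_le_mul_of_nonneg_left (mul_le_mul_of_nonneg_left h6 (hB k hk y hyZ).le)
          (by norm_num))
      have h8 : (2 : ℝ) ^ N * (1 / 2) ^ N = 1 := by
        rw [← mul_pow]
        norm_num
      have h9 : 2 ^ N * B k y' ≤ 2 ^ N * (2 * (B k y * (1 / 2) ^ N)) :=
        mul_le_mul_of_nonneg_left h7 (by positivity)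
      have h10 : (2 : ℝ) ^ N * (2 * (B k y * (1 / 2) ^ N)) = 2 * B k y := by
        calc (2 : ℝ) ^ N * (2 * (B k y * (1 / 2) ^ N)) = 2 * B k y * (2 ^ N * (1 / 2) ^ N) := by
              ring
          _ = _ := by rw [h8, mul_one]
      linarith
  obtain ⟨ψ, o, hI, hs⟩ := hall (Fintype.card Ω * N + 1)
  have h1 : ∑ y, ψ y ≤ Fintype.card Ω * N := by
    refine (Finset.sum_le_sum fun y _ => hbd ψ o hI y).trans (le_of_eq ?_)
    rw [Finset.sum_const, Finset.card_univ, smul_eq_mul]
  omega

/-- **Flattening.** -/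
theorem flat (Y0 : Finset Ω) (B : K → Ω → ℝ) (m : ℕ)
    (hm : 2 * (Fintype.card K * (Fintype.card K * m)) ≤ Y0.card) :
    ∃ (Y1 : Finset Ω) (ω : Ω → ℝ) (lam : K → ℝ), Y1 ⊆ Y0 ∧ Y0.card ≤ 2 * Y1.card ∧
      (∀ y, 0 < ω y) ∧ (∀ k, 0 ≤ lam k) ∧ (∀ k, ∀ y ∈ Y1, B k y * ω y ≤ lam k) ∧
      ∀ k, 0 < lam k → m ≤ (Y1.filter fun y => lam k ≤ 2 * (B k y * ω y)).card := by
  classical
  obtain ⟨c, hc⟩ : ∃ c, c = Fintype.card K * m := ⟨_, rfl⟩
  rw [← hc] at hm
  obtain ⟨supp, hsupp⟩ : ∃ supp : K → Finset Ω, ∀ k, supp k = Y0.filter fun y => 0 < B k y :=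
    ⟨_, fun _ => rfl⟩
  obtain ⟨T, hT, hTmax⟩ := Finset.exists_max_image
    ((univ : Finset K).powerset.filter fun T => (T.biUnion supp).card ≤ T.card * c) Finset.card
    ⟨∅, by simp⟩
  obtain ⟨-, hT⟩ := Finset.mem_filter.mp hT
  obtain ⟨Y1, hY1⟩ : ∃ Y1, Y1 = Y0 \ T.biUnion supp := ⟨_, rfl⟩
  have hcard : Y0.card ≤ 2 * Y1.card := by
    have h1 : Y0.card ≤ Y1.card + (T.biUnion supp).card := by
      rw [hY1]
      exact Finset.card_le_card_sdiff_add_card
    have h2 : T.card * c ≤ Fintype.card K * c := Nat.mul_le_mul_right _ (Finset.card_le_univ T)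
    omega
  obtain ⟨Z, hZ⟩ : ∃ Z : K → Finset Ω, ∀ k, Z k = Y1.filter fun y => 0 < B k y :=
    ⟨_, fun _ => rfl⟩
  obtain ⟨s, hs⟩ : ∃ s : Finset K, s = univ \ T := ⟨_, rfl⟩
  have hbig : ∀ k ∈ s, s.card * m < (Z k).card := by
    intro k hk
    have hkT : k ∉ T := by
      rw [hs] at hk
      exact (Finset.mem_sdiff.mp hk).2
    have h1 : c < (Z k).card := by
      by_contra hcon
      push Not at hcon
      have h2 := hTmax (insert k T) (by
        rw [Finset.mem_filter]
        refine ⟨Finset.mem_powerset.mpr (Finset.subset_univ _), ?_⟩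
        rw [Finset.biUnion_insert, Finset.card_insert_of_notMem hkT]
        have h3 : supp k ∪ T.biUnion supp ⊆ Z k ∪ T.biUnion supp := by
          intro y hy
          rcases Finset.mem_union.mp hy with h | h
          · by_cases h' : y ∈ T.biUnion supp
            · exact Finset.mem_union_right _ h'
            · refine Finset.mem_union_left _ ?_
              rw [hsupp] at h
              obtain ⟨h4, h5⟩ := Finset.mem_filter.mp h
              rw [hZ, hY1]
              exact Finset.mem_filter.mpr ⟨Finset.mem_sdiff.mpr ⟨h4, h'⟩, h5⟩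
          · exact Finset.mem_union_right _ h
        have h4 := (Finset.card_le_card h3).trans (Finset.card_union_le _ _)
        have h5 : (T.card + 1) * c = T.card * c + c := by ring
        omega)
      rw [Finset.card_insert_of_notMem hkT] at h2
      omega
    have h2 : s.card * m ≤ c := by
      rw [hc]
      exact Nat.mul_le_mul_right _ (Finset.card_le_univ s)
    omega
  obtain ⟨ψ, hψ⟩ := auction s Z B (fun k _ y hy => by
    rw [hZ] at hy
    exact (Finset.mem_filter.mp hy).2) m hbig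
  obtain ⟨ω, hω⟩ : ∃ ω : Ω → ℝ, ∀ y, ω y = (1 / 2) ^ ψ y := ⟨_, fun _ => rfl⟩
  have hω0 : ∀ y, 0 < ω y := fun y => by rw [hω]; positivity
  have hlam : ∀ k, ∃ l : ℝ, 0 ≤ l ∧ (∀ y ∈ Y1, B k y * ω y ≤ l) ∧
      (0 < l → m ≤ (Y1.filter fun y => l ≤ 2 * (B k y * ω y)).card) := by
    intro k
    by_cases hk : k ∈ s
    · have hZne : (Z k).Nonempty := by
        rw [← Finset.card_pos]
        exact lt_of_le_of_lt (Nat.zero_le _) (hbig k hk)
      obtain ⟨y0, hy0, hmax⟩ := Finset.exists_max_image (Z k) (fun y => B k y * ω y) hZne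
      have hpos : 0 < B k y0 := by
        rw [hZ] at hy0
        exact (Finset.mem_filter.mp hy0).2
      refine ⟨B k y0 * ω y0, (mul_pos hpos (hω0 _)).le, fun y hy => ?_, fun _ => ?_⟩
      · by_cases h : 0 < B k y
        · exact hmax y (by rw [hZ]; exact Finset.mem_filter.mpr ⟨hy, h⟩)
        · push Not at h
          exact (mul_nonpos_of_nonpos_of_nonneg h (hω0 y).le).trans (mul_pos hpos (hω0 _)).le
      · obtain ⟨Z', hZ', hmZ, hopt⟩ := hψ k hk
        refine hmZ.trans (Finset.card_le_card fun y hy => ?_)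
        have h1 := hZ' hy
        rw [hZ] at h1
        refine Finset.mem_filter.mpr ⟨(Finset.mem_filter.mp h1).1, ?_⟩
        rw [hω, hω]
        exact hopt y hy y0 hy0
    · refine ⟨0, le_rfl, fun y hy => ?_, fun h => absurd h (lt_irrefl _)⟩
      have hkT : k ∈ T := by
        by_contra h
        exact hk (by rw [hs]; exact Finset.mem_sdiff.mpr ⟨Finset.mem_univ _, h⟩)
      rw [hY1] at hy
      obtain ⟨h1, h2⟩ := Finset.mem_sdiff.mp hy
      have h3 : ¬ 0 < B k y := by
        intro h
        refine h2 (Finset.mem_biUnion.mpr ⟨k, hkT, ?_⟩)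
        rw [hsupp]
        exact Finset.mem_filter.mpr ⟨h1, h⟩
      push Not at h3
      exact mul_nonpos_of_nonpos_of_nonneg h3 (hω0 y).le
  choose lam h1 h2 h3 using hlam
  exact ⟨Y1, ω, lam, by rw [hY1]; exact Finset.sdiff_subset, hcard, hω0, h1, h2, h3⟩

end Pool.Agent.H58.LM
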