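import Pool.Agent.H58.LM.Ker

/-! Products which live at dead restrictions have low rank against the kernel. -/

set_option autoImplicit false
set_option linter.unusedSectionVars false

namespace Pool.Agent.H58.LM

open Finset
open Pool.Agent.H58.LG (zz Pure agr mem_agr Spread slice sum_small)

section gen

variable {X Y : Type*} [Fintype X] [Fintype Y]

/-- an orthonormal basis of a space of functions -/
theorem exists_onb (V : Submodule ℝ (X → ℝ)) :
    ∃ b : Fin (Module.finrank ℝ V) → X → ℝ, (∀ k, ∑ x, b k x ^ 2 = 1) ∧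
      ∀ w ∈ V, (∀ x, w x = ∑ k, (∑ x', b k x' * w x') * b k x) ∧
        ∑ k, (∑ x, b k x * w x) ^ 2 = ∑ x, w x ^ 2 := by
  classical
  let e : (X → ℝ) ≃ₗ[ℝ] EuclideanSpace ℝ X := (WithLp.linearEquiv 2 ℝ (X → ℝ)).symm
  let V' : Submodule ℝ (EuclideanSpace ℝ X) := V.map e.toLinearMap
  have hr : Module.finrank ℝ V' = Module.finrank ℝ V := LinearEquiv.finrank_map_eq e V
  let b := (stdOrthonormalBasis ℝ V').reindex (finCongr hr)
  have hin : ∀ u v : EuclideanSpace ℝ X, inner ℝ u v = ∑ x, u x * v x := by
    intro u v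
    rw [PiLp.inner_apply]
    refine Finset.sum_congr rfl fun x _ => ?_
    rw [RCLike.inner_apply, conj_trivial, mul_comm]
  refine ⟨fun k x => (b k : EuclideanSpace ℝ X) x, fun k => ?_, fun w hw => ?_⟩
  · have h1 : ‖b k‖ = 1 := b.orthonormal.1 k
    have h2 : inner ℝ (b k) (b k) = (1 : ℝ) := by
      rw [real_inner_self_eq_norm_sq, h1, one_pow]
    rw [Submodule.coe_inner, hin] at h2
    rw [← h2]
    exact Finset.sum_congr rfl fun x _ => sq _
  · have hw' : e w ∈ V' := Submodule.mem_map_of_mem hw
    have hk : ∀ k, inner ℝ (b k) (⟨e w, hw'⟩ : V') =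
        ∑ x, (b k : EuclideanSpace ℝ X) x * w x := by
      intro k
      rw [Submodule.coe_inner, hin]
      rfl
    constructor
    · intro x
      have h1 := b.sum_repr' (⟨e w, hw'⟩ : V')
      have h2 := congrArg (fun v : V' => (v : EuclideanSpace ℝ X) x) h1
      simp only [hk] at h2
      have h3 : ((⟨e w, hw'⟩ : V') : EuclideanSpace ℝ X) x = w x := rfl
      rw [h3] at h2
      rw [← h2]
      have h4 : ∀ (c : Fin (Module.finrank ℝ V) → ℝ),
          ((∑ k, c k • b k : V') : EuclideanSpace ℝ X) x =
            ∑ k, c k * (b k : EuclideanSpace ℝ X) x := by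
        intro c
        rw [Submodule.coe_sum]
        have : (∑ k, ((c k • b k : V') : EuclideanSpace ℝ X)) x =
            ∑ k, ((c k • b k : V') : EuclideanSpace ℝ X) x := by
          simp
        rw [this]
        rfl
      rw [h4]
    · have h1 := b.sum_sq_norm_inner_right (⟨e w, hw'⟩ : V')
      simp only [hk] at h1
      have h2 : ‖(⟨e w, hw'⟩ : V')‖ ^ 2 = ∑ x, w x ^ 2 := by
        rw [← real_inner_self_eq_norm_sq, Submodule.coe_inner, hin]
        exact Finset.sum_congr rfl fun x _ => (sq _).symm
      rw [h2] at h1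
      rw [← h1]
      exact Finset.sum_congr rfl fun k _ => by rw [Real.norm_eq_abs, sq_abs]

/-- The rank bound. -/
theorem rank_gen (v m : Y → X → ℝ) {Q : ℝ}
    (hv : ∀ u : X → ℝ, ∑ y, (∑ x, v y x * u x) ^ 2 = Q * ∑ x, u x ^ 2)
    (B : Finset (X → ℝ)) (hm : ∀ y, m y ∈ Submodule.span ℝ (B : Set (X → ℝ))) (hQ : 0 ≤ Q) :
    (∑ y, ∑ x, v y x * m y x) ^ 2 ≤ Q * B.card * ∑ y, ∑ x, m y x ^ 2 := by
  classical
  obtain ⟨b, hb1, hb2⟩ := exists_onb (Submodule.span ℝ (B : Set (X → ℝ)))
  have hr : Module.finrank ℝ (Submodule.span ℝ (B : Set (X → ℝ))) ≤ B.card :=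
    finrank_span_finset_le_card B
  have h1 : ∑ y, ∑ x, v y x * m y x =
      ∑ y, ∑ k, (∑ x, b k x * m y x) * (∑ x, v y x * b k x) := by
    refine Finset.sum_congr rfl fun y _ => ?_
    have e1 : ∀ x, v y x * m y x = ∑ k, (∑ x', b k x' * m y x') * (v y x * b k x) := by
      intro x
      conv_lhs => rw [(hb2 (m y) (hm y)).1 x]
      rw [Finset.mul_sum]
      exact Finset.sum_congr rfl fun k _ => by ring
    rw [Finset.sum_congr rfl fun x _ => e1 x, Finset.sum_comm]
    refine Finset.sum_congr rfl fun k _ => ?_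
    rw [Finset.mul_sum]
  rw [h1, ← Fintype.sum_prod_type' (f := fun y k => (∑ x, b k x * m y x) * (∑ x, v y x * b k x))]
  refine (Finset.sum_mul_sq_le_sq_mul_sq _ _ _).trans ?_
  have h2 : ∑ q : Y × Fin (Module.finrank ℝ (Submodule.span ℝ (B : Set (X → ℝ)))),
      (∑ x, b q.2 x * m q.1 x) ^ 2 = ∑ y, ∑ x, m y x ^ 2 := by
    rw [Fintype.sum_prod_type]
    exact Finset.sum_congr rfl fun y _ => (hb2 (m y) (hm y)).2
  have h3 : ∑ q : Y × Fin (Module.finrank ℝ (Submodule.span ℝ (B : Set (X → ℝ)))),
      (∑ x, v q.1 x * b q.2 x) ^ 2 ≤ Q * B.card := by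
    rw [Fintype.sum_prod_type, Finset.sum_comm]
    simp only [hv, hb1, mul_one]
    rw [Finset.sum_const, Finset.card_univ, Fintype.card_fin, nsmul_eq_mul, mul_comm]
    exact mul_le_mul_of_nonneg_left (by exact_mod_cast hr) hQ
  rw [h2, mul_comm]
  exact mul_le_mul_of_nonneg_right h3
    (Finset.sum_nonneg fun y _ => Finset.sum_nonneg fun x _ => sq_nonneg _)

end gen

variable {ι α : Type*} [Fintype ι] [DecidableEq ι] [Fintype α] [DecidableEq α] {D : ℕ}

theorem sg_not (b : Bool) : sg (!b) = - sg b := by
  cases b <;> simp [sg]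

/-- the rows of the character matrix are orthogonal -/
theorem row_orth (x x' : ι → α) (hne : x ≠ x') :
    ∑ y : ι → α → Bool, chi univ (zz x y) * chi univ (zz x' y) = 0 := by
  classical
  obtain ⟨i, hi⟩ : ∃ i, x i ≠ x' i := by
    by_contra hcon
    push Not at hcon
    exact hne (funext hcon)
  obtain ⟨σ, hσ⟩ : ∃ σ : (ι → α → Bool) → ι → α → Bool, ∀ y, σ y =
    Function.update y i (Function.update (y i) (x i) (!(y i (x i)))) := ⟨_, fun _ => rfl⟩
  have hσσ : ∀ y, σ (σ y) = y := by
    intro y
    rw [hσ, hσ]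
    funext j
    by_cases hj : j = i
    · subst hj
      simp
    · simp [Function.update_of_ne hj]
  have h1 : ∀ y, chi univ (zz x (σ y)) = - chi univ (zz x y) := by
    intro y
    unfold chi
    rw [← Finset.mul_prod_erase univ _ (Finset.mem_univ i),
      ← Finset.mul_prod_erase univ (fun j => sg (zz x y j)) (Finset.mem_univ i), ← neg_mul]
    congr 1
    · unfold zz
      rw [hσ]
      simp [sg_not]
    · refine Finset.prod_congr rfl fun j hj => ?_
      unfold zz
      rw [hσ, Function.update_of_ne (Finset.ne_of_mem_erase hj)]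
  have h2 : ∀ y, chi univ (zz x' (σ y)) = chi univ (zz x' y) := by
    intro y
    refine chi_congr fun j _ => ?_
    unfold zz
    rw [hσ]
    by_cases hj : j = i
    · subst hj
      simp [Function.update_of_ne (Ne.symm hi)]
    · rw [Function.update_of_ne hj]
  have h3 : ∑ y : ι → α → Bool, chi univ (zz x y) * chi univ (zz x' y) =
      ∑ y : ι → α → Bool, -(chi univ (zz x y) * chi univ (zz x' y)) := by
    refine Finset.sum_nbij' σ σ (fun _ _ => Finset.mem_univ _) (fun _ _ => Finset.mem_univ _)
      (fun y _ => hσσ y) (fun y _ => hσσ y) fun y _ => ?_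
    rw [h1, h2]
    ring
  rw [Finset.sum_neg_distrib] at h3
  linarith

theorem row_sq (u : (ι → α) → ℝ) :
    ∑ y : ι → α → Bool, (∑ x, chi univ (zz x y) * u x) ^ 2 =
      Fintype.card (ι → α → Bool) * ∑ x, u x ^ 2 := by
  classical
  have h1 : ∀ y : ι → α → Bool, (∑ x, chi univ (zz x y) * u x) ^ 2 =
      ∑ x, ∑ x', u x * u x' * (chi univ (zz x y) * chi univ (zz x' y)) := by
    intro y
    rw [sq, Finset.sum_mul_sum]
    exact Finset.sum_congr rfl fun x _ => Finset.sum_congr rfl fun x' _ => by ring
  rw [Finset.sum_congr rfl fun y _ => h1 y, Finset.sum_comm]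
  rw [Finset.mul_sum]
  refine Finset.sum_congr rfl fun x _ => ?_
  rw [Finset.sum_comm]
  rw [Finset.sum_eq_single x]
  · rw [← Finset.mul_sum]
    simp only [chi_mul_self, Finset.sum_const, Finset.card_univ, nsmul_eq_mul, mul_one]
    ring
  · intro x' _ hx'
    rw [← Finset.mul_sum, row_orth x x' (Ne.symm hx'), mul_zero]
  · intro h
    exact absurd (Finset.mem_univ x) h

/-- the number of slices -/
theorem card_slice (W : Finset ι) (a : ι → α) : (slice W a).card = Fintype.card α ^ W.card := by
  classical
  have h1 : slice W a = Fintype.piFinset fun i => if i ∈ W then (univ : Finset α) else {a i} := by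
    ext x
    rw [Pool.Agent.H58.LG.mem_slice, Fintype.mem_piFinset]
    refine forall_congr' fun i => ?_
    by_cases hi : i ∈ W
    · simp [hi]
    · simp [hi]
  rw [h1, Fintype.card_piFinset]
  have h2 : ∀ i : ι, (if i ∈ W then (univ : Finset α) else {a i}).card =
      if i ∈ W then Fintype.card α else 1 := by
    intro i
    split_ifs
    · exact Finset.card_univ
    · simp
  rw [Finset.prod_congr rfl fun i _ => h2 i, Finset.prod_ite_mem, Finset.univ_inter,
    Finset.prod_const]

/-- **The rank bound for dead products.** -/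
theorem dead_rank (A : Sys ι D) {R : Type*} [Fintype R] (J : R → Finset ι) (a : R → ι → α)
    (hJ : ∀ r, (J r).card ≤ D) (f : R → (ι → α) → ℝ) (g : R → (ι → α → Bool) → ℝ)
    (hf : ∀ r x, f r x ≠ 0 → ∀ i ∈ J r, x i = a r i)
    (hg : ∀ r y, g r y ≠ 0 → ¬ Live A (J r) (zz (a r) y)) {H : ℝ}
    (hH : ∑ y, ∑ x, (∑ r, f r x * g r y) ^ 2 ≤ H) :
    (∑ r, Lam A (f r) (g r)) ^ 2 ≤
      Fintype.card (ι → α → Bool) * (Fintype.card R * ((1 + Fintype.card ι) ^ D *
        (Fintype.card α : ℝ) ^ (Fintype.card ι - (D + 1)))) * (((1 + Fintype.card ι) ^ D) ^ 2 * H) := by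
  classical
  obtain ⟨Z, hZ⟩ : ∃ Z : ℝ, Z = (1 + Fintype.card ι) ^ D := ⟨_, rfl⟩
  have hZ0 : 0 ≤ Z := by rw [hZ]; positivity
  rw [← hZ]
  -- the high sets
  obtain ⟨T, hT⟩ : ∃ T : R → Finset (Finset ι), ∀ r, T r =
    A.L.filter (fun S => D < (S \ J r).card + (J r).card) := ⟨_, fun _ => rfl⟩
  -- the functions
  obtain ⟨φ, hφ⟩ : ∃ φ : R → Finset ι → (ι → α) → (ι → α) → ℝ, ∀ r S b x, φ r S b x =
    if ∀ i, i ∉ S ∪ J r → x i = b i then f r x else 0 := ⟨_, fun _ _ _ _ => rfl⟩
  obtain ⟨B, hB⟩ : ∃ B : Finset ((ι → α) → ℝ), B = (univ : Finset R).biUnion fun r =>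
    (T r).biUnion fun S => (slice (univ \ (S ∪ J r)) (a r)).image fun b => φ r S b := ⟨_, rfl⟩
  have hBc : (B.card : ℝ) ≤ Fintype.card R * (Z *
      (Fintype.card α : ℝ) ^ (Fintype.card ι - (D + 1))) := by
    rcases Nat.eq_zero_or_pos (Fintype.card α) with hα0 | hα0
    · -- no pointers
      have hB0 : B.card ≤ ∑ r : R, ∑ S ∈ T r, (Fintype.card α) ^ (univ \ (S ∪ J r)).card := by
        rw [hB]
        refine Finset.card_biUnion_le.trans (Finset.sum_le_sum fun r _ => ?_)
        refine Finset.card_biUnion_le.trans (Finset.sum_le_sum fun S _ => ?_)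
        refine Finset.card_image_le.trans (le_of_eq (card_slice _ _))
      have hTZ : ∀ r, ((T r).card : ℝ) ≤ Z := by
        intro r
        rw [hZ]
        refine le_trans ?_ (card_L_le A)
        exact_mod_cast Finset.card_le_card (by rw [hT]; exact Finset.filter_subset _ _)
      have h1 : ∀ r : R, ∀ S ∈ T r, (Fintype.card α) ^ (univ \ (S ∪ J r)).card ≤
          (Fintype.card α) ^ (Fintype.card ι - (D + 1)) := by
        intro r S hS
        have hS' : D < (S ∪ J r).card := by
          rw [hT] at hS
          have h2 := (Finset.mem_filter.mp hS).2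
          have h3 : (S \ J r).card + (J r).card = (S ∪ J r).card := Finset.card_sdiff_add_card S (J r)
          omega
        have h4 : (univ \ (S ∪ J r)).card = Fintype.card ι - (S ∪ J r).card := by
          rw [Finset.card_sdiff_of_subset (Finset.subset_univ _), Finset.card_univ]
        rw [h4, hα0]
        rcases Nat.eq_zero_or_pos (Fintype.card ι - (S ∪ J r).card) with h5 | h5
        · rw [h5]
          have : Fintype.card ι - (D + 1) = 0 ∨ 0 < Fintype.card ι - (D + 1) := by omega
          have h6 := Finset.card_le_univ (S ∪ J r)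
          rcases this with h7 | h7
          · rw [h7]
          · exfalso
            -- the set is everything, but `ι → α` is empty
            have hι : 0 < Fintype.card ι := by omega
            have : IsEmpty α := Fintype.card_eq_zero_iff.mp hα0
            obtain ⟨i⟩ : Nonempty ι := Fintype.card_pos_iff.mp hι
            exact IsEmpty.false (a r i)
        · rw [zero_pow h5.ne']
          exact Nat.zero_le _
      have h2 : ∑ r : R, ∑ S ∈ T r, (Fintype.card α) ^ (univ \ (S ∪ J r)).card ≤
          ∑ r : R, (T r).card * (Fintype.card α) ^ (Fintype.card ι - (D + 1)) := by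
        refine Finset.sum_le_sum fun r _ => ?_
        refine (Finset.sum_le_sum fun S hS => h1 r S hS).trans ?_
        rw [Finset.sum_const, smul_eq_mul]
      have h3 : (B.card : ℝ) ≤ ∑ r : R, ((T r).card : ℝ) *
          (Fintype.card α : ℝ) ^ (Fintype.card ι - (D + 1)) := by
        exact_mod_cast hB0.trans h2
      refine h3.trans ?_
      refine (Finset.sum_le_sum fun r _ => mul_le_mul_of_nonneg_right (hTZ r)
        (by positivity)).trans (le_of_eq ?_)
      rw [Finset.sum_const, Finset.card_univ, nsmul_eq_mul]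
    · have hB0 : B.card ≤ ∑ r : R, ∑ S ∈ T r, (Fintype.card α) ^ (univ \ (S ∪ J r)).card := by
        rw [hB]
        refine Finset.card_biUnion_le.trans (Finset.sum_le_sum fun r _ => ?_)
        refine Finset.card_biUnion_le.trans (Finset.sum_le_sum fun S _ => ?_)
        refine Finset.card_image_le.trans (le_of_eq (card_slice _ _))
      have hTZ : ∀ r, ((T r).card : ℝ) ≤ Z := by
        intro r
        rw [hZ]
        refine le_trans ?_ (card_L_le A)
        exact_mod_cast Finset.card_le_card (by rw [hT]; exact Finset.filter_subset _ _)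
      have h1 : ∀ r : R, ∀ S ∈ T r, (Fintype.card α) ^ (univ \ (S ∪ J r)).card ≤
          (Fintype.card α) ^ (Fintype.card ι - (D + 1)) := by
        intro r S hS
        have hS' : D < (S ∪ J r).card := by
          rw [hT] at hS
          have h2 := (Finset.mem_filter.mp hS).2
          have h3 : (S \ J r).card + (J r).card = (S ∪ J r).card := Finset.card_sdiff_add_card S (J r)
          omega
        have h4 : (univ \ (S ∪ J r)).card = Fintype.card ι - (S ∪ J r).card := by
          rw [Finset.card_sdiff_of_subset (Finset.subset_univ _), Finset.card_univ]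
        rw [h4]
        exact Nat.pow_le_pow_right hα0 (by omega)
      have h2 : ∑ r : R, ∑ S ∈ T r, (Fintype.card α) ^ (univ \ (S ∪ J r)).card ≤
          ∑ r : R, (T r).card * (Fintype.card α) ^ (Fintype.card ι - (D + 1)) := by
        refine Finset.sum_le_sum fun r _ => ?_
        refine (Finset.sum_le_sum fun S hS => h1 r S hS).trans ?_
        rw [Finset.sum_const, smul_eq_mul]
      have h3 : (B.card : ℝ) ≤ ∑ r : R, ((T r).card : ℝ) *
          (Fintype.card α : ℝ) ^ (Fintype.card ι - (D + 1)) := by
        exact_mod_cast hB0.trans h2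
      refine h3.trans ?_
      refine (Finset.sum_le_sum fun r _ => mul_le_mul_of_nonneg_right (hTZ r)
        (by positivity)).trans (le_of_eq ?_)
      rw [Finset.sum_const, Finset.card_univ, nsmul_eq_mul]
  -- the matrix
  obtain ⟨m, hm⟩ : ∃ m : (ι → α → Bool) → (ι → α) → ℝ, ∀ y x, m y x =
    chi univ (zz x y) * ker A (zz x y) * ∑ r, f r x * g r y := ⟨_, fun _ _ => rfl⟩
  have hsum : ∑ r, Lam A (f r) (g r) = ∑ y, ∑ x, chi univ (zz x y) * m y x := by
    unfold Lam
    rw [Finset.sum_comm, Finset.sum_comm (s := (univ : Finset (ι → α → Bool)))]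
    refine Finset.sum_congr rfl fun x _ => ?_
    rw [Finset.sum_comm]
    refine Finset.sum_congr rfl fun y _ => ?_
    rw [hm, ← mul_assoc, ← mul_assoc, chi_mul_self, one_mul, Finset.mul_sum]
    exact Finset.sum_congr rfl fun r _ => by ring
  have hspan : ∀ y, m y ∈ Submodule.span ℝ (B : Set ((ι → α) → ℝ)) := by
    intro y
    -- the decomposition
    have e1 : m y = ∑ r, ∑ S ∈ T r, ∑ b ∈ slice (univ \ (S ∪ J r)) (a r),
        (g r y * A.sn S * chi (univ \ S) (zz b y)) • φ r S b := by
      funext x
      rw [hm]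
      have e2 : ∀ r : R, chi univ (zz x y) * ker A (zz x y) * (f r x * g r y) =
          (∑ S ∈ T r, ∑ b ∈ slice (univ \ (S ∪ J r)) (a r),
            (g r y * A.sn S * chi (univ \ S) (zz b y)) • φ r S b) x := by
        intro r
        rw [Finset.sum_apply]
        simp only [Finset.sum_apply, Pi.smul_apply, smul_eq_mul]
        by_cases hfx : f r x = 0
        · rw [hfx, zero_mul, mul_zero]
          symm
          refine Finset.sum_eq_zero fun S _ => Finset.sum_eq_zero fun b _ => ?_
          rw [hφ, hfx, ite_self, mul_zero]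
        by_cases hgy : g r y = 0
        · rw [hgy, mul_zero, mul_zero]
          symm
          refine Finset.sum_eq_zero fun S _ => Finset.sum_eq_zero fun b _ => ?_
          ring
        have hxa := hf r x hfx
        have hdead : ¬ Live A (J r) (zz x y) := by
          intro hl
          refine hg r y hgy ((Live.congr fun i hi => ?_).mp hl)
          unfold zz
          rw [hxa i hi]
        rw [ker_dead A (hJ r) hdead, ← hT, Finset.mul_sum, Finset.sum_mul]
        refine Finset.sum_congr rfl fun S _ => ?_
        -- the unique slice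
        obtain ⟨b0, hb0⟩ : ∃ b0 : ι → α, b0 = fun i => if i ∈ S ∪ J r then a r i else x i :=
          ⟨_, rfl⟩
        have hb0m : b0 ∈ slice (univ \ (S ∪ J r)) (a r) := by
          rw [Pool.Agent.H58.LG.mem_slice]
          intro i hi
          rw [hb0]
          simp only
          rw [if_pos]
          by_contra h
          exact hi (Finset.mem_sdiff.mpr ⟨Finset.mem_univ _, h⟩)
        rw [Finset.sum_eq_single_of_mem b0 hb0m]
        · rw [hφ, if_pos]
          · have e3 : chi univ (zz x y) = chi S (zz x y) * chi (univ \ S) (zz x y) := by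
              rw [← chi_union Finset.disjoint_sdiff, Finset.union_sdiff_of_subset
                (Finset.subset_univ S)]
            have e4 : chi (univ \ S) (zz x y) = chi (univ \ S) (zz b0 y) := by
              refine chi_congr fun i hi => ?_
              unfold zz
              congr 1
              rw [hb0]
              simp only
              by_cases h : i ∈ S ∪ J r
              · rw [if_pos h]
                refine hxa i ?_
                exact (Finset.mem_union.mp h).resolve_left (Finset.mem_sdiff.mp hi).2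
              · rw [if_neg h]
            have e5 := chi_mul_self S (zz x y)
            rw [e3, ← e4]
            calc chi S (zz x y) * chi (univ \ S) (zz x y) * (A.sn S * chi S (zz x y)) *
                  (f r x * g r y) = (chi S (zz x y) * chi S (zz x y)) *
                  (g r y * A.sn S * chi (univ \ S) (zz x y) * f r x) := by ring
              _ = _ := by rw [e5, one_mul]
          · intro i hi
            rw [hb0]
            simp only
            rw [if_neg hi]
        · intro b hb hbne
          rw [hφ, if_neg, mul_zero]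
          intro hcon
          apply hbne
          funext i
          rw [hb0]
          simp only
          by_cases h : i ∈ S ∪ J r
          · rw [if_pos h]
            refine Pool.Agent.H58.LG.mem_slice.mp hb i ?_
            intro h'
            exact (Finset.mem_sdiff.mp h').2 h
          · rw [if_neg h]
            exact (hcon i h).symm
      rw [Finset.mul_sum, Finset.sum_apply]
      exact Finset.sum_congr rfl fun r _ => e2 r
    rw [e1]
    refine Submodule.sum_mem _ fun r _ => Submodule.sum_mem _ fun S hS =>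
      Submodule.sum_mem _ fun b hb => Submodule.smul_mem _ _ (Submodule.subset_span ?_)
    rw [hB]
    refine Finset.mem_coe.mpr (Finset.mem_biUnion.mpr ⟨r, Finset.mem_univ _,
      Finset.mem_biUnion.mpr ⟨S, hS, Finset.mem_image.mpr ⟨b, hb, rfl⟩⟩⟩)
  have h1 := rank_gen (fun y x => chi univ (zz x y)) m (Q := Fintype.card (ι → α → Bool))
    row_sq B hspan (Nat.cast_nonneg _)
  rw [← hsum] at h1
  refine h1.trans ?_
  have h2 : ∑ y, ∑ x, m y x ^ 2 ≤ Z ^ 2 * H := by
    calc ∑ y, ∑ x, m y x ^ 2 ≤ ∑ y, ∑ x, Z ^ 2 * (∑ r, f r x * g r y) ^ 2 := by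
          refine Finset.sum_le_sum fun y _ => Finset.sum_le_sum fun x _ => ?_
          rw [hm, mul_pow, mul_pow]
          have e1 : chi univ (zz x y) ^ 2 = 1 := by rw [sq, chi_mul_self]
          rw [e1, one_mul]
          refine mul_le_mul_of_nonneg_right ?_ (sq_nonneg _)
          rw [hZ]
          exact sq_le_sq' (by have := (abs_le.mp (abs_ker_le A (zz x y))).1; linarith)
            (abs_le.mp (abs_ker_le A (zz x y))).2
      _ = Z ^ 2 * ∑ y, ∑ x, (∑ r, f r x * g r y) ^ 2 := by
          simp only [Finset.mul_sum]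
      _ ≤ Z ^ 2 * H := mul_le_mul_of_nonneg_left hH (sq_nonneg _)
  have h3 : 0 ≤ ∑ y, ∑ x, m y x ^ 2 :=
    Finset.sum_nonneg fun y _ => Finset.sum_nonneg fun x _ => sq_nonneg _
  have h4 : (0 : ℝ) ≤ Fintype.card (ι → α → Bool) := Nat.cast_nonneg _
  refine mul_le_mul (mul_le_mul_of_nonneg_left hBc h4) h2 h3 ?_
  positivity

end Pool.Agent.H58.LM
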