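import Pool.Agent.H58.LM.Piece
import Pool.Agent.H58.LM.Rank
import Pool.Agent.H58.LM.Flat

/-! The core inequality. -/

set_option autoImplicit false
set_option linter.unusedSectionVars false

namespace Pool.Agent.H58.LM

open Finset
open Pool.Agent.H58.LG (zz Pure agr mem_agr Spread)

variable {ι α : Type*} [Fintype ι] [DecidableEq ι] [Fintype α] [DecidableEq α] {D : ℕ}

/-- **Core inequality.** -/
theorem core {R M : Type*} [Fintype R] [Fintype M] {p t : ℕ} (hp : 1 ≤ p) (htp : t ≤ p)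
    (A : Sys ι D) (hDn : D + 1 ≤ Fintype.card ι) {I : Finset ι} {d d' : ℕ}
    (hId : I.card + d' ≤ d) (hdD : d ≤ D) {x0 : ι → α}
    {κ κ1 η : ℝ} (hκ : 0 < κ) (hκ1 : 0 < κ1) (hη : 0 < η)
    (hκm : 1 ≤ κ * Fintype.card α) (hd : 1 ≤ (κ * Fintype.card α) ^ (d' + 1) * (κ1 * η))
    (X : Finset (ι → α)) (hXne : X.Nonempty) (hX0 : ∀ x ∈ X, ∀ i ∈ I, x i = x0 i)
    (hXs : Spread I κ X.card (fun x => if x ∈ X then 1 else 0))
    (hXη : η * Fintype.card α ^ Fintype.card ι ≤ X.card * Fintype.card α ^ I.card)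
    (Y : Finset (ι → α → Bool)) (hYI : ∀ y ∈ Y, Live A I (zz x0 y))
    (hY : (Fintype.card (ι → α → Bool) : ℝ) ≤ 2 ^ t * Y.card) {h ρ : ℝ} (hh0 : 0 ≤ h)
    (hh : 8 * p * κ ≤ h ^ 2) (hρ : Fintype.card ι * h ≤ ρ) (hρ1 : ρ ≤ 1 / 8)
    (J : R → Finset ι) (a : R → ι → α) (hJ : ∀ r, (J r).card ≤ D)
    (f : R → (ι → α) → ℝ) (g : R → (ι → α → Bool) → ℝ)
    (hf : ∀ r, ∀ x ∈ X, f r x ≠ 0 → ∀ i ∈ J r, x i = a r i)
    (hg : ∀ r, ∀ y ∈ Y, g r y ≠ 0 → ¬ Live A (J r) (zz (a r) y))
    (P : M → (ι → α) → ℝ) (Q : M → (ι → α → Bool) → ℝ) (hP : ∀ r, ∀ x ∈ X, 0 ≤ P r x)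
    (hQ : ∀ r, ∀ y ∈ Y, 0 ≤ Q r y) (hPQ : ∀ r, ∀ x ∈ X, ∀ y ∈ Y, P r x * Q r y ≤ 1)
    {c : ℝ} (hc : 0 ≤ c)
    (hrel : ∀ x ∈ X, ∀ y ∈ Y, (∑ r, f r x * g r y) = c + ∑ r, P r x * Q r y)
    {δ : ℝ} (hδ0 : 0 ≤ δ)
    (hδ : 2 ^ t * Fintype.card R * ((1 + Fintype.card ι) ^ D) ^ 3 * (c + Fintype.card M) ^ 2 *
      Fintype.card α ^ I.card ≤ δ ^ 2 * η * Fintype.card α ^ (D + 1)) :
    1 / 2 * c ≤ δ + Fintype.card M * (err (Fintype.card ι) d D t p ρ +
      κ1 * (1 + Fintype.card ι) ^ D) := by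
  classical
  have hρ0 : 0 ≤ ρ := le_trans (by positivity) hρ
  have hXc : (0 : ℝ) < X.card := by exact_mod_cast Finset.card_pos.mpr hXne
  have hYne : Y.Nonempty := by
    rw [← Finset.card_pos]
    by_contra hcon
    have h0 : Y.card = 0 := by omega
    rw [h0, Nat.cast_zero, mul_zero] at hY
    have h1 : (0 : ℝ) < Fintype.card (ι → α → Bool) := by exact_mod_cast Fintype.card_pos
    linarith
  have hYc : (0 : ℝ) < Y.card := by exact_mod_cast Finset.card_pos.mpr hYne
  have hYp : 1 * (Fintype.card (ι → α → Bool) : ℝ) ≤ 2 ^ p * Y.card := by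
    rw [one_mul]
    refine hY.trans (mul_le_mul_of_nonneg_right ?_ hYc.le)
    exact pow_le_pow_right₀ (by norm_num) htp
  obtain ⟨E, hE⟩ : ∃ E, E = err (Fintype.card ι) d D t p ρ +
    κ1 * (1 + (Fintype.card ι : ℝ)) ^ D := ⟨_, rfl⟩
  have hE0 : 0 ≤ E := by
    rw [hE]
    have := err_nonneg (Fintype.card ι) d D t p hρ0
    positivity
  rw [← hE]
  obtain ⟨m, hm⟩ : ∃ m : ℝ, m = Fintype.card α := ⟨_, rfl⟩
  have hm0 : 0 < m := by
    rw [hm]
    by_contra h3
    push Not at h3
    have : κ * (Fintype.card α : ℝ) ≤ 0 := mul_nonpos_of_nonneg_of_nonpos hκ.le h3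
    linarith
  have hXsum : ∑ x : ι → α, (if x ∈ X then (1 : ℝ) else 0) = X.card := by
    rw [Finset.sum_ite_mem, Finset.univ_inter, Finset.sum_const, nsmul_eq_mul, mul_one]
  have hYsum : ∑ y : ι → α → Bool, (if y ∈ Y then (1 : ℝ) else 0) = Y.card := by
    rw [Finset.sum_ite_mem, Finset.univ_inter, Finset.sum_const, nsmul_eq_mul, mul_one]
  -- the identity
  have hid : ∑ r, Lam A (fun x => if x ∈ X then f r x else 0)
      (fun y => if y ∈ Y then g r y else 0) =
      c * Lam A (fun x => if x ∈ X then 1 else 0) (fun y => if y ∈ Y then 1 else 0) +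
      ∑ r, Lam A (fun x => if x ∈ X then P r x else 0)
        (fun y => if y ∈ Y then Q r y else 0) := by
    unfold Lam
    rw [Finset.sum_comm, Finset.mul_sum, Finset.sum_comm (s := (univ : Finset M)),
      ← Finset.sum_add_distrib]
    refine Finset.sum_congr rfl fun x _ => ?_
    rw [Finset.sum_comm, Finset.mul_sum, Finset.sum_comm (s := (univ : Finset M)),
      ← Finset.sum_add_distrib]
    refine Finset.sum_congr rfl fun y _ => ?_
    rw [← Finset.sum_mul, ← Finset.sum_mul, ← mul_assoc, ← add_mul]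
    congr 1
    by_cases hx : x ∈ X
    · by_cases hy : y ∈ Y
      · simp only [hx, hy, if_true, mul_one]
        exact hrel x hx y hy
      · simp [hy]
    · simp [hx]
  -- the dead parts
  have h1 : ∑ r, Lam A (fun x => if x ∈ X then f r x else 0)
      (fun y => if y ∈ Y then g r y else 0) ≤ δ * (X.card * Y.card) := by
    have e1 := dead_rank A J a hJ (fun r x => if x ∈ X then f r x else 0)
      (fun r y => if y ∈ Y then g r y else 0)
      (fun r x hx => by
        by_cases h : x ∈ X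
        · rw [if_pos h] at hx
          exact hf r x h hx
        · rw [if_neg h] at hx
          exact absurd rfl hx)
      (fun r y hy => by
        by_cases h : y ∈ Y
        · rw [if_pos h] at hy
          exact hg r y h hy
        · rw [if_neg h] at hy
          exact absurd rfl hy)
      (H := (c + Fintype.card M) ^ 2 * (X.card * Y.card)) (by
        have e2 : ∀ y x, (∑ r, (if x ∈ X then f r x else 0) * (if y ∈ Y then g r y else 0)) ^ 2 ≤
            (c + Fintype.card M) ^ 2 * ((if x ∈ X then 1 else 0) * (if y ∈ Y then 1 else 0)) := by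
          intro y x
          by_cases hx : x ∈ X
          · by_cases hy : y ∈ Y
            · simp only [hx, hy, if_true, mul_one]
              rw [hrel x hx y hy]
              have e3 : 0 ≤ ∑ r, P r x * Q r y :=
                Finset.sum_nonneg fun r _ => mul_nonneg (hP r x hx) (hQ r y hy)
              have e4 : ∑ r, P r x * Q r y ≤ Fintype.card M := by
                refine (Finset.sum_le_sum fun r _ => hPQ r x hx y hy).trans (le_of_eq ?_)
                rw [Finset.sum_const, Finset.card_univ, nsmul_eq_mul, mul_one]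
              exact pow_le_pow_left₀ (by linarith) (by linarith) 2
            · simp [hy]
          · simp [hx]
        refine (Finset.sum_le_sum fun y _ => Finset.sum_le_sum fun x _ => e2 y x).trans
          (le_of_eq ?_)
        rw [← hXsum, ← hYsum, Finset.sum_mul_sum, Finset.mul_sum, Finset.sum_comm]
        refine Finset.sum_congr rfl fun x _ => ?_
        rw [Finset.mul_sum])
    obtain ⟨S, hS⟩ : ∃ S, S = ∑ r, Lam A (fun x => if x ∈ X then f r x else 0)
      (fun y => if y ∈ Y then g r y else 0) := ⟨_, rfl⟩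
    rw [← hS] at e1 ⊢
    obtain ⟨Z, hZ⟩ : ∃ Z : ℝ, Z = (1 + Fintype.card ι) ^ D := ⟨_, rfl⟩
    have hZ0 : 0 ≤ Z := by rw [hZ]; positivity
    rw [← hZ, ← hm] at e1
    rw [← hZ, ← hm] at hδ
    rw [← hm] at hXη
    obtain ⟨q, hq⟩ : ∃ q, Fintype.card ι = q + (D + 1) := ⟨Fintype.card ι - (D + 1), by omega⟩
    have hsub : Fintype.card ι - (D + 1) = q := by omega
    rw [hsub] at e1
    rw [hq, pow_add] at hXη
    obtain ⟨Ya, hYa⟩ : ∃ Ya : ℝ, Ya = Fintype.card (ι → α → Bool) := ⟨_, rfl⟩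
    obtain ⟨rr, hrr⟩ : ∃ rr : ℝ, rr = Fintype.card R := ⟨_, rfl⟩
    obtain ⟨mm, hmm⟩ : ∃ mm : ℝ, mm = Fintype.card M := ⟨_, rfl⟩
    have hrr0 : 0 ≤ rr := by rw [hrr]; positivity
    have hmm0 : 0 ≤ mm := by rw [hmm]; positivity
    rw [← hYa] at e1 hY
    rw [← hrr, ← hmm] at e1 hδ
    obtain ⟨xc, hxc⟩ : ∃ xc : ℝ, xc = X.card := ⟨_, rfl⟩
    obtain ⟨yc, hyc⟩ : ∃ yc : ℝ, yc = Y.card := ⟨_, rfl⟩
    rw [← hxc] at hXc hXη e1 ⊢
    rw [← hyc] at hYc hY e1 ⊢
    have e5 : S ^ 2 ≤ (2 ^ t * yc) * (rr * (Z * m ^ q)) * (Z ^ 2 * ((c + mm) ^ 2 * (xc * yc))) := by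
      refine e1.trans ?_
      refine mul_le_mul_of_nonneg_right (mul_le_mul_of_nonneg_right hY (by positivity))
        (by positivity)
    have e6 : (2 ^ t * rr * Z ^ 3 * (c + mm) ^ 2) * m ^ q ≤ δ ^ 2 * xc := by
      have e7 : 0 < m ^ (D + 1) * m ^ I.card := by positivity
      refine le_of_mul_le_mul_right ?_ e7
      calc (2 ^ t * rr * Z ^ 3 * (c + mm) ^ 2) * m ^ q * (m ^ (D + 1) * m ^ I.card) =
            (2 ^ t * rr * Z ^ 3 * (c + mm) ^ 2 * m ^ I.card) * (m ^ q * m ^ (D + 1)) := by ring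
        _ ≤ (δ ^ 2 * η * m ^ (D + 1)) * (m ^ q * m ^ (D + 1)) :=
            mul_le_mul_of_nonneg_right hδ (by positivity)
        _ = δ ^ 2 * m ^ (D + 1) * (η * (m ^ q * m ^ (D + 1))) := by ring
        _ ≤ δ ^ 2 * m ^ (D + 1) * (xc * m ^ I.card) :=
            mul_le_mul_of_nonneg_left hXη (by positivity)
        _ = _ := by ring
    have e8 : S ^ 2 ≤ (δ * (xc * yc)) ^ 2 := by
      refine e5.trans ?_
      have e9 : 0 ≤ xc * yc ^ 2 := by positivity
      calc (2 ^ t * yc) * (rr * (Z * m ^ q)) * (Z ^ 2 * ((c + mm) ^ 2 * (xc * yc))) =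
            ((2 ^ t * rr * Z ^ 3 * (c + mm) ^ 2) * m ^ q) * (xc * yc ^ 2) := by ring
        _ ≤ (δ ^ 2 * xc) * (xc * yc ^ 2) := mul_le_mul_of_nonneg_right e6 e9
        _ = _ := by ring
    exact (abs_le_of_sq_le_sq' e8 (by positivity)).2
  -- the constant part
  have h2 : 1 / 2 * (X.card * Y.card) ≤
      Lam A (fun x : ι → α => if x ∈ X then (1 : ℝ) else 0)
        (fun y : ι → α → Bool => if y ∈ Y then 1 else 0) := by
    have e1 := main_part (I := I) (x0 := x0) (b0 := 1)
      (f := fun x => if x ∈ X then 1 else 0)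
      (g := fun y => if y ∈ Y then 1 else 0) hp A (by omega) hκ.le
      (fun x => by split_ifs <;> norm_num)
      (fun x hx => by
        have h3 : x ∈ X := by
          by_contra hcon
          rw [if_neg hcon] at hx
          exact hx rfl
        exact hX0 x h3)
      (by rw [hXsum]; exact hXs)
      (fun y => by split_ifs <;> norm_num)
      (fun y => by split_ifs <;> norm_num)
      (fun y hy => by
        have h3 : y ∈ Y := by
          by_contra hcon
          rw [if_neg hcon] at hy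
          exact hy rfl
        exact hYI y h3)
      (by rw [hYsum]; exact hYp) hh0 hh hρ hρ1
    rw [hXsum, hYsum] at e1
    refine le_trans ?_ e1
    have e2 : (1 : ℝ) ≤ LI A I := by exact_mod_cast LI_pos A I
    have e3 : 0 ≤ (X.card : ℝ) * Y.card := by positivity
    nlinarith
  -- the products
  have h3 : ∀ r, -(X.card * Y.card * E) ≤
      Lam A (fun x => if x ∈ X then P r x else 0) (fun y => if y ∈ Y then Q r y else 0) := by
    intro r
    obtain ⟨xm, hxm, hxmax⟩ := Finset.exists_max_image X (P r) hXne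
    obtain ⟨ym, hym, hymax⟩ := Finset.exists_max_image Y (Q r) hYne
    have e1 := nonneg_part (I := I) (x0 := x0) (a0 := P r xm) (b0 := Q r ym)
      (f := fun x => if x ∈ X then P r x else 0)
      (g := fun y => if y ∈ Y then Q r y else 0) hp htp A hId hdD hκ hκ1 hη hκm hd X hX0
      hXη
      (fun x => by
        split_ifs with h3
        · exact hP r x h3
        · exact le_rfl)
      (fun x => by
        split_ifs with h3
        · exact hxmax x h3
        · exact hP r xm hxm)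
      (fun x hx => if_neg hx) Y (hP r xm hxm) (hQ r ym hym)
      (fun y => by
        split_ifs with h3
        · exact hQ r y h3
        · exact le_rfl)
      (fun y => by
        split_ifs with h3
        · exact hymax y h3
        · exact hQ r ym hym)
      (fun y hy => if_neg hy) hY hh0 hh hρ hρ1
    rw [← hE] at e1
    refine le_trans ?_ e1
    have e3 : 0 ≤ X.card * Y.card * E := by positivity
    have e4 := mul_le_mul_of_nonneg_right (hPQ r xm hxm ym hym) e3
    linarith
  -- conclusion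
  have h4 : c * (1 / 2 * (X.card * Y.card)) - Fintype.card M * (X.card * Y.card * E) ≤
      δ * (X.card * Y.card) := by
    have e2 : ∑ r : M, -(X.card * Y.card * E) ≤
        ∑ r, Lam A (fun x => if x ∈ X then P r x else 0)
          (fun y => if y ∈ Y then Q r y else 0) := Finset.sum_le_sum fun r _ => h3 r
    rw [Finset.sum_const, Finset.card_univ, nsmul_eq_mul] at e2
    rw [hid] at h1
    have e3 := mul_le_mul_of_nonneg_left h2 hc
    linarith
  have h5 : (0 : ℝ) < X.card * Y.card := by positivity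
  have h6 : 1 / 2 * c * (X.card * Y.card) ≤
      (δ + Fintype.card M * E) * (X.card * Y.card) := by
    linarith
  exact le_of_mul_le_mul_right h6 h5

end Pool.Agent.H58.LM
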