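import Pool.Agent.H58.LM.Node

/-! The induction along a circuit with real values. -/

set_option autoImplicit false
set_option linter.unusedSectionVars false

namespace Pool.Agent.H58.LM

open Finset
open Pool.Agent.H58.LG (zz Pure agr mem_agr Spread slice sum_small select card_agr
  spread_of_select)

variable {ι α : Type*} [Fintype ι] [DecidableEq ι] [Fintype α] [DecidableEq α] {D : ℕ}
  {s C N : ℕ}

/-- Every input `x` has a small set of pointers which is dead at all `y` with smaller value. -/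
def DeadR (A : Sys ι D) (d : ℕ) (u : (ι → α) → ℝ) (v : (ι → α → Bool) → ℝ)
    (E : Finset (ι → α)) (F : Finset (ι → α → Bool)) : Prop :=
  ∀ x, x ∉ E → ∃ J : Finset ι, J.card ≤ d ∧ ∀ y, y ∉ F → v y < u x → ¬ Live A J (zz x y)

/-- The relation between a linear programme and the gates before it. -/
def LinRel (R : ℕ) (vx : Fin s → (ι → α) → ℝ) (vy : Fin s → (ι → α → Bool) → ℝ) (i : Fin s) :
    Prop :=
  ∀ (X : Finset (ι → α)) (Y : Finset (ι → α → Bool)), X.Nonempty → Y.Nonempty →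
    (∀ x ∈ X, ∀ y ∈ Y, vy i y < vx i x) →
    ∃ (S : Finset (Fin s)) (φ : Fin s → ℝ → ℝ) (P : Fin s → (ι → α) → ℝ)
      (Q : Fin s → (ι → α → Bool) → ℝ) (F : (ι → α → Bool) → ℝ) (U : Fin R → (ι → α) → ℝ)
      (V : Fin R → (ι → α → Bool) → ℝ) (V0 : (ι → α → Bool) → ℝ),
      (∀ j ∈ S, j < i) ∧ (∀ j, Monotone (φ j)) ∧ (∀ j, ∀ x ∈ X, 0 ≤ P j x) ∧
      (∀ j, ∀ y ∈ Y, 0 ≤ Q j y) ∧ (∀ y ∈ Y, 0 ≤ F y) ∧ (∀ r, ∀ x ∈ X, 0 ≤ U r x) ∧
      (∀ r, ∀ y ∈ Y, 0 ≤ V r y) ∧ (∀ y ∈ Y, 0 < V0 y) ∧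
      ∀ x ∈ X, ∀ y ∈ Y, ∑ j ∈ S, (φ j (vx j x) - φ j (vy j y)) * (P j x * F y + Q j y) =
        V0 y + ∑ r, U r x * V r y

/-- the kinds of gates -/
def GateOk (A : Sys ι D) (d w R : ℕ) (vx : Fin s → (ι → α) → ℝ)
    (vy : Fin s → (ι → α → Bool) → ℝ) (i : Fin s) : Prop :=
  (∀ x, ∃ J : Finset ι, J.card ≤ d ∧ ∀ y, vy i y < vx i x → ¬ Live A J (zz x y)) ∨
  (∀ x, ∃ S : Finset (Fin s), S.card ≤ w ∧ (∀ j ∈ S, j < i) ∧
    ∀ y, vy i y < vx i x → ∃ j ∈ S, vy j y < vx j x) ∨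
  LinRel R vx vy i

/-- the part of a set which is not covered by spread pieces of larger value is small -/
theorem cover {κ η : ℝ} {d : ℕ} (hκ : 0 < κ) (hη : 0 < η) (hκm : 1 ≤ κ * Fintype.card α)
    (hd : 1 ≤ (κ * Fintype.card α) ^ (d + 1) * η) (U : Finset (ι → α)) (v : (ι → α) → ℝ) :
    ∃ E : Finset (ι → α), (E.card : ℝ) ≤ η * Fintype.card α ^ Fintype.card ι ∧
      ∀ x ∈ U, x ∉ E → ∃ (I : Finset ι) (X : Finset (ι → α)), I.card ≤ d ∧ x ∈ X ∧ X ⊆ U ∧
        (∀ x' ∈ X, ∀ i ∈ I, x' i = x i) ∧ (∀ x' ∈ X, v x ≤ v x') ∧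
        Spread I κ X.card (fun x => if x ∈ X then (1 : ℝ) else 0) ∧
        η * Fintype.card α ^ Fintype.card ι ≤ X.card * Fintype.card α ^ I.card := by
  classical
  obtain ⟨P, hP⟩ : ∃ P : (ι → α) → Prop, ∀ x, P x ↔ ∃ (I : Finset ι) (X : Finset (ι → α)),
      I.card ≤ d ∧ x ∈ X ∧ X ⊆ U ∧ (∀ x' ∈ X, ∀ i ∈ I, x' i = x i) ∧ (∀ x' ∈ X, v x ≤ v x') ∧
        Spread I κ X.card (fun x => if x ∈ X then (1 : ℝ) else 0) ∧
        η * Fintype.card α ^ Fintype.card ι ≤ X.card * Fintype.card α ^ I.card :=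
    ⟨_, fun _ => Iff.rfl⟩
  refine ⟨U.filter fun x => ¬ P x, ?_, fun x hx hxE => ?_⟩
  · by_contra hcon
    push Not at hcon
    obtain ⟨E, hE⟩ : ∃ E, E = U.filter fun x => ¬ P x := ⟨_, rfl⟩
    rw [← hE] at hcon
    obtain ⟨m, hm⟩ : ∃ m : ℝ, m = Fintype.card α := ⟨_, rfl⟩
    rw [← hm] at hcon hκm hd
    have hm0 : 0 < m := by
      by_contra h3
      push Not at h3
      have : κ * m ≤ 0 := mul_nonpos_of_nonneg_of_nonpos hκ.le h3
      linarith
    have hEne : E.Nonempty := by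
      rw [← Finset.card_pos]
      have h1 : (0 : ℝ) < E.card := lt_trans (by positivity) hcon
      exact_mod_cast h1
    obtain ⟨x0, hx0⟩ := hEne
    obtain ⟨J, b, -, h1, h2⟩ := select (F := ∅) hκ x0
      (f := fun x => if x ∈ E then (1 : ℝ) else 0) (fun x => by split_ifs <;> norm_num)
    rw [Finset.empty_union] at h2
    have e1 : ∑ x : ι → α, (if x ∈ E then (1 : ℝ) else 0) = E.card := by
      rw [Finset.sum_ite_mem, Finset.univ_inter, Finset.sum_const, nsmul_eq_mul, mul_one]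
    have e2 : ∑ x ∈ agr J b, (if x ∈ E then (1 : ℝ) else 0) = (agr J b ∩ E).card := by
      rw [Finset.sum_ite_mem, Finset.sum_const, nsmul_eq_mul, mul_one]
    have h3 := spread_of_select (agr J b ∩ E) (fun x => by
      by_cases h4 : x ∈ agr J b <;> by_cases h5 : x ∈ E <;> simp [h4, h5]) h2
    rw [e1, e2] at h1
    have hEc : (0 : ℝ) < E.card := lt_trans (by positivity) hcon
    have hXc : (0 : ℝ) < (agr J b ∩ E).card := lt_of_lt_of_le (by positivity) h1
    have h5 : ((agr J b).card : ℝ) * m ^ J.card = m ^ Fintype.card ι := by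
      rw [hm]
      exact_mod_cast card_agr J b
    have h6 : ((agr J b ∩ E).card : ℝ) ≤ (agr J b).card := by
      exact_mod_cast Finset.card_le_card Finset.inter_subset_left
    have h7 : (κ * m) ^ J.card * E.card ≤ (agr J b ∩ E).card * m ^ J.card := by
      rw [mul_pow]
      have := mul_le_mul_of_nonneg_right h1 (show 0 ≤ m ^ J.card by positivity)
      linarith
    have hJd : J.card ≤ d := by
      by_contra hcon2
      push Not at hcon2
      have h8 : (κ * m) ^ (d + 1) ≤ (κ * m) ^ J.card := pow_le_pow_right₀ hκm hcon2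
      have h9 : (κ * m) ^ J.card * E.card ≤ m ^ Fintype.card ι := by
        refine h7.trans ?_
        rw [← h5]
        exact mul_le_mul_of_nonneg_right h6 (by positivity)
      have h10 : (κ * m) ^ J.card * (η * m ^ Fintype.card ι) < m ^ Fintype.card ι :=
        lt_of_lt_of_le (mul_lt_mul_of_pos_left hcon (by positivity)) h9
      have h11 : 1 ≤ (κ * m) ^ J.card * η := hd.trans (mul_le_mul_of_nonneg_right h8 hη.le)
      have h12 : 0 < m ^ Fintype.card ι := by positivity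
      nlinarith
    have hne : (agr J b ∩ E).Nonempty := by
      rw [← Finset.card_pos]
      exact_mod_cast hXc
    obtain ⟨x, hx, hxmin⟩ := Finset.exists_min_image (agr J b ∩ E) v hne
    have hxE := (Finset.mem_inter.mp hx).2
    rw [hE, Finset.mem_filter] at hxE
    apply hxE.2
    rw [hP]
    refine ⟨J, agr J b ∩ E, hJd, hx, ?_, ?_, hxmin, h3, ?_⟩
    · intro x' hx'
      have := (Finset.mem_inter.mp hx').2
      rw [hE] at this
      exact (Finset.mem_filter.mp this).1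
    · intro x' hx' i hi
      rw [mem_agr.mp (Finset.mem_inter.mp hx').1 i hi, mem_agr.mp (Finset.mem_inter.mp hx).1 i hi]
    · rw [← hm]
      have h8 : (1 : ℝ) ≤ (κ * m) ^ J.card := one_le_pow₀ hκm
      have h9 : 1 * (E.card : ℝ) ≤ (κ * m) ^ J.card * E.card :=
        mul_le_mul_of_nonneg_right h8 hEc.le
      linarith
  · have : P x := by
      by_contra hcon
      exact hxE (Finset.mem_filter.mpr ⟨hx, hcon⟩)
    exact (hP x).mp this

/-- a gate whose values are forced by few inputs -/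
theorem node_few (P : Par (Fintype.card ι) (Fintype.card α) s C N D) (A : Sys ι D) {w : ℕ}
    (hwD : w * P.d ≤ D) (hC : (1 + Fintype.card ι * Fintype.card α) ^ (w * P.d) ≤ C)
    {I : Finset ι} (hI : I.card ≤ P.d) {x0 : ι → α} (X : Finset (ι → α)) (hXne : X.Nonempty)
    (hX0 : ∀ x ∈ X, ∀ i ∈ I, x i = x0 i)
    (hXs : Spread I P.κ X.card (fun x => if x ∈ X then 1 else 0))
    (hXη : P.η * Fintype.card α ^ Fintype.card ι ≤ X.card * Fintype.card α ^ I.card)
    (Y : Finset (ι → α → Bool)) (hYI : ∀ y ∈ Y, Live A I (zz x0 y))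
    (hY : (Fintype.card (ι → α → Bool) : ℝ) ≤ 2 ^ P.t0 * Y.card)
    (vx : Fin s → (ι → α) → ℝ) (vy : Fin s → (ι → α → Bool) → ℝ)
    (S : (ι → α) → Finset (Fin s)) (hSw : ∀ x, (S x).card ≤ w)
    (hS : ∀ x ∈ X, ∀ y ∈ Y, ∃ j ∈ S x, vy j y < vx j x)
    (hdead : ∀ x, ∀ j ∈ S x, x ∈ X → ∃ J : Finset ι, J.card ≤ P.d ∧ ∀ y ∈ Y, vy j y < vx j x →
      ¬ Live A J (zz x y)) : False := by
  classical
  have hJ : ∀ j x, ∃ J : Finset ι, J.card ≤ P.d ∧ (j ∈ S x → x ∈ X → ∀ y ∈ Y, vy j y < vx j x →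
      ¬ Live A J (zz x y)) := by
    intro j x
    by_cases h : j ∈ S x ∧ x ∈ X
    · obtain ⟨J, h1, h2⟩ := hdead x j h.1 h.2
      exact ⟨J, h1, fun _ _ => h2⟩
    · exact ⟨∅, by simp, fun h1 h2 => absurd ⟨h1, h2⟩ h⟩
  choose Jj hJj1 hJj2 using hJ
  obtain ⟨Ju, hJu⟩ : ∃ Ju : (ι → α) → Sm ι (w * P.d), ∀ x, (Ju x).1 = (S x).biUnion fun j => Jj j x := by
    refine ⟨fun x => ⟨(S x).biUnion fun j => Jj j x, ?_⟩, fun _ => rfl⟩
    refine (Finset.card_biUnion_le_card_mul (S x) _ P.d fun j _ => hJj1 j x).trans ?_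
    exact Nat.mul_le_mul_right _ (hSw x)
  refine node P A (CC := Lb ι α (w * P.d) x0) (RR := Fin 0) ((card_lb_le _ x0).trans hC)
    (by simp) hI X hXne hX0 hXs hXη Y hYI hY (fun q => q.1.1) (fun q => q.1.2)
    (fun q => q.2.1.trans hwD) (fun q x => if lab x0 x (Ju x) = q then 1 else 0)
    (fun q y => if Live A q.1.1 (zz q.1.2 y) then 0 else 1) ?_ ?_
    (fun r => Fin.elim0 r) (fun r => Fin.elim0 r) (fun r => Fin.elim0 r) (fun r => Fin.elim0 r)
    (fun _ => 1) (fun _ _ => one_pos) ?_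
  · intro q x _ hq
    have h2 : lab x0 x (Ju x) = q := by
      by_contra hcon
      rw [if_neg hcon] at hq
      exact hq rfl
    rw [← h2]
    exact lab_agree x0 x (Ju x)
  · intro q y _ hq hl
    rw [if_pos hl] at hq
    exact hq rfl
  · intro x hx y hy
    have h2 : ¬ Live A (lab x0 x (Ju x)).1.1 (zz (lab x0 x (Ju x)).1.2 y) := by
      rw [live_lab, hJu]
      intro hl
      obtain ⟨j, hj, hlt⟩ := hS x hx y hy
      exact hJj2 j x hj hx y hy hlt (hl.mono (Finset.subset_biUnion_of_mem _ hj))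
    simp only [ite_mul, one_mul, zero_mul, Finset.sum_ite_eq, Finset.mem_univ, if_true]
    rw [if_neg h2]
    simp

/-- a linear programme -/
theorem node_lin (P : Par (Fintype.card ι) (Fintype.card α) s C N D) (A : Sys ι D) {R : ℕ}
    (hC : 4 * (s * (1 + Fintype.card ι * Fintype.card α) ^ P.d) ≤ C)
    (hN : 4 * (s * (1 + Fintype.card ι * Fintype.card α) ^ P.d) + R ≤ N)
    {I : Finset ι} (hI : I.card ≤ P.d) {x0 : ι → α} (X : Finset (ι → α)) (hXne : X.Nonempty)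
    (hX0 : ∀ x ∈ X, ∀ i ∈ I, x i = x0 i)
    (hXs : Spread I P.κ X.card (fun x => if x ∈ X then 1 else 0))
    (hXη : P.η * Fintype.card α ^ Fintype.card ι ≤ X.card * Fintype.card α ^ I.card)
    (Y : Finset (ι → α → Bool)) (hYne : Y.Nonempty) (hYI : ∀ y ∈ Y, Live A I (zz x0 y))
    (hY : (Fintype.card (ι → α → Bool) : ℝ) ≤ 2 ^ P.t0 * Y.card)
    (vx : Fin s → (ι → α) → ℝ) (vy : Fin s → (ι → α → Bool) → ℝ) (i : Fin s)
    (hrel : LinRel R vx vy i) (hXY : ∀ x ∈ X, ∀ y ∈ Y, vy i y < vx i x)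
    (hdead : ∀ j, j < i → ∀ x ∈ X, ∃ J : Finset ι, J.card ≤ P.d ∧ ∀ y ∈ Y, vy j y < vx j x →
      ¬ Live A J (zz x y)) : False := by
  classical
  obtain ⟨S, φ, Pj, Qj, F, U, V, V0, hS, hφ, hPj, hQj, hF, hU, hV, hV0, hrel⟩ :=
    hrel X Y hXne hYne hXY
  have hJ : ∀ j x, ∃ J : Sm ι P.d, (j ∈ S → x ∈ X → ∀ y ∈ Y, vy j y < vx j x →
      ¬ Live A J.1 (zz x y)) := by
    intro j x
    by_cases h : j ∈ S ∧ x ∈ X
    · obtain ⟨J, h1, h2⟩ := hdead j (hS j h.1) x h.2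
      exact ⟨⟨J, h1⟩, fun _ _ => h2⟩
    · exact ⟨⟨∅, by simp⟩, fun h1 h2 => absurd ⟨h1, h2⟩ h⟩
  choose Jj hJj using hJ
  -- labels
  obtain ⟨χ, hχ⟩ : ∃ χ : Fin s → Lb ι α P.d x0 → (ι → α) → ℝ, ∀ j q x, χ j q x =
    if lab x0 x (Jj j x) = q then 1 else 0 := ⟨_, fun _ _ _ => rfl⟩
  have hχ0 : ∀ j q x, 0 ≤ χ j q x := fun j q x => by rw [hχ]; split_ifs <;> norm_num
  obtain ⟨lv, hlv⟩ : ∃ lv : Lb ι α P.d x0 → (ι → α → Bool) → ℝ, ∀ q y, lv q y =
    if Live A q.1.1 (zz q.1.2 y) then 1 else 0 := ⟨_, fun _ _ => rfl⟩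
  have hlv0 : ∀ q y, 0 ≤ lv q y := fun q y => by rw [hlv]; split_ifs <;> norm_num
  -- the threshold
  have hθ : ∀ j (q : Lb ι α P.d x0), ∃ θ : ℝ,
      (∀ x ∈ X, lab x0 x (Jj j x) = q → φ j (vx j x) ≤ θ) ∧
      (∀ x ∈ X, lab x0 x (Jj j x) = q → j ∈ S → ∀ y ∈ Y, Live A q.1.1 (zz q.1.2 y) →
        θ ≤ φ j (vy j y)) := by
    intro j q
    rcases (X.filter fun x => lab x0 x (Jj j x) = q).eq_empty_or_nonempty with h0 | h0
    · have h1 : ∀ x ∈ X, lab x0 x (Jj j x) ≠ q := by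
        intro x hx hq
        have : x ∈ (X.filter fun x => lab x0 x (Jj j x) = q) := Finset.mem_filter.mpr ⟨hx, hq⟩
        rw [h0] at this
        exact absurd this (Finset.notMem_empty x)
      exact ⟨0, fun x hx hq => absurd hq (h1 x hx), fun x hx hq => absurd hq (h1 x hx)⟩
    · obtain ⟨xm, hxm, hmax⟩ := Finset.exists_max_image _ (fun x => φ j (vx j x)) h0
      obtain ⟨hxmX, hxmq⟩ := Finset.mem_filter.mp hxm
      refine ⟨φ j (vx j xm), fun x hx hq => hmax x (Finset.mem_filter.mpr ⟨hx, hq⟩),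
        fun _ _ _ hj y hy hl => hφ j ?_⟩
      by_contra hcon
      push Not at hcon
      refine hJj j xm hj hxmX y hy hcon ?_
      rw [← hxmq] at hl
      exact live_lab.mp hl
  choose θ hθ1 hθ2 using hθ
  obtain ⟨f4, hf4⟩ : ∃ f4 : (Fin s × Lb ι α P.d x0) → Fin 4 → (ι → α) → ℝ, f4 = fun c k x =>
    (if c.1 ∈ S then χ c.1 c.2 x else 0) *
      ![φ c.1 (vx c.1 x) * Pj c.1 x, -Pj c.1 x, φ c.1 (vx c.1 x), -1] k := ⟨_, rfl⟩
  obtain ⟨g4, hg4⟩ : ∃ g4 : (Fin s × Lb ι α P.d x0) → Fin 4 → (ι → α → Bool) → ℝ,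
    g4 = fun c k y => (1 - lv c.2 y) *
      ![F y, φ c.1 (vy c.1 y) * F y, Qj c.1 y, φ c.1 (vy c.1 y) * Qj c.1 y] k := ⟨_, rfl⟩
  obtain ⟨u4, hu4⟩ : ∃ u4 : (Fin s × Lb ι α P.d x0) → Fin 4 → (ι → α) → ℝ, u4 = fun c k x =>
    (if c.1 ∈ S then χ c.1 c.2 x else 0) *
      ![(θ c.1 c.2 - φ c.1 (vx c.1 x)) * Pj c.1 x, Pj c.1 x, θ c.1 c.2 - φ c.1 (vx c.1 x), 1] k :=
    ⟨_, rfl⟩
  obtain ⟨v4, hv4⟩ : ∃ v4 : (Fin s × Lb ι α P.d x0) → Fin 4 → (ι → α → Bool) → ℝ,
    v4 = fun c k y => lv c.2 y *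
      ![F y, max (φ c.1 (vy c.1 y) - θ c.1 c.2) 0 * F y, Qj c.1 y,
        max (φ c.1 (vy c.1 y) - θ c.1 c.2) 0 * Qj c.1 y] k := ⟨_, rfl⟩
  have hcardL : Fintype.card ((Fin s × Lb ι α P.d x0) × Fin 4) ≤
      4 * (s * (1 + Fintype.card ι * Fintype.card α) ^ P.d) := by
    rw [Fintype.card_prod, Fintype.card_prod, Fintype.card_fin, Fintype.card_fin, mul_comm]
    exact Nat.mul_le_mul_left _ (Nat.mul_le_mul_left _ (card_lb_le _ x0))
  refine node P A (CC := (Fin s × Lb ι α P.d x0) × Fin 4)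
    (RR := ((Fin s × Lb ι α P.d x0) × Fin 4) ⊕ Fin R) (hcardL.trans hC)
    (by
      rw [Fintype.card_sum, Fintype.card_fin]
      omega) hI X hXne hX0 hXs hXη Y hYI hY (fun c => c.1.2.1.1) (fun c => c.1.2.1.2)
    (fun c => c.1.2.2.1.trans (by have := P.hdD; omega)) (fun c x => f4 c.1 c.2 x)
    (fun c y => g4 c.1 c.2 y) ?_ ?_
    (fun o x => match o with
      | Sum.inl c => u4 c.1 c.2 x
      | Sum.inr r => U r x)
    (fun o y => match o with
      | Sum.inl c => v4 c.1 c.2 y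
      | Sum.inr r => V r y) ?_ ?_ V0 hV0 ?_
  · rintro ⟨⟨j, q⟩, k⟩ x _ hne i hi
    have h1 : lab x0 x (Jj j x) = q := by
      by_contra hcon
      apply hne
      rw [hf4]
      simp only
      rw [hχ, if_neg hcon, ite_self, zero_mul]
    have h2 : i ∈ q.1.1 := hi
    show x i = q.1.2 i
    rw [← h1] at h2 ⊢
    exact lab_agree x0 x _ i h2
  · rintro ⟨⟨j, q⟩, k⟩ y _ hne hl
    apply hne
    rw [hg4]
    simp only
    have hl' : Live A q.1.1 (zz q.1.2 y) := hl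
    rw [hlv, if_pos hl', sub_self, zero_mul]
  · rintro (⟨⟨j, q⟩, k⟩ | r) x hx
    · show 0 ≤ u4 (j, q) k x
      rw [hu4]
      simp only
      by_cases hj : j ∈ S
      · rw [if_pos hj, hχ]
        by_cases hq : lab x0 x (Jj j x) = q
        · rw [if_pos hq, one_mul]
          have h1 := hθ1 j q x hx hq
          have h2 := hPj j x hx
          have h3 : 0 ≤ θ j q - φ j (vx j x) := by linarith
          fin_cases k
          · exact mul_nonneg h3 h2
          · exact h2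
          · exact h3
          · exact zero_le_one
        · rw [if_neg hq, zero_mul]
      · rw [if_neg hj, zero_mul]
    · exact hU r x hx
  · rintro (⟨⟨j, q⟩, k⟩ | r) y hy
    · show 0 ≤ v4 (j, q) k y
      rw [hv4]
      simp only
      refine mul_nonneg (hlv0 _ _) ?_
      have h1 := hF y hy
      have h2 := hQj j y hy
      have h3 : 0 ≤ max (φ j (vy j y) - θ j q) 0 := le_max_right _ _
      fin_cases k
      · exact h1
      · exact mul_nonneg h3 h1
      · exact h2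
      · exact mul_nonneg h3 h2
    · exact hV r y hy
  · intro x hx y hy
    rw [Fintype.sum_sum_type]
    show ∑ c : (Fin s × Lb ι α P.d x0) × Fin 4, f4 c.1 c.2 x * g4 c.1 c.2 y =
      V0 y + (∑ c : (Fin s × Lb ι α P.d x0) × Fin 4, u4 c.1 c.2 x * v4 c.1 c.2 y +
        ∑ r, U r x * V r y)
    have h0 := hrel x hx y hy
    have key : ∀ F' : Fin s × Lb ι α P.d x0 → Fin 4 → ℝ,
        ∑ c : (Fin s × Lb ι α P.d x0) × Fin 4, F' c.1 c.2 =
        ∑ j, ∑ q, ∑ k, F' (j, q) k := by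
      intro F'
      rw [Fintype.sum_prod_type, Fintype.sum_prod_type]
    rw [key (fun c k => f4 c k x * g4 c k y), key (fun c k => u4 c k x * v4 c k y)]
    have h1 : ∑ j, ∑ q, ∑ k, f4 (j, q) k x * g4 (j, q) k y -
        ∑ j, ∑ q, ∑ k, u4 (j, q) k x * v4 (j, q) k y =
        ∑ j ∈ S, (φ j (vx j x) - φ j (vy j y)) * (Pj j x * F y + Qj j y) := by
      rw [← Finset.sum_sub_distrib, ← Finset.sum_subset (Finset.subset_univ S)]
      · refine Finset.sum_congr rfl fun j hj => ?_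
        rw [← Finset.sum_sub_distrib]
        rw [Finset.sum_eq_single (lab x0 x (Jj j x))]
        · rw [Fin.sum_univ_four, Fin.sum_univ_four, hf4, hg4, hu4, hv4]
          simp only [if_pos hj]
          have hχ1 : χ j (lab x0 x (Jj j x)) x = 1 := by rw [hχ, if_pos rfl]
          rw [hχ1]
          have hlv1 : lv (lab x0 x (Jj j x)) y = 0 ∨ (lv (lab x0 x (Jj j x)) y = 1 ∧
              max (φ j (vy j y) - θ j (lab x0 x (Jj j x))) 0 =
                φ j (vy j y) - θ j (lab x0 x (Jj j x))) := by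
            rw [hlv]
            split_ifs with hl
            · refine Or.inr ⟨rfl, max_eq_left ?_⟩
              have := hθ2 j _ x hx rfl hj y hy hl
              linarith
            · exact Or.inl rfl
          simp only [Matrix.cons_val_zero, Matrix.cons_val_one, Matrix.cons_val]
          rcases hlv1 with h2 | ⟨h2, h3⟩
          · rw [h2]
            ring
          · rw [h2, h3]
            ring
        · intro q _ hq
          rw [hf4, hu4]
          simp only [hχ, if_neg (Ne.symm hq), ite_self, zero_mul, Finset.sum_const_zero, sub_self]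
        · intro h
          exact absurd (Finset.mem_univ _) h
      · intro j _ hj
        rw [hf4, hu4]
        simp only [if_neg hj, zero_mul, Finset.sum_const_zero, sub_self]
    linarith

end Pool.Agent.H58.LM
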