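import Mathlib

/-! Circuits over the real numbers with linear programming gates: the definitions used in the
statements. -/

set_option autoImplicit false

namespace Pool.Agent.H58.LM

open Classical in
/-- The number 1 if `P` is true and 0 if it is false. -/
noncomputable def bit (P : Prop) : ℝ := if P then 1 else 0

/-- A linear programme whose constraints and objective function depend on real numbers `a j`. It
has any number `dim` of real unknowns `p`, any number of linear equations (`p` is in the affine
subspace `eqs`), the `num` inequalities `0 ≤ ineq r p + ∑ j, rhs r j * a j`, and the objective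
function `obj p + ∑ j, a j * wt j p`, to be maximised. -/
structure Program (T : Type) where
  /-- the number of unknowns -/
  dim : ℕ
  /-- the number of inequalities -/
  num : ℕ
  /-- the linear equations -/
  eqs : AffineSubspace ℝ (Fin dim → ℝ)
  /-- the inequalities: an affine function of the unknowns ... -/
  ineq : Fin num → (Fin dim → ℝ) →ᵃ[ℝ] ℝ
  /-- ... and nonnegative coefficients of the numbers `a j` -/
  rhs : Fin num → T → ℝ
  rhs_nonneg : ∀ r j, 0 ≤ rhs r j
  /-- the objective function: an affine function of the unknowns ... -/
  obj : (Fin dim → ℝ) →ᵃ[ℝ] ℝ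
  /-- ... and affine functions which are multiplied by the numbers `a j` -/
  wt : T → (Fin dim → ℝ) →ᵃ[ℝ] ℝ

/-- `p` is a feasible point at the numbers `a j`, `j` in `S`. -/
def Program.Feasible {T : Type} (P : Program T) (S : Finset T) (a : T → ℝ)
    (p : Fin P.dim → ℝ) : Prop :=
  p ∈ P.eqs ∧ ∀ r, 0 ≤ P.ineq r p + ∑ j ∈ S, P.rhs r j * a j

/-- the objective function -/
noncomputable def Program.objective {T : Type} (P : Program T) (S : Finset T) (a : T → ℝ)
    (p : Fin P.dim → ℝ) : ℝ :=
  P.obj p + ∑ j ∈ S, a j * P.wt j p

/-- The functions `wt j` are nonnegative at all feasible points, so that the optimum is a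
nondecreasing function of the numbers `a j`. -/
def Program.Mono {T : Type} (P : Program T) (S : Finset T) : Prop :=
  ∀ a p, P.Feasible S a p → ∀ j ∈ S, 0 ≤ P.wt j p

/-- The optimum of the programme, cut off at `lo` and at `hi`: it is `lo` if there is no feasible
point or the optimum is smaller than `lo`, and `hi` if the optimum is larger than `hi`. -/
noncomputable def Program.value {T : Type} (P : Program T) (S : Finset T) (a : T → ℝ)
    (lo hi : ℝ) : ℝ :=
  sSup {t | t ≤ hi ∧ (t = lo ∨ ∃ p, P.Feasible S a p ∧ t ≤ P.objective S a p)}

/-- A circuit with `s` gates on graphs with vertex set `Fin n`, in topological order: gate `i`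
reads the earlier gates in `ins i` and has the real value `val i G` at the graph `G`. It is one of
the following: the test whether two fixed vertices are adjacent (value 1 or 0); a maximum of any
number of nondecreasing functions of at most six gates each (at every point `a` the value `φ a` is
forced by at most six coordinates); a linear programme with at most `R` inequalities; or one of the
special gates, which compute arbitrary Boolean functions of gates with values 0 and 1. -/
structure Circuit (n s R : ℕ) where
  /-- the value of a gate -/
  val : Fin s → SimpleGraph (Fin n) → ℝ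
  /-- the gates read by a gate -/
  ins : Fin s → Finset (Fin s)
  /-- the special gates -/
  special : Finset (Fin s)
  lt : ∀ i, ∀ j ∈ ins i, j < i
  bit_out : ∀ i ∈ special, ∀ G, val i G = 0 ∨ val i G = 1
  bit_in : ∀ i ∈ special, ∀ j ∈ ins i, ∀ G, val j G = 0 ∨ val j G = 1
  gate : ∀ i,
    (∃ u v, ∀ G, val i G = bit (G.Adj u v)) ∨
    (∃ φ : (Fin s → ℝ) → ℝ,
      (∀ a, ∃ S ⊆ ins i, S.card ≤ 6 ∧ ∀ b, (∀ j ∈ S, a j ≤ b j) → φ a ≤ φ b) ∧
      ∀ G, val i G = φ fun j => val j G) ∨
    (∃ (P : Program (Fin s)) (lo hi : ℝ), P.num ≤ R ∧ P.Mono (ins i) ∧ lo ≤ hi ∧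
      ∀ G, val i G = P.value (ins i) (fun j => val j G) lo hi) ∨
    (i ∈ special ∧ ∀ G H, (∀ j ∈ ins i, val j G = val j H) → val i G = val i H)

/-- The gates that are read by a special gate. -/
def Circuit.watched {n s R : ℕ} (C : Circuit n s R) : Finset (Fin s) :=
  C.special.biUnion C.ins

/-- `Quantified q Q f` is the statement `Q₀ y₀ Q₁ y₁ ... f y` about the bits `y`, where `Q i` is
an existential quantifier if it is true and a universal quantifier if it is false. -/
def Quantified : (q : ℕ) → (Fin q → Bool) → ((Fin q → Bool) → Prop) → Prop
  | 0, _, f => f Fin.elim0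
  | q + 1, Q, f =>
    if Q 0 then ∃ b, Quantified q (fun i => Q i.succ) (fun y => f (Fin.cons b y))
    else ∀ b, Quantified q (fun i => Q i.succ) (fun y => f (Fin.cons b y))

end Pool.Agent.H58.LM
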