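import Pool.Agent.H58.LM.Fix

/-! Cliques of fixed size: the asymptotic form. -/

set_option autoImplicit false
set_option linter.unusedSectionVars false

namespace Pool.Agent.H58.LM

open Finset Filter

/-- Circuits with few gates do not decide `k`-clique. -/
theorem few_gates {n k s R : ℕ} (hk : 2 ≤ k) (hkn : k ≤ n) (hs : s + 1 < n)
    (C : Circuit n s R) (out : Fin s) (θ : ℝ)
    (hC : (∀ G : SimpleGraph (Fin n), θ ≤ C.val out G ↔ ¬ G.CliqueFree k) ∨
      (∀ G : SimpleGraph (Fin n), θ ≤ C.val out G ↔ G.CliqueFree k)) : False := by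
  classical
  obtain ⟨z0, hz0⟩ : ∃ z0 : Fin n, z0 = ⟨0, by omega⟩ := ⟨_, rfl⟩
  have hch : ∀ i : Fin s, ∃ p : Fin n × Fin n, (∃ u v, ∀ G, C.val i G = bit (G.Adj u v)) →
      ∀ G, C.val i G = bit (G.Adj p.1 p.2) := by
    intro i
    by_cases h : ∃ u v, ∀ G, C.val i G = bit (G.Adj u v)
    · obtain ⟨u, v, h'⟩ := h
      exact ⟨(u, v), fun _ => h'⟩
    · exact ⟨(z0, z0), fun h' => absurd h' h⟩
  choose p hp using hch
  -- a pair which is not tested
  obtain ⟨j, hj0, hj⟩ : ∃ j : Fin n, j ≠ z0 ∧ ∀ i, s((p i).1, (p i).2) ≠ s(z0, j) := by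
    by_contra hcon
    push Not at hcon
    have h1 : (univ.erase z0).card ≤ (univ : Finset (Fin s)).card := by
      have h2 : ∀ j : Fin n, ∃ i : Fin s, j ≠ z0 → s((p i).1, (p i).2) = s(z0, j) := by
        intro j
        by_cases h : j ≠ z0
        · obtain ⟨i, hi⟩ := hcon j h
          exact ⟨i, fun _ => hi⟩
        · exact ⟨out, fun h' => absurd h' h⟩
      choose f hf using h2
      refine Finset.card_le_card_of_injOn f (fun _ _ => Finset.mem_coe.2 (Finset.mem_univ _)) ?_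
      intro a ha b hb hab
      have h3 := hf a (Finset.ne_of_mem_erase (Finset.mem_coe.1 ha))
      have h4 := hf b (Finset.ne_of_mem_erase (Finset.mem_coe.1 hb))
      rw [hab, h4] at h3
      exact (Sym2.congr_right.1 h3).symm
    rw [Finset.card_erase_of_mem (Finset.mem_univ _), Finset.card_univ, Finset.card_univ,
      Fintype.card_fin, Fintype.card_fin] at h1
    omega
  -- graphs which differ only there
  have key : ∀ G H : SimpleGraph (Fin n), (∀ x y, s(x, y) ≠ s(z0, j) → (G.Adj x y ↔ H.Adj x y)) →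
      ∀ m : ℕ, ∀ i : Fin s, i.1 < m → C.val i G = C.val i H := by
    intro G H hGH m
    induction m with
    | zero =>
      intro i hi
      omega
    | succ m ih =>
      intro i hi
      have ih' : ∀ l ∈ C.ins i, C.val l G = C.val l H := by
        intro l hl
        have h1 : l.1 < i.1 := C.lt i l hl
        exact ih l (by omega)
      rcases C.plain_or i with (h | ⟨Φ, hΦ, h⟩) | ⟨-, h⟩
      · rw [hp i h, hp i h]
        exact bit_congr (hGH _ _ (hj i))
      · rw [h, h]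
        exact hΦ.congr ih'
      · exact h G H ih'
  -- a clique through the pair
  obtain ⟨K, hK1, hK2, hK3⟩ := Finset.exists_subsuperset_card_eq
    (s := {z0, j}) (t := (univ : Finset (Fin n))) (n := k) (Finset.subset_univ _)
    ((Finset.card_le_two).trans hk) (by rw [Finset.card_univ, Fintype.card_fin]; exact hkn)
  have hzK : z0 ∈ K := hK1 (by simp)
  have hjK : j ∈ K := hK1 (by simp)
  let H : SimpleGraph (Fin n) :=
    { Adj := fun x y => x ≠ y ∧ x ∈ K ∧ y ∈ K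
      symm := ⟨fun _ _ h => ⟨h.1.symm, h.2.2, h.2.1⟩⟩
      loopless := ⟨fun _ h => h.1 rfl⟩ }
  let G : SimpleGraph (Fin n) :=
    { Adj := fun x y => (x ≠ y ∧ x ∈ K ∧ y ∈ K) ∧ s(x, y) ≠ s(z0, j)
      symm := ⟨fun x y h => ⟨⟨h.1.1.symm, h.1.2.2, h.1.2.1⟩, by rw [Sym2.eq_swap]; exact h.2⟩⟩
      loopless := ⟨fun _ h => h.1.1 rfl⟩ }
  have hH : ¬ H.CliqueFree k := by
    intro h
    refine h K ⟨?_, hK3⟩
    intro x hx y hy hxy
    exact ⟨hxy, Finset.mem_coe.1 hx, Finset.mem_coe.1 hy⟩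
  have hG : G.CliqueFree k := by
    intro K' hK'
    have h1 : K' ⊆ K := by
      intro x hx
      obtain ⟨y, hy, hyx⟩ := Finset.exists_mem_ne (by rw [hK'.card_eq]; omega : 1 < K'.card) x
      exact (hK'.isClique (Finset.mem_coe.2 hx) (Finset.mem_coe.2 hy) (Ne.symm hyx)).1.2.1
    have h2 : K' = K := Finset.eq_of_subset_of_card_le h1 (by rw [hK'.card_eq, hK3])
    rw [← h2] at hzK hjK
    exact (hK'.isClique (Finset.mem_coe.2 hzK) (Finset.mem_coe.2 hjK) (Ne.symm hj0)).2 rfl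
  have hval : C.val out G = C.val out H := by
    refine key G H (fun x y hxy => ?_) s out out.2
    constructor
    · exact fun h => h.1
    · exact fun h => ⟨h, hxy⟩
  rcases hC with hC | hC
  · have h1 := (hC H).2 hH
    rw [← hval, hC] at h1
    exact h1 hG
  · have h1 := (hC G).2 hG
    rw [hval, hC] at h1
    exact hH h1

/-- `n ^ a` grows faster than a constant -/
theorem ev_const (C : ℝ) {r : ℝ} (hr : 0 < r) : ∀ᶠ n : ℕ in atTop, C ≤ (n : ℝ) ^ r :=
  ((tendsto_rpow_atTop hr).comp tendsto_natCast_atTop_atTop).eventually_ge_atTop C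

theorem sq_le_two_pow {u : ℕ} (hu : 4 ≤ u) : u ^ 2 ≤ 2 ^ u := by
  induction u, hu using Nat.le_induction with
  | base => norm_num
  | succ u hu ih =>
    rw [pow_succ 2]
    nlinarith

theorem exists_bound (a b : ℕ) : ∃ Q : ℕ, 1 ≤ Q ∧ ∀ u < a, (2 * 2 ^ u) ^ b ≤ Q := by
  refine ⟨(2 ^ a) ^ b, Nat.one_le_pow _ _ (by positivity), fun u hu => ?_⟩
  refine Nat.pow_le_pow_left ?_ b
  rw [← pow_succ']
  exact Nat.pow_le_pow_right (by norm_num) hu

/-- the choice of the parameters -/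
theorem exists_params {μ : ℝ} (hμ : μ < 2) : ∃ c : ℝ, 0 < c ∧ ∃ n₀ : ℕ, ∀ n ≥ n₀, ∀ k : ℕ,
    2 ≤ k → (k : ℝ) ≤ (n : ℝ) ^ c → ∀ M : ℕ, (M : ℝ) ≤ (n : ℝ) ^ (c * k) →
    (M + 1 < n ∧ k ≤ n) ∨
    ∃ w d e u : ℕ, 8 ≤ e ∧ 4320 * e ≤ k ∧ 2 * k ≤ n ∧ 1 + 2 * (4320 * e) ≤ 2 ^ u ∧
      u * (7872 * e + 80) ≤ 2 ^ u ∧ 4320 * e * (2 ^ u) ^ 68 ≤ w ∧ 2 ≤ d ∧ d ≤ w ∧
      2 * w ^ (d ^ 2 + d + 3) ≤ n ∧ 2 * w ^ (2 * d ^ 2 - d) < (2 ^ u) ^ (20 * e) ∧
      M + 1 ≤ (2 ^ u) ^ (10 * e) ∧ (n : ℝ) ^ μ ≤ ((w ^ (2 * d ^ 2 - d) : ℕ) : ℝ) := by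
  classical
  -- d
  obtain ⟨d, hd2, hd⟩ : ∃ d : ℕ, 2 ≤ d ∧ max μ 0 * ((d : ℝ) ^ 2 + d + 3) < 2 * (d : ℝ) ^ 2 - d := by
    have hμ' : max μ 0 < 2 := max_lt hμ (by norm_num)
    have hμ0 : 0 ≤ max μ 0 := le_max_right _ _
    obtain ⟨d, hd⟩ := exists_nat_gt (12 / (2 - max μ 0) + 2)
    have h1 : 0 < 2 - max μ 0 := by linarith
    have h2 : 0 < 12 / (2 - max μ 0) := by positivity
    have hd2 : (2 : ℝ) < d := by linarith
    refine ⟨d, by exact_mod_cast hd2.le, ?_⟩
    have h3 : 12 < (2 - max μ 0) * d := by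
      have : 12 / (2 - max μ 0) < d := by linarith
      rwa [div_lt_iff₀' h1] at this
    have h4 : 12 * (d : ℝ) < (2 - max μ 0) * d ^ 2 := by nlinarith
    nlinarith
  obtain ⟨E, hE⟩ : ∃ E, E = d ^ 2 + d + 3 := ⟨_, rfl⟩
  obtain ⟨F, hF⟩ : ∃ F, F = 2 * d ^ 2 - d := ⟨_, rfl⟩
  have hd4 : 4 ≤ d ^ 2 := by nlinarith
  have hE9 : 9 ≤ E := by omega
  have hFE : F ≤ 2 * E := by omega
  have hE0 : (0 : ℝ) < E := by
    have : 0 < E := by omega
    exact_mod_cast this
  have hEr : (E : ℝ) = (d : ℝ) ^ 2 + d + 3 := by rw [hE]; push_cast; ring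
  have hFr : (F : ℝ) = 2 * (d : ℝ) ^ 2 - d := by
    rw [hF, Nat.cast_sub (by nlinarith)]
    push_cast
    ring
  rw [← hEr, ← hFr] at hd
  have hμF : max μ 0 < F / E := by rwa [lt_div_iff₀ hE0]
  obtain ⟨c, hc⟩ : ∃ c : ℝ, c = 1 / (250000 * E) := ⟨_, rfl⟩
  have hc0 : 0 < c := by rw [hc]; positivity
  have hcE : c * E = 1 / 250000 := by
    rw [hc]
    field_simp
  have hc1 : c ≤ 1 / 250000 := by
    rw [← hcE]
    have : (1 : ℝ) ≤ E := by
      have : 1 ≤ E := by omega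
      exact_mod_cast this
    nlinarith
  refine ⟨c, hc0, ?_⟩
  -- conditions for large n
  obtain ⟨Q, hQ1, hQ⟩ := exists_bound 9 70
  have c1 := ev_const (4 * (Q : ℝ) + 4 * d) (show 0 < 1 / (E : ℝ) by positivity)
  have c2 := ev_const ((4 : ℝ) ^ F) (show 0 < (F : ℝ) / E - max μ 0 by linarith)
  have c3 := ev_const 4 (show (0 : ℝ) < 1 / 2 by norm_num)
  obtain ⟨n₀, hn₀⟩ := eventually_atTop.mp ((c1.and c2).and c3)
  refine ⟨n₀, fun n hn k hk hkn M hM => ?_⟩
  obtain ⟨⟨g1, g2⟩, g3⟩ := hn₀ n hn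
  have hn0 : (0 : ℝ) < n := by
    rcases Nat.eq_zero_or_pos n with h | h
    · rw [h, Nat.cast_zero, Real.zero_rpow (by norm_num)] at g3
      norm_num at g3
    · exact_mod_cast h
  have hn1 : (1 : ℝ) ≤ n := by
    have : 0 < n := by exact_mod_cast hn0
    exact_mod_cast this
  have hhalf : (n : ℝ) ^ (1 / 2 : ℝ) * (n : ℝ) ^ (1 / 2 : ℝ) = n := by
    rw [← Real.rpow_add hn0]
    norm_num
  have h4half : 4 * (n : ℝ) ^ (1 / 2 : ℝ) ≤ n := by
    calc 4 * (n : ℝ) ^ (1 / 2 : ℝ) ≤ (n : ℝ) ^ (1 / 2 : ℝ) * (n : ℝ) ^ (1 / 2 : ℝ) :=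
          mul_le_mul_of_nonneg_right g3 (by positivity)
      _ = n := hhalf
  have hk2n : 2 * k ≤ n := by
    have h1 : (k : ℝ) ≤ (n : ℝ) ^ (1 / 2 : ℝ) :=
      hkn.trans (Real.rpow_le_rpow_of_exponent_le hn1 (by linarith))
    have h2 : ((2 * k : ℕ) : ℝ) ≤ n := by
      push_cast
      linarith
    exact_mod_cast h2
  rcases Nat.lt_or_ge k (4320 * (7 * F + 2)) with hkK | hkK
  · left
    refine ⟨?_, by omega⟩
    have h1 : c * k ≤ 1 / 2 := by
      have h2 : (k : ℝ) ≤ 64800 * E := by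
        have h3 : k ≤ 64800 * E := by omega
        exact_mod_cast h3
      have h3 : c * k ≤ c * (64800 * E) := mul_le_mul_of_nonneg_left h2 hc0.le
      have h4 : c * (64800 * E) = 64800 * (c * E) := by ring
      rw [h4, hcE] at h3
      linarith
    have h2 : (M : ℝ) ≤ (n : ℝ) ^ (1 / 2 : ℝ) :=
      hM.trans (Real.rpow_le_rpow_of_exponent_le hn1 h1)
    have h3 : ((M + 1 : ℕ) : ℝ) < n := by
      push_cast
      linarith
    exact_mod_cast h3
  · right
    obtain ⟨x, hx⟩ : ∃ x, x = (n : ℝ) ^ (1 / (E : ℝ)) := ⟨_, rfl⟩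
    have hx0 : 0 < x := by rw [hx]; positivity
    rw [← hx] at g1
    have h700 : (1 : ℝ) ≤ Q := by exact_mod_cast hQ1
    have hd0 : (0 : ℝ) ≤ d := Nat.cast_nonneg _
    have hx4 : 4 ≤ x := by linarith
    have hxE : x ^ E = n := by
      rw [hx, ← Real.rpow_natCast, ← Real.rpow_mul hn0.le, one_div_mul_cancel hE0.ne',
        Real.rpow_one]
    obtain ⟨w, hw⟩ : ∃ w, w = ⌊x / 2⌋₊ := ⟨_, rfl⟩
    have hwx : (w : ℝ) ≤ x / 2 := by
      rw [hw]
      exact Nat.floor_le (by positivity)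
    have hxw : x / 4 ≤ w := by
      have h1 : x / 2 < w + 1 := by
        rw [hw]
        exact Nat.lt_floor_add_one _
      linarith
    have hw700 : Q ≤ w := by
      have : (Q : ℝ) ≤ w := by linarith
      exact_mod_cast this
    have hdw : d ≤ w := by
      have : (d : ℝ) ≤ w := by linarith
      exact_mod_cast this
    -- u
    obtain ⟨u, hu⟩ : ∃ u, u = Nat.log (2 ^ 70) w := ⟨_, rfl⟩
    have hb : 1 < 2 ^ 70 := by norm_num
    have hu1 : (2 ^ u) ^ 70 ≤ w := by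
      have h1 := Nat.pow_log_le_self (2 ^ 70) (x := w) (by omega)
      rw [← hu] at h1
      calc (2 ^ u) ^ 70 = (2 ^ 70) ^ u := by rw [← pow_mul, ← pow_mul, mul_comm]
        _ ≤ w := h1
    have hu2 : w < (2 * 2 ^ u) ^ 70 := by
      have h1 := Nat.lt_pow_succ_log_self hb w
      rw [← hu] at h1
      calc w < (2 ^ 70) ^ (u + 1) := h1
        _ = (2 * 2 ^ u) ^ 70 := by
          rw [← pow_succ', ← pow_mul, ← pow_mul, mul_comm]
    have hu9 : 9 ≤ u := by
      by_contra hcon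
      push Not at hcon
      exact absurd (hu2.trans_le ((hQ u hcon).trans hw700)) (lt_irrefl _)
    obtain ⟨U, hU⟩ : ∃ U, U = 2 ^ u := ⟨_, rfl⟩
    have hU512 : 512 ≤ U := by
      rw [hU]
      calc 512 = 2 ^ 9 := by norm_num
        _ ≤ 2 ^ u := Nat.pow_le_pow_right (by norm_num) hu9
    have hwU : w < U ^ 140 := by
      calc w < (2 * 2 ^ u) ^ 70 := hu2
        _ ≤ (U * U) ^ 70 := by
          refine Nat.pow_le_pow_left ?_ 70
          rw [← hU]
          exact Nat.mul_le_mul_right _ (by omega)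
        _ = U ^ 140 := by ring
    have hUr : (512 : ℝ) ≤ U := by exact_mod_cast hU512
    have hU0 : (0 : ℝ) < U := by linarith
    have hU1 : (1 : ℝ) ≤ U := by linarith
    have hxU : x ≤ (U : ℝ) ^ 142 := by
      have h1 : (w : ℝ) ≤ (U : ℝ) ^ 140 := by exact_mod_cast hwU.le
      calc x ≤ 4 * w := by linarith
        _ ≤ 4 * (U : ℝ) ^ 140 := by linarith
        _ ≤ (U : ℝ) ^ 2 * (U : ℝ) ^ 140 := by
          refine mul_le_mul_of_nonneg_right ?_ (by positivity)
          nlinarith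
        _ = (U : ℝ) ^ 142 := by ring
    have hnU : (n : ℝ) ≤ (U : ℝ) ^ ((142 * E : ℕ) : ℝ) := by
      rw [Real.rpow_natCast, pow_mul, ← hxE]
      exact pow_le_pow_left₀ hx0.le hxU E
    have hnc : ∀ b : ℝ, 0 ≤ b → (n : ℝ) ^ (c * b) ≤ (U : ℝ) ^ (b / 1728) := by
      intro b hb0
      calc (n : ℝ) ^ (c * b) ≤ ((U : ℝ) ^ ((142 * E : ℕ) : ℝ)) ^ (c * b) :=
            Real.rpow_le_rpow hn0.le hnU (by positivity)
        _ = (U : ℝ) ^ (142 * b * (c * E)) := by
            rw [← Real.rpow_mul hU0.le]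
            congr 1
            push_cast
            ring
        _ ≤ (U : ℝ) ^ (b / 1728) := by
            refine Real.rpow_le_rpow_of_exponent_le hU1 ?_
            rw [hcE]
            linarith
    -- e
    obtain ⟨e, he⟩ : ∃ e, e = k / 4320 := ⟨_, rfl⟩
    have he1 : 4320 * e ≤ k := by
      rw [he]
      exact Nat.mul_div_le _ _
    have he2 : 7 * F + 2 ≤ e := by
      rw [he, Nat.le_div_iff_mul_le (by norm_num)]
      linarith
    have hdd : 2 * d ≤ d ^ 2 := by nlinarith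
    have hF6 : 6 ≤ F := by omega
    have he3 : k ≤ 8640 * e := by omega
    have hk9 : 9 * k ^ 2 ≤ U := by
      have h1 : (k : ℝ) ≤ (U : ℝ) ^ ((1 : ℝ) / 1728) := by
        have h2 := hnc 1 zero_le_one
        rw [mul_one] at h2
        exact hkn.trans h2
      have h2 : (9 : ℝ) ≤ (U : ℝ) ^ ((1 : ℝ) / 2) := by
        have h3 : (9 : ℝ) = (81 : ℝ) ^ ((1 : ℝ) / 2) := by
          rw [show (81 : ℝ) = 9 ^ (2 : ℝ) by norm_num, ← Real.rpow_mul (by norm_num)]
          norm_num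
        rw [h3]
        exact Real.rpow_le_rpow (by norm_num) (by linarith) (by norm_num)
      have h3 : (k : ℝ) ^ 2 ≤ (U : ℝ) ^ ((1 : ℝ) / 2) := by
        calc (k : ℝ) ^ 2 ≤ ((U : ℝ) ^ ((1 : ℝ) / 1728)) ^ 2 :=
              pow_le_pow_left₀ (Nat.cast_nonneg _) h1 2
          _ = (U : ℝ) ^ ((1 : ℝ) / 1728 * 2) := by
              rw [← Real.rpow_natCast, ← Real.rpow_mul hU0.le]
              norm_num
          _ ≤ (U : ℝ) ^ ((1 : ℝ) / 2) :=
              Real.rpow_le_rpow_of_exponent_le hU1 (by norm_num)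
      have h4 : ((9 * k ^ 2 : ℕ) : ℝ) ≤ U := by
        push_cast
        calc (9 : ℝ) * (k : ℝ) ^ 2 ≤ (U : ℝ) ^ ((1 : ℝ) / 2) * (U : ℝ) ^ ((1 : ℝ) / 2) :=
              mul_le_mul h2 h3 (by positivity) (by positivity)
          _ = U := by
              rw [← Real.rpow_add hU0]
              norm_num
      exact_mod_cast h4
    have hkk : k * 1 ≤ k * k := Nat.mul_le_mul_left _ (by omega)
    have hkU : 3 * k + 1 ≤ U := by
      have : k ^ 2 = k * k := sq k
      omega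
    refine ⟨w, d, e, u, by omega, he1, hk2n, by rw [← hU]; omega, ?_, ?_, hd2, hdw, ?_, ?_, ?_, ?_⟩
    · have h1 : 7872 * e + 80 ≤ 3 * k := by omega
      have h2 : (u * (7872 * e + 80)) ^ 2 ≤ U ^ 2 := by
        calc (u * (7872 * e + 80)) ^ 2 ≤ (u * (3 * k)) ^ 2 := by gcongr
          _ = u ^ 2 * (9 * k ^ 2) := by ring
          _ ≤ 2 ^ u * U := Nat.mul_le_mul (sq_le_two_pow (by omega)) hk9
          _ = U ^ 2 := by rw [← hU]; ring
      rw [← hU]
      exact (Nat.pow_le_pow_iff_left (by norm_num)).mp h2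
    · rw [← hU]
      calc 4320 * e * U ^ 68 ≤ (U * U) * U ^ 68 := by
            refine Nat.mul_le_mul_right _ ?_
            calc 4320 * e ≤ k := he1
              _ ≤ U * 1 := by omega
              _ ≤ U * U := Nat.mul_le_mul_left _ (by omega)
        _ = U ^ 70 := by ring
        _ ≤ w := by rw [hU]; exact hu1
    · rw [← hE]
      have h1 : ((2 * w ^ E : ℕ) : ℝ) ≤ n := by
        push_cast
        have h2 : (2 : ℝ) ≤ 2 ^ E := by
          calc (2 : ℝ) = 2 ^ 1 := by norm_num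
            _ ≤ 2 ^ E := pow_le_pow_right₀ (by norm_num) (by omega)
        calc 2 * (w : ℝ) ^ E ≤ 2 ^ E * (x / 2) ^ E :=
              mul_le_mul h2 (pow_le_pow_left₀ (Nat.cast_nonneg _) hwx E) (by positivity)
                (by positivity)
          _ = x ^ E := by rw [← mul_pow]; congr 1; ring
          _ = n := hxE
      exact_mod_cast h1
    · rw [← hF, ← hU]
      calc 2 * w ^ F ≤ 2 * (U ^ 140) ^ F := by
            refine Nat.mul_le_mul_left _ (Nat.pow_le_pow_left hwU.le F)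
        _ < U * (U ^ 140) ^ F := Nat.mul_lt_mul_of_pos_right (by omega) (by positivity)
        _ = U ^ (140 * F + 1) := by rw [← pow_mul]; ring
        _ ≤ U ^ (20 * e) := Nat.pow_le_pow_right (by omega) (by omega)
    · rw [← hU]
      have h1 : (M : ℝ) ≤ (U : ℝ) ^ ((k : ℝ) / 1728) := hM.trans (hnc k (Nat.cast_nonneg _))
      have hk1728 : (1 : ℝ) ≤ (k : ℝ) / 1728 := by
        rw [le_div_iff₀ (by norm_num)]
        have : 1728 ≤ k := by omega
        exact_mod_cast (by omega : 1 * 1728 ≤ k)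
      have h2 : ((M + 1 : ℕ) : ℝ) ≤ (U ^ (10 * e) : ℕ) := by
        push_cast
        have h3 : (1 : ℝ) ≤ (U : ℝ) ^ ((k : ℝ) / 1728) :=
          Real.one_le_rpow hU1 (by linarith)
        calc (M : ℝ) + 1 ≤ 2 * (U : ℝ) ^ ((k : ℝ) / 1728) := by linarith
          _ ≤ (U : ℝ) ^ (1 : ℝ) * (U : ℝ) ^ ((k : ℝ) / 1728) := by
              rw [Real.rpow_one]
              exact mul_le_mul_of_nonneg_right (by linarith) (by positivity)
          _ = (U : ℝ) ^ (1 + (k : ℝ) / 1728) := (Real.rpow_add hU0 _ _).symm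
          _ ≤ (U : ℝ) ^ ((10 * e : ℕ) : ℝ) := by
              refine Real.rpow_le_rpow_of_exponent_le hU1 ?_
              have h4 : (k : ℝ) ≤ 8640 * e := by exact_mod_cast he3
              push_cast
              linarith
          _ = (U : ℝ) ^ (10 * e) := Real.rpow_natCast _ _
      exact_mod_cast h2
    · rw [← hF]
      push_cast
      have h1 : (n : ℝ) ^ ((F : ℝ) / E) ≤ 4 ^ F * (w : ℝ) ^ F := by
        calc (n : ℝ) ^ ((F : ℝ) / E) = x ^ F := by
              rw [hx, ← Real.rpow_natCast, ← Real.rpow_mul hn0.le]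
              congr 1
              ring
          _ ≤ (4 * (w : ℝ)) ^ F := pow_le_pow_left₀ hx0.le (by linarith) _
          _ = 4 ^ F * (w : ℝ) ^ F := mul_pow _ _ _
      have h2 : (n : ℝ) ^ ((F : ℝ) / E) = (n : ℝ) ^ (max μ 0) *
          (n : ℝ) ^ ((F : ℝ) / E - max μ 0) := by
        rw [← Real.rpow_add hn0]
        congr 1
        ring
      have h3 : (n : ℝ) ^ μ ≤ (n : ℝ) ^ (max μ 0) :=
        Real.rpow_le_rpow_of_exponent_le hn1 (le_max_left _ _)
      have h4 : (0 : ℝ) < 4 ^ F := by positivity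
      have h5 : (n : ℝ) ^ (max μ 0) * 4 ^ F ≤ 4 ^ F * (w : ℝ) ^ F := by
        refine le_trans ?_ h1
        rw [h2]
        exact mul_le_mul_of_nonneg_left g2 (by positivity)
      have h6 : (n : ℝ) ^ (max μ 0) ≤ (w : ℝ) ^ F := by
        refine le_of_mul_le_mul_left ?_ h4
        linarith
      exact h3.trans h6

end Pool.Agent.H58.LM
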