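import Pool.Agent.H58.LM.Par
import Pool.Agent.H58.LM.Defs
import Pool.Agent.H58.LPE.Bound

/-! The relation given by a linear programme. -/

set_option autoImplicit false
set_option linter.unusedSectionVars false

namespace Pool.Agent.H58.LM

open Finset
open Pool.Agent.H58.LG (zz)

theorem bit_true {P : Prop} (h : P) : bit P = 1 := by unfold bit; rw [if_pos h]

theorem bit_false {P : Prop} (h : ¬ P) : bit P = 0 := by unfold bit; rw [if_neg h]

section farkas

variable {E : Type*} [AddCommGroup E] [Module ℝ E]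

/-- Farkas' lemma for an infeasible system -/
theorem lp_infeasible {R : Type*} [Fintype R] [DecidableEq R] (S : AffineSubspace ℝ E)
    (a : R → (E →ᵃ[ℝ] ℝ)) (p0 : E) (hp : p0 ∈ S) (h : ∀ p ∈ S, ¬ ∀ i, 0 ≤ a i p) :
    ∃ (c : R → ℝ) (c0 : ℝ), (∀ i, 0 ≤ c i) ∧ 0 ≤ c0 ∧ ∀ p ∈ S, ∑ i, c i * a i p = -1 - c0 := by
  classical
  obtain ⟨b, hb⟩ : ∃ b : Option R → (S.direction × ℝ) →ₗ[ℝ] ℝ,
    b none = LinearMap.snd ℝ S.direction ℝ ∧
      ∀ i, b (some i) = Pool.Agent.H58.LPE.hom S p0 (a i) :=
    ⟨fun o => match o with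
      | none => LinearMap.snd ℝ S.direction ℝ
      | some i => Pool.Agent.H58.LPE.hom S p0 (a i), rfl, fun _ => rfl⟩
  have hval : ∀ i (w : S.direction × ℝ), b (some i) w =
      (a i).linear (w.1 : E) + w.2 * a i p0 := fun i w => by rw [hb.2]; rfl
  obtain ⟨c, hc, hv⟩ := Pool.Agent.H58.LPE.farkas (Finset.univ : Finset (Option R)) b
    (-LinearMap.snd ℝ S.direction ℝ) (by
      rintro ⟨v, τ⟩ hw
      have h0 : 0 ≤ τ := by
        have := hw none (Finset.mem_univ _)
        rw [hb.1] at this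
        exact this
      rcases h0.eq_or_lt with h0 | h0
      · show 0 ≤ -τ
        rw [← h0, neg_zero]
      · exfalso
        refine h (p0 + τ⁻¹ • (v : E)) ?_ fun i => ?_
        · have h1 : τ⁻¹ • (v : E) ∈ S.direction := S.direction.smul_mem _ v.2
          have h2 := AffineSubspace.vadd_mem_of_mem_direction h1 hp
          rw [vadd_eq_add, add_comm] at h2
          exact h2
        · rw [Pool.Agent.H58.LPE.aff_add, map_smul, smul_eq_mul]
          have h1 := hw (some i) (Finset.mem_univ _)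
          rw [hval] at h1
          simp only at h1
          have h2 : 0 ≤ τ⁻¹ * ((a i).linear (v : E) + τ * a i p0) :=
            mul_nonneg (inv_nonneg.mpr h0.le) h1
          have h3 : τ⁻¹ * ((a i).linear (v : E) + τ * a i p0) =
              τ⁻¹ * (a i).linear (v : E) + a i p0 := by
            field_simp
          linarith)
  refine ⟨fun i => c (some i), c none, fun i => hc _ (Finset.mem_univ _),
    hc _ (Finset.mem_univ _), fun p hpS => ?_⟩
  have h1 : p - p0 ∈ S.direction := AffineSubspace.vsub_mem_direction hpS hp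
  have h2 := congrArg (fun f : (S.direction × ℝ) →ₗ[ℝ] ℝ => f (⟨p - p0, h1⟩, 1)) hv
  simp only [LinearMap.neg_apply, LinearMap.snd_apply, LinearMap.coe_sum, Finset.sum_apply,
    LinearMap.smul_apply, smul_eq_mul] at h2
  rw [Fintype.sum_option, hb.1] at h2
  have h3 : ∀ i, b (some i) (⟨p - p0, h1⟩, 1) = a i p := by
    intro i
    rw [hval]
    have h4 := Pool.Agent.H58.LPE.aff_add (a i) p0 (p - p0)
    rw [add_sub_cancel] at h4
    rw [h4, one_mul]
  simp only [h3, LinearMap.snd_apply, mul_one] at h2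
  linarith

end farkas

section value

variable {T : Type} {P : Program T} {S : Finset T} {a b : T → ℝ} {lo hi : ℝ}

theorem value_bdd : BddAbove {t | t ≤ hi ∧ (t = lo ∨ ∃ p, P.Feasible S a p ∧
    t ≤ P.objective S a p)} := ⟨hi, fun _ ht => ht.1⟩

theorem value_nonempty (hlo : lo ≤ hi) : Set.Nonempty {t | t ≤ hi ∧ (t = lo ∨
    ∃ p, P.Feasible S a p ∧ t ≤ P.objective S a p)} := ⟨lo, hlo, Or.inl rfl⟩

theorem value_congr (h : ∀ j ∈ S, a j = b j) : P.value S a lo hi = P.value S b lo hi := by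
  have h1 : ∀ p, P.Feasible S a p ↔ P.Feasible S b p := by
    intro p
    unfold Program.Feasible
    have : ∀ r, ∑ j ∈ S, P.rhs r j * a j = ∑ j ∈ S, P.rhs r j * b j := fun r =>
      Finset.sum_congr rfl fun j hj => by rw [h j hj]
    simp only [this]
  have h2 : ∀ p, P.objective S a p = P.objective S b p := by
    intro p
    unfold Program.objective
    congr 1
    exact Finset.sum_congr rfl fun j hj => by rw [h j hj]
  unfold Program.value
  simp only [h1, h2]

theorem Feasible.mono {p : Fin P.dim → ℝ} (h : ∀ j ∈ S, a j ≤ b j) (hp : P.Feasible S a p) :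
    P.Feasible S b p := by
  refine ⟨hp.1, fun r => (hp.2 r).trans ?_⟩
  exact add_le_add_right (Finset.sum_le_sum fun j hj =>
    mul_le_mul_of_nonneg_left (h j hj) (P.rhs_nonneg r j)) _

theorem value_mono (hP : P.Mono S) (hlo : lo ≤ hi) (h : ∀ j ∈ S, a j ≤ b j) :
    P.value S a lo hi ≤ P.value S b lo hi := by
  unfold Program.value
  refine csSup_le_csSup value_bdd ⟨lo, hlo, Or.inl rfl⟩ ?_
  rintro t ⟨ht, ht' | ⟨p, hp, hpt⟩⟩
  · exact ⟨ht, Or.inl ht'⟩
  · refine ⟨ht, Or.inr ⟨p, Feasible.mono h hp, hpt.trans ?_⟩⟩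
    unfold Program.objective
    refine add_le_add_right (Finset.sum_le_sum fun j hj => ?_) _
    exact mul_le_mul_of_nonneg_right (h j hj) (hP a p hp j hj)

theorem lo_le_value (hlo : lo ≤ hi) : lo ≤ P.value S a lo hi :=
  le_csSup value_bdd ⟨hlo, Or.inl rfl⟩

theorem value_le_hi (hlo : lo ≤ hi) : P.value S a lo hi ≤ hi :=
  csSup_le ⟨lo, hlo, Or.inl rfl⟩ fun _ ht => ht.1

/-- a point which beats a smaller number -/
theorem exists_point {c : ℝ} (hlo : lo ≤ hi) (hc : lo ≤ c) (h : c < P.value S a lo hi) :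
    ∃ p, P.Feasible S a p ∧ c < P.objective S a p := by
  unfold Program.value at h
  obtain ⟨t, ⟨-, ht | ⟨p, hp, hpt⟩⟩, hct⟩ := exists_lt_of_lt_csSup (value_nonempty hlo) h
  · linarith
  · exact ⟨p, hp, lt_of_lt_of_le hct hpt⟩

theorem objective_le {p : Fin P.dim → ℝ} (h : P.value S a lo hi < hi)
    (hp : P.Feasible S a p) : P.objective S a p ≤ P.value S a lo hi := by
  by_contra hcon
  push Not at hcon
  have h1 : min hi (P.objective S a p) ≤ P.value S a lo hi :=
    le_csSup value_bdd ⟨min_le_left _ _, Or.inr ⟨p, hp, min_le_right _ _⟩⟩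
  have h2 : P.value S a lo hi < min hi (P.objective S a p) := lt_min h hcon
  linarith

end value

variable {ι α : Type*} [Fintype ι] [DecidableEq ι] [Fintype α] [DecidableEq α]

/-- **A linear programme gives the relation between a gate and the gates before it.** -/
theorem linRel_of_program {s : ℕ} (P : Program (Fin s)) (S : Finset (Fin s)) (hP : P.Mono S)
    (φ : Fin s → ℝ → ℝ) (hφ : ∀ j, Monotone (φ j)) {lo hi : ℝ} (hlo : lo ≤ hi)
    (vx : Fin s → (ι → α) → ℝ) (vy : Fin s → (ι → α → Bool) → ℝ) (i : Fin s)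
    (hS : ∀ j ∈ S, j < i) (hx : ∀ x, vx i x = P.value S (fun j => φ j (vx j x)) lo hi)
    (hy : ∀ y, vy i y = P.value S (fun j => φ j (vy j y)) lo hi) :
    LinRel (P.num + 1) vx vy i := by
  classical
  intro X Y hXne hYne hXY
  -- the points
  obtain ⟨ym, hym, hymax⟩ := Finset.exists_max_image Y (vy i) hYne
  have hpt : ∀ x : ι → α, ∃ p : Fin P.dim → ℝ, x ∈ X → P.Feasible S (fun j => φ j (vx j x)) p ∧
      vy i ym < P.objective S (fun j => φ j (vx j x)) p := by
    intro x
    by_cases hxX : x ∈ X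
    · have h1 := hXY x hxX ym hym
      rw [hx x] at h1
      obtain ⟨p, h2, h3⟩ := exists_point hlo (by rw [hy ym]; exact lo_le_value hlo) h1
      exact ⟨p, fun _ => ⟨h2, h3⟩⟩
    · exact ⟨0, fun h => absurd h hxX⟩
  choose pt hpt using hpt
  obtain ⟨O, hO⟩ : ∃ O : (ι → α) → ℝ, ∀ x, O x =
    P.objective S (fun j => φ j (vx j x)) (pt x) := ⟨_, fun _ => rfl⟩
  obtain ⟨xm, hxm, hxmin⟩ := Finset.exists_min_image X O hXne
  have hθ : ∀ y ∈ Y, vy i y < O xm := fun y hy' =>
    lt_of_le_of_lt (hymax y hy') (by rw [hO]; exact (hpt xm hxm).2)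
  -- the certificates
  have hcert : ∀ y : ι → α → Bool, ∃ (c : Fin P.num → ℝ) (c0 : ℝ) (F : ℝ), y ∈ Y →
      (∀ r, 0 ≤ c r) ∧ 0 ≤ c0 ∧ (F = 0 ∨ F = 1) ∧ ∀ p ∈ P.eqs,
        F * (vy i y - P.objective S (fun j => φ j (vy j y)) p) - (1 - F) =
          ∑ r, c r * (P.ineq r p + ∑ j ∈ S, P.rhs r j * φ j (vy j y)) + c0 := by
    intro y
    by_cases hyY : y ∈ Y
    swap
    · exact ⟨0, 0, 0, fun h => absurd h hyY⟩
    have hp0 : pt xm ∈ P.eqs := (hpt xm hxm).1.1
    have hav : ∀ r (p : Fin P.dim → ℝ), (P.ineq r + AffineMap.const ℝ (Fin P.dim → ℝ)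
        (∑ j ∈ S, P.rhs r j * φ j (vy j y))) p =
        P.ineq r p + ∑ j ∈ S, P.rhs r j * φ j (vy j y) := fun _ _ => rfl
    have hlt : P.value S (fun j => φ j (vy j y)) lo hi < hi := by
      rw [← hy y]
      refine lt_of_lt_of_le (hXY xm hxm y hyY) ?_
      rw [hx]
      exact value_le_hi hlo
    by_cases hfe : ∃ p, P.Feasible S (fun j => φ j (vy j y)) p
    · obtain ⟨p1, hp1⟩ := hfe
      have hLv : ∀ p : Fin P.dim → ℝ, (P.obj + ∑ j ∈ S, φ j (vy j y) • P.wt j) p =
          P.objective S (fun j => φ j (vy j y)) p := by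
        intro p
        unfold Program.objective
        have : ∀ U : Finset (Fin s), (∑ j ∈ U, φ j (vy j y) • P.wt j) p =
            ∑ j ∈ U, φ j (vy j y) * P.wt j p := by
          intro U
          induction U using Finset.induction_on with
          | empty => simp
          | insert j U hj ih =>
            rw [Finset.sum_insert hj, Finset.sum_insert hj]
            show (φ j (vy j y) • P.wt j) p + (∑ j ∈ U, φ j (vy j y) • P.wt j) p = _
            rw [ih]
            rfl
        show P.obj p + (∑ j ∈ S, φ j (vy j y) • P.wt j) p = _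
        rw [this]
      obtain ⟨c, c0, h1, h2, h3⟩ := Pool.Agent.H58.LPE.lp_dual P.eqs
        (fun r => P.ineq r + AffineMap.const ℝ (Fin P.dim → ℝ)
          (∑ j ∈ S, P.rhs r j * φ j (vy j y)))
        (P.obj + ∑ j ∈ S, φ j (vy j y) • P.wt j) (vy i y) p1 hp1.1
        (fun r => by rw [hav]; exact hp1.2 r)
        (fun p hp hpr => by
          rw [hLv, hy y]
          refine objective_le hlt ⟨hp, fun r => ?_⟩
          have := hpr r
          rwa [hav] at this)
      refine ⟨c, c0, 1, fun _ => ⟨h1, h2, Or.inr rfl, fun p hp => ?_⟩⟩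
      have h4 := h3 p hp
      rw [hLv] at h4
      simp only [hav] at h4
      rw [← h4]
      ring
    · push Not at hfe
      obtain ⟨c, c0, h1, h2, h3⟩ := lp_infeasible P.eqs
        (fun r => P.ineq r + AffineMap.const ℝ (Fin P.dim → ℝ)
          (∑ j ∈ S, P.rhs r j * φ j (vy j y))) (pt xm) hp0
        (fun p hp hpr => hfe p ⟨hp, fun r => by
          have := hpr r
          rwa [hav] at this⟩)
      refine ⟨c, c0, 0, fun _ => ⟨h1, h2, Or.inl rfl, fun p hp => ?_⟩⟩
      have h4 := h3 p hp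
      simp only [hav] at h4
      rw [h4]
      ring
  choose c c0 F hcert using hcert
  refine ⟨S, φ, fun j x => P.wt j (pt x) * (if j ∈ S then 1 else 0),
    fun j y => ∑ r, c y r * P.rhs r j, F,
    fun r x => Fin.lastCases (motive := fun _ => ℝ) (O x - O xm)
      (fun r => P.ineq r (pt x) + ∑ j ∈ S, P.rhs r j * φ j (vx j x)) r,
    fun r y => Fin.lastCases (motive := fun _ => ℝ) (F y) (fun r => c y r) r,
    fun y => F y * (O xm - vy i y) + (1 - F y) + c0 y, hS, hφ, ?_, ?_, ?_, ?_, ?_, ?_, ?_⟩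
  · intro j x hxX
    simp only
    split_ifs with hj
    · rw [mul_one]
      exact hP _ _ (hpt x hxX).1 j hj
    · rw [mul_zero]
  · intro j y hyY
    exact Finset.sum_nonneg fun r _ => mul_nonneg ((hcert y hyY).1 r) (P.rhs_nonneg r j)
  · intro y hyY
    rcases (hcert y hyY).2.2.1 with h | h
    · rw [h]
    · rw [h]; exact zero_le_one
  · intro r x hxX
    refine Fin.lastCases ?_ (fun r => ?_) r
    · simp only [Fin.lastCases_last]
      have := hxmin x hxX
      linarith
    · simp only [Fin.lastCases_castSucc]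
      exact (hpt x hxX).1.2 r
  · intro r y hyY
    refine Fin.lastCases ?_ (fun r => ?_) r
    · simp only [Fin.lastCases_last]
      rcases (hcert y hyY).2.2.1 with h | h
      · rw [h]
      · rw [h]; exact zero_le_one
    · simp only [Fin.lastCases_castSucc]
      exact (hcert y hyY).1 r
  · intro y hyY
    obtain ⟨-, h2, h3, -⟩ := hcert y hyY
    have h4 := hθ y hyY
    simp only
    rcases h3 with h | h
    · rw [h]; linarith
    · rw [h]; linarith
  · intro x hxX y hyY
    obtain ⟨-, -, -, h4⟩ := hcert y hyY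
    have h5 := h4 (pt x) (hpt x hxX).1.1
    rw [Fin.sum_univ_castSucc]
    simp only [Fin.lastCases_last, Fin.lastCases_castSucc]
    have e1 : ∑ j ∈ S, (φ j (vx j x) - φ j (vy j y)) *
        (P.wt j (pt x) * (if j ∈ S then 1 else 0) * F y + ∑ r, c y r * P.rhs r j) =
        F y * (∑ j ∈ S, (φ j (vx j x) - φ j (vy j y)) * P.wt j (pt x)) +
        ∑ r, c y r * ∑ j ∈ S, P.rhs r j * (φ j (vx j x) - φ j (vy j y)) := by
      have e2 : ∑ r, c y r * ∑ j ∈ S, P.rhs r j * (φ j (vx j x) - φ j (vy j y)) =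
          ∑ j ∈ S, (φ j (vx j x) - φ j (vy j y)) * ∑ r, c y r * P.rhs r j := by
        simp only [Finset.mul_sum]
        rw [Finset.sum_comm]
        exact Finset.sum_congr rfl fun j _ => Finset.sum_congr rfl fun r _ => by ring
      rw [e2, Finset.mul_sum, ← Finset.sum_add_distrib]
      refine Finset.sum_congr rfl fun j hj => ?_
      rw [if_pos hj]
      ring
    have e2 : O x = P.objective S (fun j => φ j (vy j y)) (pt x) +
        ∑ j ∈ S, (φ j (vx j x) - φ j (vy j y)) * P.wt j (pt x) := by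
      rw [hO]
      unfold Program.objective
      rw [add_assoc, ← Finset.sum_add_distrib]
      congr 1
      exact Finset.sum_congr rfl fun j _ => by ring
    have e3 : ∑ r, (P.ineq r (pt x) + ∑ j ∈ S, P.rhs r j * φ j (vx j x)) * c y r =
        (∑ r, c y r * (P.ineq r (pt x) + ∑ j ∈ S, P.rhs r j * φ j (vy j y))) +
        ∑ r, c y r * ∑ j ∈ S, P.rhs r j * (φ j (vx j x) - φ j (vy j y)) := by
      rw [← Finset.sum_add_distrib]
      refine Finset.sum_congr rfl fun r _ => ?_
      have e4 : ∑ j ∈ S, P.rhs r j * φ j (vx j x) = ∑ j ∈ S, P.rhs r j * φ j (vy j y) +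
          ∑ j ∈ S, P.rhs r j * (φ j (vx j x) - φ j (vy j y)) := by
        rw [← Finset.sum_add_distrib]
        exact Finset.sum_congr rfl fun j _ => by ring
      rw [e4]
      ring
    rw [e1, e2, e3]
    linear_combination h5

end Pool.Agent.H58.LM
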