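import Pool.Agent.H58.LM.Dag

/-! The induction. -/

set_option autoImplicit false
set_option linter.unusedSectionVars false

namespace Pool.Agent.H58.LM

open Finset
open Pool.Agent.H58.LG (zz Pure agr mem_agr Spread card_agr)

variable {ι α : Type*} [Fintype ι] [DecidableEq ι] [Fintype α] [DecidableEq α] {D : ℕ}
  {s C N : ℕ}

/-- The induction along the circuit. -/
theorem dead_all (P : Par (Fintype.card ι) (Fintype.card α) s C N D) (A : Sys ι D) {w R : ℕ}
    (hwD : w * P.d ≤ D)
    (hC : (1 + Fintype.card ι * Fintype.card α) ^ (w * P.d) ≤ C)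
    (hC' : 4 * (s * (1 + Fintype.card ι * Fintype.card α) ^ P.d) ≤ C)
    (hN : 4 * (s * (1 + Fintype.card ι * Fintype.card α) ^ P.d) + R ≤ N)
    (vx : Fin s → (ι → α) → ℝ) (vy : Fin s → (ι → α → Bool) → ℝ)
    (hgate : ∀ i, GateOk A P.d w R vx vy i) :
    ∀ n : ℕ, ∃ (E : Finset (ι → α)) (F : Finset (ι → α → Bool)),
      (E.card : ℝ) ≤ n * (P.η * Fintype.card α ^ Fintype.card ι) ∧
      (F.card : ℝ) ≤ n * ((1 + Fintype.card ι * Fintype.card α : ℝ) ^ P.d *
        ((1 / 2) ^ P.t0 * Fintype.card (ι → α → Bool))) ∧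
      ∀ i : Fin s, i.1 < n → DeadR A P.d (vx i) (vy i) E F := by
  classical
  have hα : Nonempty α := by
    rw [← Fintype.card_pos_iff]
    exact_mod_cast P.m_pos
  obtain ⟨a0⟩ : Nonempty (ι → α) := ⟨fun _ => Classical.arbitrary α⟩
  intro n
  induction n with
  | zero =>
    refine ⟨∅, ∅, by simp, by simp, fun i hi => ?_⟩
    exact absurd hi (Nat.not_lt_zero _)
  | succ n ih =>
    obtain ⟨E, F, hE, hF, hdead⟩ := ih
    have hmono : ∀ (E' : Finset (ι → α)) (F' : Finset (ι → α → Bool)), E ⊆ E' → F ⊆ F' →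
        ∀ i : Fin s, i.1 < n → DeadR A P.d (vx i) (vy i) E' F' := by
      intro E' F' hEE hFF i hi x hx
      obtain ⟨J, hJ1, hJ2⟩ := hdead i hi x (fun h => hx (hEE h))
      exact ⟨J, hJ1, fun y hy => hJ2 y (fun h => hy (hFF h))⟩
    have hη0 : 0 ≤ P.η * (Fintype.card α : ℝ) ^ Fintype.card ι := by
      have := P.hη
      positivity
    have hF0 : (0 : ℝ) ≤ (1 + Fintype.card ι * Fintype.card α : ℝ) ^ P.d *
        ((1 / 2) ^ P.t0 * Fintype.card (ι → α → Bool)) := by positivity
    by_cases hns : n < s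
    · by_cases hinp : ∀ x, ∃ J : Finset ι, J.card ≤ P.d ∧ ∀ y, vy ⟨n, hns⟩ y < vx ⟨n, hns⟩ x →
          ¬ Live A J (zz x y)
      · -- an input
        refine ⟨E, F, ?_, ?_, fun i hi => ?_⟩
        · push_cast
          nlinarith
        · push_cast
          nlinarith
        · rcases Nat.lt_succ_iff_lt_or_eq.mp hi with hi | hi
          · exact hdead i hi
          · have : i = ⟨n, hns⟩ := Fin.ext hi
            rw [this]
            intro x _
            obtain ⟨J, hJ1, hJ2⟩ := hinp x
            exact ⟨J, hJ1, fun y _ => hJ2 y⟩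
      · -- another gate
        obtain ⟨E1, hE1, hcov⟩ := cover P.hκ P.hη P.hκm P.hd (univ \ E) (vx ⟨n, hns⟩)
        obtain ⟨Yf, hYf⟩ : ∃ Yf : Lb ι α P.d a0 → Finset (ι → α → Bool), ∀ q, Yf q =
          univ.filter fun y => y ∉ F ∧ Live A q.1.1 (zz q.1.2 y) := ⟨_, fun _ => rfl⟩
        obtain ⟨Ys, hYs⟩ : ∃ Ys : Lb ι α P.d a0 → Finset (ι → α → Bool), ∀ q, Ys q =
          (Yf q).filter fun y => 2 ^ P.t0 * (((Yf q).filter fun y' =>
            vy ⟨n, hns⟩ y' ≤ vy ⟨n, hns⟩ y).card : ℝ) < Fintype.card (ι → α → Bool) :=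
          ⟨_, fun _ => rfl⟩
        have hYsc : ∀ q, ((Ys q).card : ℝ) ≤ (1 / 2) ^ P.t0 * Fintype.card (ι → α → Bool) := by
          intro q
          have h4 : (1 / 2 : ℝ) ^ P.t0 * 2 ^ P.t0 = 1 := by
            rw [← mul_pow]
            norm_num
          rcases (Ys q).eq_empty_or_nonempty with h0 | h0
          · rw [h0, Finset.card_empty, Nat.cast_zero]
            positivity
          · obtain ⟨ym, hym, hmax⟩ := Finset.exists_max_image (Ys q) (vy ⟨n, hns⟩) h0
            have h1 : Ys q ⊆ (Yf q).filter fun y' => vy ⟨n, hns⟩ y' ≤ vy ⟨n, hns⟩ ym := by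
              intro y hy
              have h2 := hmax y hy
              rw [hYs] at hy
              exact Finset.mem_filter.mpr ⟨(Finset.mem_filter.mp hy).1, h2⟩
            have h2 : ((Ys q).card : ℝ) ≤ ((Yf q).filter fun y' =>
                vy ⟨n, hns⟩ y' ≤ vy ⟨n, hns⟩ ym).card := by
              exact_mod_cast Finset.card_le_card h1
            rw [hYs] at hym
            have h3 := (Finset.mem_filter.mp hym).2
            calc ((Ys q).card : ℝ) ≤ _ := h2
              _ = (1 / 2) ^ P.t0 * (2 ^ P.t0 * ((Yf q).filter fun y' =>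
                vy ⟨n, hns⟩ y' ≤ vy ⟨n, hns⟩ ym).card) := by rw [← mul_assoc, h4, one_mul]
              _ ≤ _ := mul_le_mul_of_nonneg_left h3.le (by positivity)
        obtain ⟨F1, hF1⟩ : ∃ F1 : Finset (ι → α → Bool), F1 = univ.biUnion fun q => Ys q :=
          ⟨_, rfl⟩
        have hF1c : (F1.card : ℝ) ≤ (1 + Fintype.card ι * Fintype.card α : ℝ) ^ P.d *
            ((1 / 2) ^ P.t0 * Fintype.card (ι → α → Bool)) := by
          have h1 : (F1.card : ℝ) ≤ ∑ q, ((Ys q).card : ℝ) := by
            rw [hF1]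
            exact_mod_cast Finset.card_biUnion_le
          refine h1.trans ((Finset.sum_le_sum fun q _ => hYsc q).trans ?_)
          rw [Finset.sum_const, Finset.card_univ, nsmul_eq_mul]
          refine mul_le_mul_of_nonneg_right ?_ (by positivity)
          exact_mod_cast card_lb_le P.d a0
        refine ⟨E ∪ E1, F ∪ F1, ?_, ?_, fun i hi => ?_⟩
        · have h1 : ((E ∪ E1).card : ℝ) ≤ E.card + E1.card := by
            exact_mod_cast Finset.card_union_le E E1
          push_cast
          linarith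
        · have h1 : ((F ∪ F1).card : ℝ) ≤ F.card + F1.card := by
            exact_mod_cast Finset.card_union_le F F1
          push_cast
          linarith
        · rcases Nat.lt_succ_iff_lt_or_eq.mp hi with hi | hi
          · exact hmono _ _ Finset.subset_union_left Finset.subset_union_left i hi
          · have hin : i = ⟨n, hns⟩ := Fin.ext hi
            rw [hin]
            intro x hxE
            rw [Finset.mem_union, not_or] at hxE
            obtain ⟨I, X, hId, hxX, hXU, hXI, hXv, hXs, hXη⟩ := hcov x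
              (Finset.mem_sdiff.mpr ⟨Finset.mem_univ _, hxE.1⟩) hxE.2
            refine ⟨I, hId, ?_⟩
            intro y hyF hyx hlive
            rw [Finset.mem_union, not_or] at hyF
            obtain ⟨q, hq⟩ : ∃ q : Lb ι α P.d a0, q = lab a0 x ⟨I, hId⟩ := ⟨_, rfl⟩
            have hqy : ∀ y, Live A q.1.1 (zz q.1.2 y) ↔ Live A I (zz x y) := by
              intro y
              rw [hq]
              exact live_lab
            have hyY : y ∈ Yf q := by
              rw [hYf, Finset.mem_filter]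
              exact ⟨Finset.mem_univ _, hyF.1, (hqy y).mpr hlive⟩
            obtain ⟨Y, hY⟩ : ∃ Y, Y = (Yf q).filter fun y' =>
              vy ⟨n, hns⟩ y' ≤ vy ⟨n, hns⟩ y := ⟨_, rfl⟩
            have hbig : (Fintype.card (ι → α → Bool) : ℝ) ≤ 2 ^ P.t0 * Y.card := by
              by_contra hcon
              push Not at hcon
              apply hyF.2
              rw [hF1, Finset.mem_biUnion]
              refine ⟨q, Finset.mem_univ _, ?_⟩
              rw [hYs]
              refine Finset.mem_filter.mpr ⟨hyY, ?_⟩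
              rw [← hY]
              exact hcon
            have hYm : ∀ y' ∈ Y, y' ∉ F ∧ Live A I (zz x y') ∧
                vy ⟨n, hns⟩ y' ≤ vy ⟨n, hns⟩ y := by
              intro y' hy'
              rw [hY, Finset.mem_filter, hYf, Finset.mem_filter] at hy'
              exact ⟨hy'.1.2.1, (hqy y').mp hy'.1.2.2, hy'.2⟩
            have hyY' : y ∈ Y := by
              rw [hY]
              exact Finset.mem_filter.mpr ⟨hyY, le_rfl⟩
            have hXm : ∀ x' ∈ X, x' ∉ E := by
              intro x' hx'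
              exact (Finset.mem_sdiff.mp (hXU hx')).2
            have hXY : ∀ x' ∈ X, ∀ y' ∈ Y, vy ⟨n, hns⟩ y' < vx ⟨n, hns⟩ x' := by
              intro x' hx' y' hy'
              exact lt_of_le_of_lt (hYm y' hy').2.2 (lt_of_lt_of_le hyx (hXv x' hx'))
            rcases hgate ⟨n, hns⟩ with hg | hg | hg
            · exact hinp hg
            · choose S hSw hSlt hSg using hg
              refine node_few P A hwD hC hId (x0 := x) X ⟨x, hxX⟩ hXI hXs hXη Y
                (fun y' hy' => (hYm y' hy').2.1) hbig vx vy S hSw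
                (fun x' hx' y' hy' => hSg x' y' (hXY x' hx' y' hy')) ?_
              intro x' j hj hx'
              obtain ⟨J, hJ1, hJ2⟩ := hdead j (by exact hSlt x' j hj) x' (hXm x' hx')
              exact ⟨J, hJ1, fun y' hy' => hJ2 y' (hYm y' hy').1⟩
            · refine node_lin P A hC' hN hId (x0 := x) X ⟨x, hxX⟩ hXI hXs hXη Y ⟨y, hyY'⟩
                (fun y' hy' => (hYm y' hy').2.1) hbig vx vy ⟨n, hns⟩ hg hXY ?_
              intro j hj x' hx'
              obtain ⟨J, hJ1, hJ2⟩ := hdead j (by exact hj) x' (hXm x' hx')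
              exact ⟨J, hJ1, fun y' hy' => hJ2 y' (hYm y' hy').1⟩
    · refine ⟨E, F, ?_, ?_, fun i hi => ?_⟩
      · push_cast
        nlinarith
      · push_cast
        nlinarith
      · exact hdead i (by have := i.2; omega)

/-- No small circuit separates many inputs from many inputs. -/
theorem dag (P : Par (Fintype.card ι) (Fintype.card α) s C N D) (A : Sys ι D) {w R : ℕ}
    (hwD : w * P.d ≤ D)
    (hC : (1 + Fintype.card ι * Fintype.card α) ^ (w * P.d) ≤ C)
    (hC' : 4 * (s * (1 + Fintype.card ι * Fintype.card α) ^ P.d) ≤ C)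
    (hN : 4 * (s * (1 + Fintype.card ι * Fintype.card α) ^ P.d) + R ≤ N)
    (vx : Fin s → (ι → α) → ℝ) (vy : Fin s → (ι → α → Bool) → ℝ)
    (hgate : ∀ i, GateOk A P.d w R vx vy i) (o : Fin s)
    (X : Finset (ι → α)) (Y : Finset (ι → α → Bool)) (hXY : ∀ x ∈ X, ∀ y ∈ Y, vy o y < vx o x)
    (hX : (1 / (P.κ * Fintype.card α) + s * P.η) * (Fintype.card α : ℝ) ^ Fintype.card ι ≤ X.card)
    (hY : (1 + s * (1 + Fintype.card ι * Fintype.card α : ℝ) ^ P.d) *
      ((1 / 2) ^ P.t0 * Fintype.card (ι → α → Bool)) ≤ Y.card) : False := by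
  classical
  obtain ⟨E, F, hE, hF, hdead⟩ := dead_all P A hwD hC hC' hN vx vy hgate s
  obtain ⟨X', hX'⟩ : ∃ X', X' = X \ E := ⟨_, rfl⟩
  obtain ⟨Y', hY'⟩ : ∃ Y', Y' = Y \ F := ⟨_, rfl⟩
  have hκm := P.hκm
  have hκ := P.hκ
  obtain ⟨M, hM⟩ : ∃ M : ℝ, M = Fintype.card α ^ Fintype.card ι := ⟨_, rfl⟩
  rw [← hM] at hX hE
  have hαpos := P.m_pos
  have hM0 : 0 < M := by rw [hM]; positivity
  have hX'c : 1 / (P.κ * Fintype.card α) * M ≤ X'.card := by
    have h1 : (X.card : ℝ) ≤ X'.card + E.card := by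
      rw [hX']
      exact_mod_cast Finset.card_le_card_sdiff_add_card
    have h2 : (1 / (P.κ * Fintype.card α) + s * P.η) * M =
      1 / (P.κ * Fintype.card α) * M + s * (P.η * M) := by ring
    rw [h2] at hX
    linarith
  have hX'M : M ≤ (P.κ * Fintype.card α) * X'.card := by
    have h1 : 0 < P.κ * (Fintype.card α : ℝ) := by linarith
    have h2 := mul_le_mul_of_nonneg_left hX'c h1.le
    rw [← mul_assoc, mul_one_div_cancel h1.ne', one_mul] at h2
    exact h2
  have hX'ne : X'.Nonempty := by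
    rw [← Finset.card_pos]
    by_contra hcon
    have h0 : X'.card = 0 := by omega
    rw [h0, Nat.cast_zero, mul_zero] at hX'M
    linarith
  have hY'c : (Fintype.card (ι → α → Bool) : ℝ) ≤ 2 ^ P.t * Y'.card := by
    have h1 : (Y.card : ℝ) ≤ Y'.card + F.card := by
      rw [hY']
      exact_mod_cast Finset.card_le_card_sdiff_add_card
    obtain ⟨W, hW⟩ : ∃ W : ℝ, W = (1 + Fintype.card ι * Fintype.card α : ℝ) ^ P.d := ⟨_, rfl⟩
    rw [← hW] at hY hF
    have h2 : (1 + s * W) * ((1 / 2) ^ P.t0 * Fintype.card (ι → α → Bool)) =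
      (1 / 2) ^ P.t0 * Fintype.card (ι → α → Bool) +
        s * (W * ((1 / 2) ^ P.t0 * Fintype.card (ι → α → Bool))) := by ring
    rw [h2] at hY
    have h3 : (1 / 2 : ℝ) ^ P.t0 * Fintype.card (ι → α → Bool) ≤ Y'.card := by linarith
    have h4 : (2 : ℝ) ^ P.t0 * (1 / 2) ^ P.t0 = 1 := by
      rw [← mul_pow]
      norm_num
    have h5 := mul_le_mul_of_nonneg_left h3 (show (0 : ℝ) ≤ 2 ^ P.t0 by positivity)
    rw [← mul_assoc, h4, one_mul] at h5
    refine h5.trans (mul_le_mul_of_nonneg_right ?_ (Nat.cast_nonneg _))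
    exact pow_le_pow_right₀ (by norm_num) (by have := P.t0_le; omega)
  obtain ⟨x0, hx0⟩ := hX'ne
  have hsp : Spread ∅ P.κ X'.card (fun x => if x ∈ X' then (1 : ℝ) else 0) := by
    intro T _ b
    rw [Finset.sum_ite_mem, Finset.sum_const, nsmul_eq_mul, mul_one]
    rcases T.eq_empty_or_nonempty with h0 | h0
    · subst h0
      rw [Finset.card_empty, pow_zero, one_mul]
      exact_mod_cast Finset.card_le_card Finset.inter_subset_right
    · have h1 : ((agr T b).card : ℝ) * Fintype.card α ^ T.card = M := by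
        rw [hM]
        exact_mod_cast card_agr T b
      have h2 : ((agr T b ∩ X').card : ℝ) ≤ (agr T b).card := by
        exact_mod_cast Finset.card_le_card Finset.inter_subset_left
      refine h2.trans ?_
      have h3 : (P.κ * Fintype.card α) ^ 1 ≤ (P.κ * Fintype.card α) ^ T.card :=
        pow_le_pow_right₀ hκm (Finset.card_pos.mpr h0)
      rw [pow_one] at h3
      have h4 : (0 : ℝ) < (Fintype.card α : ℝ) ^ T.card := by positivity
      have h5 : ((agr T b).card : ℝ) * Fintype.card α ^ T.card ≤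
          (P.κ ^ T.card * X'.card) * Fintype.card α ^ T.card := by
        rw [h1]
        calc M ≤ (P.κ * Fintype.card α) * X'.card := hX'M
          _ ≤ (P.κ * Fintype.card α) ^ T.card * X'.card :=
            mul_le_mul_of_nonneg_right h3 (Nat.cast_nonneg _)
          _ = _ := by rw [mul_pow]; ring
      exact le_of_mul_le_mul_right h5 h4
  have hη : P.η / 2 * Fintype.card α ^ Fintype.card ι ≤
      X'.card * Fintype.card α ^ (∅ : Finset ι).card := by
    rw [Finset.card_empty, pow_zero, mul_one, ← hM]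
    refine le_trans ?_ hX'c
    have h1 : 0 < P.κ * (Fintype.card α : ℝ) := by linarith
    refine mul_le_mul_of_nonneg_right ?_ hM0.le
    rw [le_div_iff₀ h1]
    have h2 := P.hηκ
    have h3 := mul_pos P.hη h1
    linarith
  have hs : (o : ℕ) < s := o.2
  refine dead_false P A (I := ∅) (x0 := x0) (by simp) X' ⟨x0, hx0⟩ (by simp)
    (Spread_two hκ.le hsp) hη Y' (fun y _ => ?_) hY'c ?_
  · intro S _ hS
    rw [Finset.subset_empty.mp hS, chi_empty, A.sn_empty]
  · intro x hx
    rw [hX'] at hx
    obtain ⟨hxX, hxE⟩ := Finset.mem_sdiff.mp hx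
    obtain ⟨J, hJ1, hJ2⟩ := hdead o hs x hxE
    refine ⟨J, by omega, fun y hy => ?_⟩
    rw [hY'] at hy
    obtain ⟨hyY, hyF⟩ := Finset.mem_sdiff.mp hy
    exact hJ2 y hyF (hXY x hxX y hyY)

end Pool.Agent.H58.LM
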