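import Pool.Agent.H58.LG.Dag

/-! The kernel of a system of parities: characters, the truncated kernel, live and dead
restrictions. -/

set_option autoImplicit false
set_option linter.unusedSectionVars false

namespace Pool.Agent.H58.LM

open Finset
open Pool.Agent.H58.LG (zz Pure agr mem_agr Spread decay select sum_small sum_large card_agr)

variable {ι α : Type*} [Fintype ι] [DecidableEq ι] [Fintype α] [DecidableEq α]

/-- the sign of a bit -/
def sg (b : Bool) : ℝ := if b then -1 else 1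

theorem sg_mul_self (b : Bool) : sg b * sg b = 1 := by
  cases b <;> simp [sg]

/-- the character of `S` -/
def chi (S : Finset ι) (z : ι → Bool) : ℝ := ∏ i ∈ S, sg (z i)

theorem chi_empty (z : ι → Bool) : chi ∅ z = 1 := by simp [chi]

theorem chi_mul_self (S : Finset ι) (z : ι → Bool) : chi S z * chi S z = 1 := by
  unfold chi
  rw [← Finset.prod_mul_distrib]
  exact Finset.prod_eq_one fun i _ => sg_mul_self _

theorem abs_chi (S : Finset ι) (z : ι → Bool) : |chi S z| = 1 := by
  have h1 := chi_mul_self S z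
  have h2 : |chi S z| * |chi S z| = 1 := by rw [← abs_mul, h1, abs_one]
  have h3 := abs_nonneg (chi S z)
  nlinarith

theorem chi_congr {S : Finset ι} {z z' : ι → Bool} (h : ∀ i ∈ S, z i = z' i) :
    chi S z = chi S z' := by
  unfold chi
  exact Finset.prod_congr rfl fun i hi => by rw [h i hi]

theorem chi_union {S T : Finset ι} (h : Disjoint S T) (z : ι → Bool) :
    chi (S ∪ T) z = chi S z * chi T z := by
  unfold chi
  exact Finset.prod_union h

theorem chi_symmDiff (S T : Finset ι) (z : ι → Bool) :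
    chi (symmDiff S T) z = chi S z * chi T z := by
  have e1 : symmDiff S T = (S \ T) ∪ (T \ S) := rfl
  have e2 : chi S z = chi (S \ T) z * chi (S ∩ T) z := by
    rw [← chi_union (Finset.disjoint_sdiff_inter S T), Finset.sdiff_union_inter]
  have e3 : chi T z = chi (T \ S) z * chi (S ∩ T) z := by
    rw [Finset.inter_comm, ← chi_union (Finset.disjoint_sdiff_inter T S),
      Finset.sdiff_union_inter]
  have e4 : Disjoint (S \ T) (T \ S) := by
    rw [Finset.disjoint_left]
    intro i hi hi'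
    exact (Finset.mem_sdiff.mp hi').2 (Finset.mem_sdiff.mp hi).1
  rw [e1, chi_union e4, e2, e3]
  have e5 := chi_mul_self (S ∩ T) z
  calc chi (S \ T) z * chi (T \ S) z = chi (S \ T) z * chi (T \ S) z * 1 := by ring
    _ = chi (S \ T) z * chi (T \ S) z * (chi (S ∩ T) z * chi (S ∩ T) z) := by rw [e5]
    _ = _ := by ring

theorem chi_pure {S T : Finset ι} (h : T ⊆ S) : Pure T (chi S) := by
  intro i hi z
  have hiS := h hi
  have e1 : ∀ c : Bool, chi S (Function.update z i c) = sg c * chi (S.erase i) z := by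
    intro c
    unfold chi
    rw [← Finset.mul_prod_erase S _ hiS]
    congr 1
    · rw [Function.update_self]
    · refine Finset.prod_congr rfl fun j hj => ?_
      rw [Function.update_of_ne (Finset.ne_of_mem_erase hj)]
  rw [Finset.sum_congr rfl fun c _ => e1 c, ← Finset.sum_mul]
  simp [sg]

/-- A system of parities of at most `D` bits, closed under sums. -/
structure Sys (ι : Type*) [DecidableEq ι] (D : ℕ) where
  L : Finset (Finset ι)
  sn : Finset ι → ℝ
  sn_sq : ∀ S ∈ L, sn S * sn S = 1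
  empty_mem : ∅ ∈ L
  sn_empty : sn ∅ = 1
  card_le : ∀ S ∈ L, S.card ≤ D
  closed : ∀ S ∈ L, ∀ T ∈ L, (symmDiff S T).card ≤ D →
    symmDiff S T ∈ L ∧ sn (symmDiff S T) = sn S * sn T

variable {D : ℕ}

/-- the kernel -/
noncomputable def ker (A : Sys ι D) (z : ι → Bool) : ℝ := ∑ S ∈ A.L, A.sn S * chi S z

/-- the bits in `I` satisfy all the parities in `I` -/
def Live (A : Sys ι D) (I : Finset ι) (z : ι → Bool) : Prop :=
  ∀ S ∈ A.L, S ⊆ I → chi S z = A.sn S

theorem Live.congr {A : Sys ι D} {I : Finset ι} {z z' : ι → Bool} (h : ∀ i ∈ I, z i = z' i) :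
    Live A I z ↔ Live A I z' := by
  constructor
  · intro H S hS hSI
    rw [← chi_congr fun i hi => h i (hSI hi)]
    exact H S hS hSI
  · intro H S hS hSI
    rw [chi_congr fun i hi => h i (hSI hi)]
    exact H S hS hSI

theorem Live.mono {A : Sys ι D} {I J : Finset ι} (hIJ : I ⊆ J) {z : ι → Bool} (h : Live A J z) :
    Live A I z := fun S hS hSI => h S hS (hSI.trans hIJ)

/-- the number of parities inside `I` -/
def LI (A : Sys ι D) (I : Finset ι) : ℕ := (A.L.filter fun S => S ⊆ I).card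

theorem LI_pos (A : Sys ι D) (I : Finset ι) : 0 < LI A I := by
  unfold LI
  rw [Finset.card_pos]
  exact ⟨∅, Finset.mem_filter.mpr ⟨A.empty_mem, Finset.empty_subset _⟩⟩

theorem LI_le (A : Sys ι D) (I : Finset ι) : LI A I ≤ 2 ^ I.card := by
  unfold LI
  rw [← Finset.card_powerset]
  refine Finset.card_le_card fun S hS => ?_
  exact Finset.mem_powerset.mpr (Finset.mem_filter.mp hS).2

theorem fiber_card (A : Sys ι D) {I : Finset ι} (hI : I.card ≤ D) (T : Finset ι) :
    (A.L.filter fun S => S \ I = T).card ≤ LI A I := by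
  classical
  rcases (A.L.filter fun S => S \ I = T).eq_empty_or_nonempty with h0 | ⟨S0, hS0⟩
  · rw [h0]
    exact Nat.zero_le _
  · obtain ⟨hS0L, hS0T⟩ := Finset.mem_filter.mp hS0
    unfold LI
    refine Finset.card_le_card_of_injOn (fun S => symmDiff S S0) ?_ ?_
    · intro S hS
      obtain ⟨h1, h2⟩ := Finset.mem_filter.mp (Finset.mem_coe.mp hS)
      have h3 : symmDiff S S0 ⊆ I := by
        intro i hi
        by_contra hcon
        rw [Finset.mem_symmDiff] at hi
        rcases hi with ⟨h4, h5⟩ | ⟨h4, h5⟩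
        · have : i ∈ S \ I := Finset.mem_sdiff.mpr ⟨h4, hcon⟩
          rw [h2, ← hS0T] at this
          exact h5 (Finset.mem_sdiff.mp this).1
        · have : i ∈ S0 \ I := Finset.mem_sdiff.mpr ⟨h4, hcon⟩
          rw [hS0T, ← h2] at this
          exact h5 (Finset.mem_sdiff.mp this).1
      refine Finset.mem_coe.mpr (Finset.mem_filter.mpr ⟨?_, h3⟩)
      exact (A.closed S h1 S0 hS0L ((Finset.card_le_card h3).trans hI)).1
    · intro S _ S' _ h
      have h' : symmDiff S S0 = symmDiff S' S0 := h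
      have := congrArg (fun W => symmDiff W S0) h'
      simpa [symmDiff_assoc] using this

theorem sum_tail (A : Sys ι D) {I : Finset ι} (hI : I.card ≤ D) (s0 : ℕ) {h ρ : ℝ} (hh : 0 ≤ h)
    (hρ : Fintype.card ι * h ≤ ρ) (hρ1 : ρ ≤ 1 / 2) :
    ∑ S ∈ A.L.filter (fun S => s0 ≤ (S \ I).card), h ^ (S \ I).card ≤ LI A I * (2 * ρ ^ s0) := by
  classical
  have hmaps : ∀ S ∈ A.L.filter (fun S => s0 ≤ (S \ I).card), S \ I ∈
      univ.filter (fun T : Finset ι => s0 ≤ T.card) := by
    intro S hS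
    exact Finset.mem_filter.mpr ⟨Finset.mem_univ _, (Finset.mem_filter.mp hS).2⟩
  rw [← Finset.sum_fiberwise_of_maps_to hmaps]
  have h1 := sum_large (ι := ι) s0 hh hρ hρ1
  calc _ ≤ ∑ T ∈ univ.filter (fun T : Finset ι => s0 ≤ T.card), (LI A I : ℝ) * h ^ T.card := by
        refine Finset.sum_le_sum fun T _ => ?_
        have e1 : ∀ S ∈ (A.L.filter fun S => s0 ≤ (S \ I).card).filter (fun S => S \ I = T),
            h ^ (S \ I).card = h ^ T.card := by
          intro S hS
          rw [(Finset.mem_filter.mp hS).2]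
        rw [Finset.sum_congr rfl e1, Finset.sum_const, nsmul_eq_mul]
        refine mul_le_mul_of_nonneg_right ?_ (by positivity)
        have e2 : ((A.L.filter fun S => s0 ≤ (S \ I).card).filter (fun S => S \ I = T)).card ≤
            (A.L.filter fun S => S \ I = T).card :=
          Finset.card_le_card (Finset.filter_subset_filter _ (Finset.filter_subset _ _))
        exact_mod_cast e2.trans (fiber_card A hI T)
    _ = LI A I * ∑ T ∈ univ.filter (fun T : Finset ι => s0 ≤ T.card), h ^ T.card := by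
        rw [Finset.mul_sum]
    _ ≤ _ := mul_le_mul_of_nonneg_left h1 (Nat.cast_nonneg _)

/-- the size of the system -/
theorem card_L_le (A : Sys ι D) : (A.L.card : ℝ) ≤ (1 + Fintype.card ι) ^ D := by
  have h1 := sum_small (ι := ι) D (a := 1) (by norm_num)
  simp only [one_pow, Finset.sum_const, nsmul_eq_mul, mul_one] at h1
  refine le_trans ?_ h1
  have : A.L.card ≤ (univ.filter fun S : Finset ι => S.card ≤ D).card :=
    Finset.card_le_card fun S hS => Finset.mem_filter.mpr ⟨Finset.mem_univ _, A.card_le S hS⟩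
  exact_mod_cast this

theorem abs_sn (A : Sys ι D) {S : Finset ι} (hS : S ∈ A.L) : |A.sn S| = 1 := by
  have h1 := A.sn_sq S hS
  have h2 : |A.sn S| * |A.sn S| = 1 := by rw [← abs_mul, h1, abs_one]
  have h3 := abs_nonneg (A.sn S)
  nlinarith

theorem abs_ker_le (A : Sys ι D) (z : ι → Bool) : |ker A z| ≤ (1 + Fintype.card ι) ^ D := by
  unfold ker
  refine (Finset.abs_sum_le_sum_abs _ _).trans (le_trans ?_ (card_L_le A))
  have : ∀ S ∈ A.L, |A.sn S * chi S z| ≤ 1 := by
    intro S hS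
    rw [abs_mul, abs_sn A hS, abs_chi, one_mul]
  refine (Finset.sum_le_sum this).trans ?_
  rw [Finset.sum_const, nsmul_eq_mul, mul_one]

/-- the kernel at a dead restriction has only high parts -/
theorem ker_dead (A : Sys ι D) {J : Finset ι} (hJ : J.card ≤ D) {z : ι → Bool}
    (hz : ¬ Live A J z) :
    ker A z = ∑ S ∈ A.L.filter (fun S => D < (S \ J).card + J.card), A.sn S * chi S z := by
  classical
  unfold ker
  rw [← Finset.sum_filter_add_sum_filter_not A.L (fun S => D < (S \ J).card + J.card)]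
  have h0 : ∑ S ∈ A.L.filter (fun S => ¬ D < (S \ J).card + J.card), A.sn S * chi S z = 0 := by
    unfold Live at hz
    push Not at hz
    obtain ⟨S0, hS0, hS0J, hne⟩ := hz
    have hneg : chi S0 z = - A.sn S0 := by
      have h1 := chi_mul_self S0 z
      have h2 := A.sn_sq S0 hS0
      have h3 : (chi S0 z - A.sn S0) * (chi S0 z + A.sn S0) = 0 := by ring_nf; nlinarith
      rcases mul_eq_zero.mp h3 with h4 | h4
      · exact absurd (sub_eq_zero.mp h4) hne
      · linarith
    have key : ∀ S ∈ A.L.filter (fun S => ¬ D < (S \ J).card + J.card),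
        symmDiff S S0 ∈ A.L.filter (fun S => ¬ D < (S \ J).card + J.card) ∧
        A.sn (symmDiff S S0) * chi (symmDiff S S0) z = - (A.sn S * chi S z) := by
      intro S hS
      obtain ⟨h1, h2⟩ := Finset.mem_filter.mp hS
      have h3 : symmDiff S S0 \ J = S \ J := by
        ext i
        rw [Finset.mem_sdiff, Finset.mem_sdiff, Finset.mem_symmDiff]
        constructor
        · rintro ⟨⟨h4, -⟩ | ⟨h4, -⟩, h5⟩
          · exact ⟨h4, h5⟩
          · exact absurd (hS0J h4) h5
        · rintro ⟨h4, h5⟩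
          exact ⟨Or.inl ⟨h4, fun h => h5 (hS0J h)⟩, h5⟩
      have h4 : (symmDiff S S0).card ≤ (symmDiff S S0 \ J).card + J.card := by
        have := Finset.card_le_card_sdiff_add_card (s := symmDiff S S0) (t := J)
        omega
      have h5 := A.closed S h1 S0 hS0 (by rw [h3] at h4; omega)
      refine ⟨Finset.mem_filter.mpr ⟨h5.1, by rw [h3]; exact h2⟩, ?_⟩
      rw [h5.2, chi_symmDiff, hneg]
      have h6 := A.sn_sq S0 hS0
      calc A.sn S * A.sn S0 * (chi S z * -A.sn S0) = -(A.sn S * chi S z) * (A.sn S0 * A.sn S0) := by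
            ring
        _ = _ := by rw [h6, mul_one]
    have hinv : ∀ S : Finset ι, symmDiff (symmDiff S S0) S0 = S := by
      intro S
      rw [symmDiff_assoc, symmDiff_self]
      exact symmDiff_bot S
    have h1 : ∑ S ∈ A.L.filter (fun S => ¬ D < (S \ J).card + J.card), A.sn S * chi S z =
        ∑ S ∈ A.L.filter (fun S => ¬ D < (S \ J).card + J.card), -(A.sn S * chi S z) := by
      refine Finset.sum_nbij' (fun S => symmDiff S S0) (fun S => symmDiff S S0)
        (fun S hS => (key S hS).1) (fun S hS => (key S hS).1) (fun S _ => hinv S)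
        (fun S _ => hinv S) fun S hS => ?_
      rw [(key S hS).2]
      ring
    rw [Finset.sum_neg_distrib] at h1
    linarith
  rw [h0, add_zero]

/-- the kernel applied to a product -/
noncomputable def Lam (A : Sys ι D) (f : (ι → α) → ℝ) (g : (ι → α → Bool) → ℝ) : ℝ :=
  ∑ x, ∑ y, f x * g y * ker A (zz x y)

theorem lam_eq_sum (A : Sys ι D) (f : (ι → α) → ℝ) (g : (ι → α → Bool) → ℝ) :
    Lam A f g = ∑ S ∈ A.L, A.sn S * ∑ x, ∑ y, f x * g y * chi S (zz x y) := by
  unfold Lam ker
  simp only [Finset.mul_sum]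
  rw [Finset.sum_comm]
  rw [Finset.sum_comm (s := A.L)]
  rw [Finset.sum_comm]
  refine Finset.sum_congr rfl fun x _ => ?_
  rw [Finset.sum_comm]
  refine Finset.sum_congr rfl fun S _ => ?_
  refine Finset.sum_congr rfl fun y _ => ?_
  ring

theorem pterm {p : ℕ} (hp : 1 ≤ p) {I S : Finset ι} {x0 : ι → α} {f : (ι → α) → ℝ} {κ F : ℝ}
    (hκ : 0 ≤ κ) (hf0 : ∀ x, 0 ≤ f x) (hfF : ∀ x, f x ≠ 0 → ∀ i ∈ I, x i = x0 i)
    (hsp : Spread I κ F f) {g : (ι → α → Bool) → ℝ} {b0 G : ℝ}
    (hg0 : ∀ y, 0 ≤ g y) (hgb : ∀ y, g y ≤ b0) (hG : ∑ y, g y ≤ G)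
    (hb : b0 * Fintype.card (ι → α → Bool) ≤ 2 ^ p * G) {h : ℝ} (hh0 : 0 ≤ h)
    (hh : 8 * p * κ ≤ h ^ 2) :
    |∑ x, ∑ y, f x * g y * chi S (zz x y)| ≤ 2 * F * G * h ^ (S \ I).card := by
  have h1 := decay (f := f) (g := g) hp (F := I) (S := S \ I) (x0 := x0) (Φ := chi S)
    (M := 1) (h := h) (κ := κ) (A := F) (b0 := b0) (G := G) Finset.sdiff_disjoint
    (chi_pure Finset.sdiff_subset) (fun z z' hz => chi_congr fun i hi => hz i (by
      by_cases hiI : i ∈ I
      · exact Finset.mem_union_left _ hiI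
      · exact Finset.mem_union_right _ (Finset.mem_sdiff.mpr ⟨hi, hiI⟩)))
    (by norm_num) (fun z => (abs_chi S z).le) hκ hf0 hfF hsp hg0 hgb hG hb hh0 hh
  rw [mul_one] at h1
  exact h1

/-- the main part of the kernel -/
theorem main_part {p : ℕ} (hp : 1 ≤ p) (A : Sys ι D) {I : Finset ι} (hI : I.card ≤ D)
    {x0 : ι → α} {f : (ι → α) → ℝ} {κ : ℝ}
    (hκ : 0 ≤ κ) (hf0 : ∀ x, 0 ≤ f x) (hfF : ∀ x, f x ≠ 0 → ∀ i ∈ I, x i = x0 i)
    (hsp : Spread I κ (∑ x, f x) f) {g : (ι → α → Bool) → ℝ} {b0 : ℝ}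
    (hg0 : ∀ y, 0 ≤ g y) (hgb : ∀ y, g y ≤ b0) (hgI : ∀ y, g y ≠ 0 → Live A I (zz x0 y))
    (hb : b0 * Fintype.card (ι → α → Bool) ≤ 2 ^ p * ∑ y, g y) {h ρ : ℝ} (hh0 : 0 ≤ h)
    (hh : 8 * p * κ ≤ h ^ 2) (hρ : Fintype.card ι * h ≤ ρ) (hρ1 : ρ ≤ 1 / 8) :
    1 / 2 * (LI A I * ((∑ x, f x) * (∑ y, g y))) ≤ Lam A f g := by
  classical
  have hρ0 : 0 ≤ ρ := le_trans (by positivity) hρ
  have hF0 : 0 ≤ ∑ x, f x := Finset.sum_nonneg fun x _ => hf0 x
  have hG0 : 0 ≤ ∑ y, g y := Finset.sum_nonneg fun y _ => hg0 y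
  rw [lam_eq_sum, ← Finset.sum_filter_add_sum_filter_not A.L (fun S => S ⊆ I)]
  have h1 : ∑ S ∈ A.L.filter (fun S => S ⊆ I), A.sn S * ∑ x, ∑ y, f x * g y * chi S (zz x y) =
      LI A I * ((∑ x, f x) * (∑ y, g y)) := by
    have e1 : ∀ S ∈ A.L.filter (fun S => S ⊆ I),
        A.sn S * ∑ x, ∑ y, f x * g y * chi S (zz x y) = (∑ x, f x) * (∑ y, g y) := by
      intro S hS
      obtain ⟨hSL, hSI⟩ := Finset.mem_filter.mp hS
      rw [Finset.mul_sum, Finset.sum_mul_sum]
      refine Finset.sum_congr rfl fun x _ => ?_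
      rw [Finset.mul_sum]
      refine Finset.sum_congr rfl fun y _ => ?_
      by_cases hx : f x = 0
      · rw [hx]; ring
      by_cases hy : g y = 0
      · rw [hy]; ring
      have e2 : chi S (zz x y) = A.sn S := by
        rw [chi_congr (z' := zz x0 y) fun i hi => by
          unfold zz
          rw [hfF x hx i (hSI hi)]]
        exact hgI y hy S hSL hSI
      rw [e2]
      have e3 := A.sn_sq S hSL
      calc A.sn S * (f x * g y * A.sn S) = f x * g y * (A.sn S * A.sn S) := by ring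
        _ = _ := by rw [e3, mul_one]
    rw [Finset.sum_congr rfl e1, Finset.sum_const, nsmul_eq_mul]
    rfl
  have h2 : |∑ S ∈ A.L.filter (fun S => ¬ S ⊆ I), A.sn S * ∑ x, ∑ y, f x * g y * chi S (zz x y)| ≤
      1 / 2 * (LI A I * ((∑ x, f x) * (∑ y, g y))) := by
    refine (Finset.abs_sum_le_sum_abs _ _).trans ?_
    have e1 : ∀ S ∈ A.L.filter (fun S => ¬ S ⊆ I),
        |A.sn S * ∑ x, ∑ y, f x * g y * chi S (zz x y)| ≤
          2 * (∑ x, f x) * (∑ y, g y) * h ^ (S \ I).card := by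
      intro S hS
      rw [abs_mul, abs_sn A (Finset.mem_filter.mp hS).1, one_mul]
      exact pterm hp hκ hf0 hfF hsp hg0 hgb le_rfl hb hh0 hh
    refine (Finset.sum_le_sum e1).trans ?_
    rw [← Finset.mul_sum]
    have e2 : ∑ S ∈ A.L.filter (fun S => ¬ S ⊆ I), h ^ (S \ I).card ≤ LI A I * (2 * ρ ^ 1) := by
      refine le_trans ?_ (sum_tail A hI 1 hh0 hρ (by linarith))
      refine Finset.sum_le_sum_of_subset_of_nonneg ?_ fun S _ _ => by positivity
      intro S hS
      obtain ⟨e3, e4⟩ := Finset.mem_filter.mp hS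
      refine Finset.mem_filter.mpr ⟨e3, ?_⟩
      refine Finset.card_pos.mpr ?_
      rw [Finset.sdiff_nonempty]
      exact e4
    have e3 : 0 ≤ 2 * (∑ x, f x) * (∑ y, g y) := by positivity
    refine (mul_le_mul_of_nonneg_left e2 e3).trans ?_
    rw [pow_one]
    have e4 : 0 ≤ (∑ x, f x) * (∑ y, g y) * LI A I := by positivity
    nlinarith
  have h3 := (abs_le.mp h2).1
  rw [h1]
  linarith

end Pool.Agent.H58.LM
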