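import Pool.Agent.H58.LM.Core

/-! Labels: small sets of pointers with values; the parameters; the dead lemma. -/

set_option autoImplicit false
set_option linter.unusedSectionVars false

namespace Pool.Agent.H58.LM

open Finset
open Pool.Agent.H58.LG (zz Pure agr mem_agr Spread slice sum_small)

variable {ι α : Type*} [Fintype ι] [DecidableEq ι] [Fintype α] [DecidableEq α] {D : ℕ}

/-- the labels: small sets with values -/
def Lb (ι α : Type*) [DecidableEq ι] (e : ℕ) (a0 : ι → α) : Type _ :=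
  {q : Finset ι × (ι → α) // q.1.card ≤ e ∧ ∀ i, i ∉ q.1 → q.2 i = a0 i}

/-- the small sets -/
abbrev Sm (ι : Type*) (e : ℕ) : Type _ := {J : Finset ι // J.card ≤ e}

noncomputable instance (e : ℕ) (a0 : ι → α) : Fintype (Lb ι α e a0) := by
  unfold Lb
  exact Fintype.ofFinite _

noncomputable instance (e : ℕ) (a0 : ι → α) : DecidableEq (Lb ι α e a0) := Classical.decEq _

theorem card_lb_le (e : ℕ) (a0 : ι → α) :
    Fintype.card (Lb ι α e a0) ≤ (1 + Fintype.card ι * Fintype.card α) ^ e := by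
  classical
  have h1 : Fintype.card (Lb ι α e a0) ≤
      ((univ.filter fun S : Finset ι => S.card ≤ e).sigma fun S => slice S a0).card := by
    rw [← Finset.card_univ]
    refine Finset.card_le_card_of_injOn (fun q => ⟨q.1.1, q.1.2⟩) ?_ ?_
    · intro q _
      refine Finset.mem_coe.mpr (Finset.mem_sigma.mpr ⟨Finset.mem_filter.mpr
        ⟨Finset.mem_univ _, q.2.1⟩, Pool.Agent.H58.LG.mem_slice.mpr q.2.2⟩)
    · intro q _ q' _ h
      have h' : (⟨q.1.1, q.1.2⟩ : Σ _ : Finset ι, ι → α) = ⟨q'.1.1, q'.1.2⟩ := h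
      injection h' with h1 h2
      exact Subtype.ext (Prod.ext h1 h2)
  rw [Finset.card_sigma, Finset.sum_congr rfl fun S _ => card_slice S a0] at h1
  refine h1.trans ?_
  have h2 := sum_small (ι := ι) e (a := Fintype.card α) (Nat.cast_nonneg _)
  exact_mod_cast h2

/-- the label of `x` at `J` -/
def lab {e : ℕ} (a0 x : ι → α) (J : Sm ι e) : Lb ι α e a0 :=
  ⟨(J.1, fun i => if i ∈ J.1 then x i else a0 i), J.2, fun _ hi => if_neg hi⟩

theorem lab_fst {e : ℕ} (a0 x : ι → α) (J : Sm ι e) : (lab a0 x J).1.1 = J.1 := rfl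

theorem lab_agree {e : ℕ} (a0 x : ι → α) (J : Sm ι e) : ∀ i ∈ (lab a0 x J).1.1,
    x i = (lab a0 x J).1.2 i := fun i hi => (if_pos hi).symm

theorem live_lab {A : Sys ι D} {e : ℕ} {a0 x : ι → α} {J : Sm ι e} {y : ι → α → Bool} :
    Live A (lab a0 x J).1.1 (zz (lab a0 x J).1.2 y) ↔ Live A J.1 (zz x y) := by
  refine Live.congr fun i hi => ?_
  unfold zz
  congr 1
  exact if_pos hi

theorem live_of_agree {A : Sys ι D} {J : Finset ι} {x x' : ι → α} {y : ι → α → Bool}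
    (h : ∀ i ∈ J, x i = x' i) : Live A J (zz x y) ↔ Live A J (zz x' y) := by
  refine Live.congr fun i hi => ?_
  unfold zz
  rw [h i hi]

/-- The numerical parameters: `k` pointers with `m` values, `s` gates, relations with at most `C`
products on the left and `N` products on the right. -/
structure Par (k m s C N D : ℕ) where
  p : ℕ
  t : ℕ
  t0 : ℕ
  d : ℕ
  ds : ℕ
  d' : ℕ
  κ : ℝ
  κ1 : ℝ
  η : ℝ
  h : ℝ
  ρ : ℝ
  δ : ℝ
  hp : 1 ≤ p
  htp : t ≤ p
  hDk : D + 1 ≤ k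
  hdD : d + ds + d' ≤ D
  hκ : 0 < κ
  hκ1 : 0 < κ1
  hη : 0 < η
  hκm : 1 ≤ κ * m
  hηκ : η * (κ * m) ≤ 1
  hd : 1 ≤ (κ * m) ^ (d + 1) * η
  hds : 1 < (κ * m) ^ (ds + 1) * (η / (2 * (N + 1)))
  hd' : 1 ≤ (κ * m) ^ (d' + 1) * (κ1 * (η / (2 * (N + 1))))
  hh0 : 0 ≤ h
  hh : 16 * p * κ ≤ h ^ 2
  hρ : k * h ≤ ρ
  hρ1 : ρ ≤ 1 / 8
  ht : 4 * ((N + 1) * (1 + k * m) ^ (d + ds)) ^ 2 * 2 ^ t0 ≤ 2 ^ t
  htk : t ≤ k * m
  hδ0 : 0 ≤ δ
  hδ : 2 ^ t * (C + (N + 2) * (1 + k * m : ℝ) ^ (d + ds)) * ((1 + k) ^ D) ^ 3 *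
    (1 + (N + 3) * (1 + k * m : ℝ) ^ (d + ds)) ^ 2 * m ^ (d + ds) ≤
      δ ^ 2 * (η / (2 * (N + 1))) * m ^ (D + 1)
  n1 : δ + (N + 3) * (1 + k * m : ℝ) ^ (d + ds) * (err k (d + ds + d') D t p ρ +
    κ1 * (1 + k) ^ D) < 1 / 4

variable {s C N : ℕ}

theorem Par.m_pos (P : Par (Fintype.card ι) (Fintype.card α) s C N D) :
    (0 : ℝ) < Fintype.card α := by
  by_contra h3
  push Not at h3
  have : P.κ * (Fintype.card α : ℝ) ≤ 0 := mul_nonpos_of_nonneg_of_nonpos P.hκ.le h3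
  have := P.hκm
  linarith

theorem Par.m_one (P : Par (Fintype.card ι) (Fintype.card α) s C N D) :
    (1 : ℝ) ≤ Fintype.card α := by
  have h1 := P.m_pos
  exact_mod_cast Nat.succ_le_of_lt (by exact_mod_cast h1)

theorem Par.t0_le (P : Par (Fintype.card ι) (Fintype.card α) s C N D) : P.t0 + 2 ≤ P.t := by
  have h1 := P.ht
  have h2 : 1 ≤ ((N + 1) * (1 + Fintype.card ι * Fintype.card α) ^ (P.d + P.ds)) ^ 2 :=
    Nat.one_le_iff_ne_zero.mpr (by positivity)
  have h3 : 2 ^ (P.t0 + 2) ≤ 2 ^ P.t := by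
    calc 2 ^ (P.t0 + 2) = 4 * 1 * 2 ^ P.t0 := by rw [pow_add]; ring
      _ ≤ 4 * ((N + 1) * (1 + Fintype.card ι * Fintype.card α) ^ (P.d + P.ds)) ^ 2 *
          2 ^ P.t0 := by gcongr
      _ ≤ _ := h1
  exact (Nat.pow_le_pow_iff_right (by norm_num)).mp h3

/-- Not all elements of a large set can be dead at a large set of inputs. -/
theorem dead_false (P : Par (Fintype.card ι) (Fintype.card α) s C N D) (A : Sys ι D)
    {I : Finset ι} (hI : I.card ≤ P.d) {x0 : ι → α} (X : Finset (ι → α)) (hXne : X.Nonempty)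
    (hX0 : ∀ x ∈ X, ∀ i ∈ I, x i = x0 i)
    (hXs : Spread I (2 * P.κ) X.card (fun x => if x ∈ X then 1 else 0))
    (hXη : P.η / 2 * Fintype.card α ^ Fintype.card ι ≤ X.card * Fintype.card α ^ I.card)
    (Y : Finset (ι → α → Bool)) (hYI : ∀ y ∈ Y, Live A I (zz x0 y))
    (hY : (Fintype.card (ι → α → Bool) : ℝ) ≤ 2 ^ P.t * Y.card)
    (hdead : ∀ x ∈ X, ∃ J : Finset ι, J.card ≤ P.d + P.ds ∧ ∀ y ∈ Y, ¬ Live A J (zz x y)) :
    False := by
  classical
  have hm := P.m_pos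
  have hm1 := P.m_one
  have hκm := P.hκm
  have hκ := P.hκ
  have hκ1 := P.hκ1
  have hη := P.hη
  have hh := P.hh
  have hN : (0 : ℝ) ≤ N := Nat.cast_nonneg _
  have hC : (0 : ℝ) ≤ C := Nat.cast_nonneg _
  obtain ⟨Jf, hJf⟩ : ∃ Jf : (ι → α) → Sm ι (P.d + P.ds), ∀ x ∈ X, ∀ y ∈ Y,
      ¬ Live A (Jf x).1 (zz x y) := by
    refine ⟨fun x => if hx : x ∈ X then ⟨(hdead x hx).choose, (hdead x hx).choose_spec.1⟩ else
      ⟨∅, by simp⟩, fun x hx => ?_⟩
    simp only [dif_pos hx]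
    exact (hdead x hx).choose_spec.2
  obtain ⟨η', hη'⟩ : ∃ η', η' = P.η / (2 * (N + 1)) := ⟨_, rfl⟩
  have hη'0 : 0 < η' := by rw [hη']; positivity
  have hη'2 : η' ≤ P.η / 2 := by
    rw [hη']
    refine div_le_div_of_nonneg_left hη.le (by norm_num) ?_
    linarith
  have h1 := core (R := Lb ι α (P.d + P.ds) x0) (M := Fin 0) P.hp P.htp A P.hDk
    (I := I) (d := P.d + P.ds + P.d') (d' := P.d') (by omega) P.hdD (x0 := x0)
    (κ := 2 * P.κ) (κ1 := P.κ1) (η := η') (by positivity) hκ1 hη'0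
    (by linarith)
    (by
      have h2 := P.hd'
      rw [← hη'] at h2
      refine h2.trans (mul_le_mul_of_nonneg_right ?_ (by positivity))
      refine pow_le_pow_left₀ (by positivity) ?_ _
      nlinarith)
    X hXne hX0 hXs
    (le_trans (mul_le_mul_of_nonneg_right hη'2 (by positivity)) hXη) Y hYI hY P.hh0
    (by linarith) P.hρ P.hρ1
    (fun q => q.1.1) (fun q => q.1.2) (fun q => q.2.1.trans (by have := P.hdD; omega))
    (fun q x => if lab x0 x (Jf x) = q then 1 else 0)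
    (fun q y => if Live A q.1.1 (zz q.1.2 y) then 0 else 1)
    (fun q x _ hq => by
      have h2 : lab x0 x (Jf x) = q := by
        by_contra hcon
        rw [if_neg hcon] at hq
        exact hq rfl
      rw [← h2]
      exact lab_agree x0 x (Jf x))
    (fun q y _ hq => by
      intro hl
      rw [if_pos hl] at hq
      exact hq rfl)
    (fun r => Fin.elim0 r) (fun r => Fin.elim0 r) (fun r => Fin.elim0 r) (fun r => Fin.elim0 r)
    (fun r => Fin.elim0 r) (c := 1) (by norm_num)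
    (fun x hx y hy => by
      have h2 : ¬ Live A (lab x0 x (Jf x)).1.1 (zz (lab x0 x (Jf x)).1.2 y) := by
        rw [live_lab]
        exact hJf x hx y hy
      simp only [ite_mul, one_mul, zero_mul, Finset.sum_ite_eq, Finset.mem_univ, if_true]
      rw [if_neg h2]
      simp)
    (δ := P.δ) P.hδ0
    (by
      have h2 := P.hδ
      rw [← hη'] at h2
      refine le_trans ?_ h2
      rw [Fintype.card_fin, Nat.cast_zero, add_zero, one_pow, mul_one]
      have hW : (Fintype.card (Lb ι α (P.d + P.ds) x0) : ℝ) ≤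
          (1 + Fintype.card ι * Fintype.card α) ^ (P.d + P.ds) := by
        exact_mod_cast card_lb_le (P.d + P.ds) x0
      obtain ⟨W, hWd⟩ : ∃ W : ℝ, W = (1 + Fintype.card ι * Fintype.card α) ^ (P.d + P.ds) :=
        ⟨_, rfl⟩
      have hW0 : 0 ≤ W := by rw [hWd]; positivity
      rw [← hWd] at hW ⊢
      have e1 : (Fintype.card (Lb ι α (P.d + P.ds) x0) : ℝ) ≤ C + (N + 2) * W := by nlinarith
      have e2 : (Fintype.card α : ℝ) ^ I.card ≤ (Fintype.card α : ℝ) ^ (P.d + P.ds) :=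
        pow_le_pow_right₀ hm1 (by omega)
      have e3 : (1 : ℝ) ≤ (1 + (N + 3) * W) ^ 2 := by
        have : 1 ≤ 1 + (N + 3) * W := by nlinarith
        exact one_le_pow₀ this
      calc (2 : ℝ) ^ P.t * (Fintype.card (Lb ι α (P.d + P.ds) x0)) *
            ((1 + Fintype.card ι) ^ D) ^ 3 * Fintype.card α ^ I.card
          = 2 ^ P.t * (Fintype.card (Lb ι α (P.d + P.ds) x0)) *
            ((1 + Fintype.card ι) ^ D) ^ 3 * 1 * Fintype.card α ^ I.card := by ring
        _ ≤ 2 ^ P.t * (C + (N + 2) * W) * ((1 + Fintype.card ι) ^ D) ^ 3 *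
            (1 + (N + 3) * W) ^ 2 * Fintype.card α ^ (P.d + P.ds) := by gcongr)
  rw [Fintype.card_fin, Nat.cast_zero, zero_mul, add_zero] at h1
  have h2 := P.n1
  have h3 := err_nonneg (Fintype.card ι) (P.d + P.ds + P.d') D P.t P.p (ρ := P.ρ)
    (le_trans (mul_nonneg (Nat.cast_nonneg _) P.hh0) P.hρ)
  have h4 : 0 ≤ (N + 3) * (1 + Fintype.card ι * Fintype.card α : ℝ) ^ (P.d + P.ds) *
      (err (Fintype.card ι) (P.d + P.ds + P.d') D P.t P.p P.ρ +
      P.κ1 * (1 + Fintype.card ι) ^ D) := by positivity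
  linarith

end Pool.Agent.H58.LM
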