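import Pool.Agent.H58.LM.Lab

/-! The contradiction at a node, without margin. -/

set_option autoImplicit false
set_option linter.unusedSectionVars false

namespace Pool.Agent.H58.LM

open Finset
open Pool.Agent.H58.LG (zz Pure agr mem_agr Spread slice sum_small select card_agr
  spread_of_select)

variable {ι α : Type*} [Fintype ι] [DecidableEq ι] [Fintype α] [DecidableEq α] {D : ℕ}
  {s C N : ℕ}

theorem Spread_two {I : Finset ι} {κ : ℝ} (hκ : 0 ≤ κ) {X : Finset (ι → α)}
    (h : Spread I κ X.card (fun x => if x ∈ X then (1 : ℝ) else 0)) :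
    Spread I (2 * κ) X.card (fun x => if x ∈ X then (1 : ℝ) else 0) := by
  intro T hT b
  refine (h T hT b).trans ?_
  refine mul_le_mul_of_nonneg_right ?_ (Nat.cast_nonneg _)
  exact pow_le_pow_left₀ hκ (by linarith) _

theorem Spread_half {I : Finset ι} {κ : ℝ} (hκ : 0 ≤ κ) {X X' : Finset (ι → α)} (hX : X' ⊆ X)
    (hc : X.card ≤ 2 * X'.card)
    (h : Spread I κ X.card (fun x => if x ∈ X then (1 : ℝ) else 0)) :
    Spread I (2 * κ) X'.card (fun x => if x ∈ X' then (1 : ℝ) else 0) := by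
  intro T hT b
  rw [Finset.sum_ite_mem, Finset.sum_const, nsmul_eq_mul, mul_one]
  rcases T.eq_empty_or_nonempty with h0 | h0
  · subst h0
    rw [Finset.card_empty, pow_zero, one_mul]
    exact_mod_cast Finset.card_le_card Finset.inter_subset_right
  · have h1 := h T hT b
    rw [Finset.sum_ite_mem, Finset.sum_const, nsmul_eq_mul, mul_one] at h1
    have h2 : ((agr T b ∩ X').card : ℝ) ≤ (agr T b ∩ X).card := by
      exact_mod_cast Finset.card_le_card (Finset.inter_subset_inter_left hX)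
    refine h2.trans (h1.trans ?_)
    have h3 : (X.card : ℝ) ≤ 2 * X'.card := by exact_mod_cast hc
    have h4 : (2 : ℝ) ^ 1 ≤ 2 ^ T.card := pow_le_pow_right₀ (by norm_num) (Finset.card_pos.mpr h0)
    calc κ ^ T.card * X.card ≤ κ ^ T.card * (2 * X'.card) :=
          mul_le_mul_of_nonneg_left h3 (by positivity)
      _ = (2 ^ 1 * κ ^ T.card) * X'.card := by ring
      _ ≤ (2 ^ T.card * κ ^ T.card) * X'.card := by
          refine mul_le_mul_of_nonneg_right (mul_le_mul_of_nonneg_right h4 (by positivity))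
            (Nat.cast_nonneg _)
      _ = _ := by rw [mul_pow]

/-- **The node lemma.** -/
theorem node (P : Par (Fintype.card ι) (Fintype.card α) s C N D) (A : Sys ι D)
    {CC RR : Type*} [Fintype CC] [Fintype RR] (hCC : Fintype.card CC ≤ C)
    (hRR : Fintype.card RR ≤ N)
    {I : Finset ι} (hI : I.card ≤ P.d) {x0 : ι → α} (X : Finset (ι → α)) (hXne : X.Nonempty)
    (hX0 : ∀ x ∈ X, ∀ i ∈ I, x i = x0 i)
    (hXs : Spread I P.κ X.card (fun x => if x ∈ X then 1 else 0))
    (hXη : P.η * Fintype.card α ^ Fintype.card ι ≤ X.card * Fintype.card α ^ I.card)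
    (Y : Finset (ι → α → Bool)) (hYI : ∀ y ∈ Y, Live A I (zz x0 y))
    (hY : (Fintype.card (ι → α → Bool) : ℝ) ≤ 2 ^ P.t0 * Y.card)
    (J : CC → Finset ι) (b : CC → ι → α) (hJ : ∀ c, (J c).card ≤ D)
    (f : CC → (ι → α) → ℝ) (g : CC → (ι → α → Bool) → ℝ)
    (hf : ∀ c, ∀ x ∈ X, f c x ≠ 0 → ∀ i ∈ J c, x i = b c i)
    (hg : ∀ c, ∀ y ∈ Y, g c y ≠ 0 → ¬ Live A (J c) (zz (b c) y))
    (U : RR → (ι → α) → ℝ) (V : RR → (ι → α → Bool) → ℝ) (hU : ∀ r, ∀ x ∈ X, 0 ≤ U r x)
    (hV : ∀ r, ∀ y ∈ Y, 0 ≤ V r y) (V0 : (ι → α → Bool) → ℝ) (hV0 : ∀ y ∈ Y, 0 < V0 y)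
    (hrel : ∀ x ∈ X, ∀ y ∈ Y, (∑ c, f c x * g c y) = V0 y + ∑ r, U r x * V r y) :
    False := by
  classical
  have hm := P.m_pos
  have hm1 := P.m_one
  have hκm := P.hκm
  have hκ := P.hκ
  have hκ1 := P.hκ1
  have hη := P.hη
  have hh := P.hh
  have hN : (0 : ℝ) ≤ N := Nat.cast_nonneg _
  have hC : (0 : ℝ) ≤ C := Nat.cast_nonneg _
  have hXc : (0 : ℝ) < X.card := by exact_mod_cast Finset.card_pos.mpr hXne
  obtain ⟨e, he⟩ : ∃ e, e = P.d + P.ds := ⟨_, rfl⟩
  obtain ⟨η', hη'⟩ : ∃ η', η' = P.η / (2 * (N + 1)) := ⟨_, rfl⟩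
  have hη'0 : 0 < η' := by rw [hη']; positivity
  -- all products
  obtain ⟨A', hA'⟩ : ∃ A' : Option RR → (ι → α) → ℝ, (∀ x, A' none x = 1) ∧
    ∀ r x, A' (some r) x = U r x := ⟨fun o x => match o with
      | none => 1
      | some r => U r x, fun _ => rfl, fun _ _ => rfl⟩
  obtain ⟨B', hB'⟩ : ∃ B' : Option RR → (ι → α → Bool) → ℝ, (∀ y, B' none y = V0 y) ∧
    ∀ r y, B' (some r) y = V r y := ⟨fun o y => match o with
      | none => V0 y
      | some r => V r y, fun _ => rfl, fun _ _ => rfl⟩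
  have hA'0 : ∀ r, ∀ x ∈ X, 0 ≤ A' r x := by
    rintro (_ | r) x hx
    · rw [hA'.1]
      exact zero_le_one
    · rw [hA'.2]
      exact hU r x hx
  have hB'0 : ∀ r, ∀ y ∈ Y, 0 ≤ B' r y := by
    rintro (_ | r) y hy
    · rw [hB'.1]
      exact (hV0 y hy).le
    · rw [hB'.2]
      exact hV r y hy
  have hrel' : ∀ x ∈ X, ∀ y ∈ Y, (∑ c, f c x * g c y) = ∑ r, A' r x * B' r y := by
    intro x hx y hy
    rw [hrel x hx y hy, Fintype.sum_option, hA'.1, hB'.1, one_mul]
    simp only [hA'.2, hB'.2]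
  -- flattening
  obtain ⟨Bk, hBk⟩ : ∃ Bk : Option RR × Lb ι α e x0 → (ι → α → Bool) → ℝ, ∀ k y, Bk k y =
    if Live A k.2.1.1 (zz k.2.1.2 y) then B' k.1 y else 0 := ⟨_, fun _ _ => rfl⟩
  obtain ⟨Kc, hKc⟩ : ∃ Kc, Kc = Fintype.card (Option RR × Lb ι α e x0) := ⟨_, rfl⟩
  have hKle : Kc ≤ (N + 1) * (1 + Fintype.card ι * Fintype.card α) ^ e := by
    rw [hKc, Fintype.card_prod, Fintype.card_option]
    exact Nat.mul_le_mul (by omega) (card_lb_le e x0)
  have hKpos : 0 < Kc := by
    rw [hKc]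
    have : Nonempty (Option RR × Lb ι α e x0) := ⟨(none, lab x0 x0 ⟨∅, by simp⟩)⟩
    exact Fintype.card_pos
  have ht1 : 4 * Kc ^ 2 * 2 ^ P.t0 ≤ 2 ^ P.t := by
    refine le_trans ?_ P.ht
    rw [← he]
    gcongr
  obtain ⟨Ya, hYa⟩ : ∃ Ya, Ya = Fintype.card (ι → α → Bool) := ⟨_, rfl⟩
  have hYaN : Ya ≤ 2 ^ P.t0 * Y.card := by
    rw [hYa]
    exact_mod_cast hY
  have hYa2 : 2 ^ P.t ≤ Ya := by
    rw [hYa, Fintype.card_fun, Fintype.card_fun, Fintype.card_bool, ← pow_mul,
      mul_comm (Fintype.card α)]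
    exact Nat.pow_le_pow_right (by norm_num) P.htk
  have hYbig : 4 * Kc ^ 2 ≤ Y.card := by
    have h1 : 4 * Kc ^ 2 * 2 ^ P.t0 ≤ Y.card * 2 ^ P.t0 := by
      calc 4 * Kc ^ 2 * 2 ^ P.t0 ≤ 2 ^ P.t := ht1
        _ ≤ Ya := hYa2
        _ ≤ 2 ^ P.t0 * Y.card := hYaN
        _ = Y.card * 2 ^ P.t0 := mul_comm _ _
    exact Nat.le_of_mul_le_mul_right h1 (by positivity)
  obtain ⟨mm, hmm⟩ : ∃ mm, mm = Y.card / (2 * Kc ^ 2) := ⟨_, rfl⟩
  have hK2 : 0 < 2 * Kc ^ 2 := by positivity
  have hmm1 : 2 * Kc ^ 2 * mm ≤ Y.card := by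
    rw [hmm]
    exact Nat.mul_div_le _ _
  have hmm2 : Y.card < 2 * Kc ^ 2 * (mm + 1) := by
    rw [hmm]
    exact Nat.lt_mul_div_succ _ hK2
  have hmmpos : 1 ≤ mm := by
    rw [hmm, Nat.one_le_div_iff hK2]
    omega
  have hYmm : (Fintype.card (ι → α → Bool) : ℝ) ≤ 2 ^ P.t * mm := by
    rw [← hYa]
    have h1 : Ya ≤ 2 ^ P.t * mm := by
      have h2 : Y.card ≤ 4 * Kc ^ 2 * mm := by nlinarith
      calc Ya ≤ 2 ^ P.t0 * Y.card := hYaN
        _ ≤ 2 ^ P.t0 * (4 * Kc ^ 2 * mm) := Nat.mul_le_mul_left _ h2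
        _ = 4 * Kc ^ 2 * 2 ^ P.t0 * mm := by ring
        _ ≤ 2 ^ P.t * mm := Nat.mul_le_mul_right _ ht1
    exact_mod_cast h1
  obtain ⟨Y1, ω, lam, hY1Y, hY1c, hω, hlam0, hlam1, hlam2⟩ := flat Y Bk mm (by
    rw [← hKc]
    calc 2 * (Kc * (Kc * mm)) = 2 * Kc ^ 2 * mm := by ring
      _ ≤ _ := hmm1)
  have hY1t : (Fintype.card (ι → α → Bool) : ℝ) ≤ 2 ^ P.t * Y1.card := by
    rw [← hYa]
    have h1 : 2 ^ (P.t0 + 2) ≤ 2 ^ P.t := Nat.pow_le_pow_right (by norm_num) P.t0_le
    have h2 : Ya ≤ 2 ^ P.t * Y1.card := by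
      calc Ya ≤ 2 ^ P.t0 * Y.card := hYaN
        _ ≤ 2 ^ P.t0 * (2 * Y1.card) := Nat.mul_le_mul_left _ hY1c
        _ ≤ 2 ^ P.t0 * (4 * Y1.card) := by gcongr; norm_num
        _ = 2 ^ (P.t0 + 2) * Y1.card := by rw [pow_add]; ring
        _ ≤ 2 ^ P.t * Y1.card := Nat.mul_le_mul_right _ h1
    exact_mod_cast h2
  -- the best labels
  have hmin : ∀ (r : Option RR) (x : ι → α), ∃ J : Sm ι e, ∀ J' : Sm ι e,
      lam (r, lab x0 x J) ≤ lam (r, lab x0 x J') := by
    intro r x
    have : Nonempty (Sm ι e) := ⟨⟨∅, by simp⟩⟩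
    obtain ⟨J, -, hJ⟩ := Finset.exists_min_image (univ : Finset (Sm ι e))
      (fun J => lam (r, lab x0 x J)) Finset.univ_nonempty
    exact ⟨J, fun J' => hJ J' (Finset.mem_univ _)⟩
  choose Jr hJr using hmin
  obtain ⟨lh, hlh⟩ : ∃ lh : Option RR → (ι → α) → ℝ, ∀ r x, lh r x = lam (r, lab x0 x (Jr r x)) :=
    ⟨_, fun _ _ => rfl⟩
  have hlh0 : ∀ r x, 0 ≤ lh r x := fun r x => by rw [hlh]; exact hlam0 _
  have hmax : ∀ x : ι → α, ∃ r : Option RR, ∀ r', A' r' x * lh r' x ≤ A' r x * lh r x := by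
    intro x
    obtain ⟨r, -, hr⟩ := Finset.exists_max_image (univ : Finset (Option RR))
      (fun r => A' r x * lh r x) Finset.univ_nonempty
    exact ⟨r, fun r' => hr r' (Finset.mem_univ _)⟩
  choose rs hrs using hmax
  obtain ⟨Φ, hΦ⟩ : ∃ Φ : (ι → α) → ℝ, ∀ x, Φ x = A' (rs x) x * lh (rs x) x := ⟨_, fun _ => rfl⟩
  have hΦr : ∀ x r, A' r x * lh r x ≤ Φ x := fun x r => by rw [hΦ]; exact hrs x r
  have hΦ0 : ∀ x ∈ X, 0 ≤ Φ x := fun x hx => by
    rw [hΦ]
    exact mul_nonneg (hA'0 _ x hx) (hlh0 _ _)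
  -- the live part of a product
  have hlive : ∀ r, ∀ x ∈ X, ∀ y ∈ Y1, Live A (lab x0 x (Jr r x)).1.1
      (zz (lab x0 x (Jr r x)).1.2 y) → A' r x * (B' r y * ω y) ≤ Φ x := by
    intro r x hx y hy hl
    have h1 := hlam1 (r, lab x0 x (Jr r x)) y hy
    rw [hBk, if_pos hl, ← hlh] at h1
    exact (mul_le_mul_of_nonneg_left h1 (hA'0 r x hx)).trans (hΦr x r)
  -- the inputs without live products
  obtain ⟨Xd, hXd⟩ : ∃ Xd, Xd = X.filter fun x => Φ x ≤ 0 := ⟨_, rfl⟩
  have hXdsmall : 2 * Xd.card < X.card := by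
    by_contra hcon
    push Not at hcon
    have hsub : Xd ⊆ X := by rw [hXd]; exact Finset.filter_subset _ _
    have hne : Xd.Nonempty := by
      rw [← Finset.card_pos]
      have := Finset.card_pos.mpr hXne
      omega
    refine dead_false P A hI (x0 := x0) Xd hne (fun x hx => hX0 x (hsub hx))
      (Spread_half hκ.le hsub hcon hXs) ?_ Y1 (fun y hy => hYI y (hY1Y hy)) hY1t ?_
    · have h1 : (X.card : ℝ) ≤ 2 * Xd.card := by exact_mod_cast hcon
      have h2 : 0 ≤ (Fintype.card α : ℝ) ^ I.card := by positivity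
      have h3 := mul_le_mul_of_nonneg_right h1 h2
      linarith
    · intro x hx
      refine ⟨(Jr none x).1, by rw [← he]; exact (Jr none x).2, fun y hy hl => ?_⟩
      have hxX := hsub hx
      rw [hXd] at hx
      have h1 := (Finset.mem_filter.mp hx).2
      have h2 := hlive none x hxX y hy (live_lab.mpr hl)
      rw [hA'.1, one_mul, hB'.1] at h2
      have h3 := mul_pos (hV0 y (hY1Y hy)) (hω y)
      linarith
  -- one of the products dominates at many inputs
  obtain ⟨Xl, hXl⟩ : ∃ Xl, Xl = X.filter fun x => ¬ Φ x ≤ 0 := ⟨_, rfl⟩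
  have hXlc : X.card ≤ 2 * Xl.card := by
    have h1 := Finset.card_filter_add_card_filter_not (s := X) (fun x => Φ x ≤ 0)
    rw [← hXd, ← hXl] at h1
    omega
  obtain ⟨r, hr⟩ : ∃ r, X.card ≤ 2 * (N + 1) * (Xl.filter fun x => rs x = r).card := by
    by_contra hcon
    push Not at hcon
    have h1 : Xl.card = ∑ r, (Xl.filter fun x => rs x = r).card :=
      Finset.card_eq_sum_card_fiberwise fun x _ => Finset.mem_univ _
    have h2 : 2 * (N + 1) * Xl.card < (N + 1) * X.card := by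
      have h3 : ∑ r : Option RR, 2 * (N + 1) * (Xl.filter fun x => rs x = r).card <
          ∑ r : Option RR, X.card :=
        Finset.sum_lt_sum_of_nonempty Finset.univ_nonempty fun r _ => hcon r
      rw [Finset.sum_const, Finset.card_univ, Fintype.card_option, smul_eq_mul,
        ← Finset.mul_sum, ← h1] at h3
      refine h3.trans_le ?_
      exact Nat.mul_le_mul_right _ (by omega)
    have h4 : (N + 1) * X.card ≤ (N + 1) * (2 * Xl.card) := Nat.mul_le_mul_left _ hXlc
    have h5 : (N + 1) * (2 * Xl.card) = 2 * (N + 1) * Xl.card := by ring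
    omega
  obtain ⟨T, hT⟩ : ∃ T, T = Xl.filter fun x => rs x = r := ⟨_, rfl⟩
  rw [← hT] at hr
  have hTX : ∀ x ∈ T, x ∈ X ∧ 0 < Φ x ∧ rs x = r := by
    intro x hx
    rw [hT] at hx
    obtain ⟨h1, h2⟩ := Finset.mem_filter.mp hx
    rw [hXl] at h1
    obtain ⟨h3, h4⟩ := Finset.mem_filter.mp h1
    exact ⟨h3, not_le.mp h4, h2⟩
  have hTη : η' * Fintype.card α ^ Fintype.card ι ≤ T.card * Fintype.card α ^ I.card := by
    have h1 : (X.card : ℝ) ≤ 2 * (N + 1) * T.card := by exact_mod_cast hr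
    have h2 : 0 ≤ (Fintype.card α : ℝ) ^ I.card := by positivity
    have h3 := mul_le_mul_of_nonneg_right h1 h2
    have h4 : (0 : ℝ) < 2 * (N + 1) := by positivity
    rw [hη', div_mul_eq_mul_div, div_le_iff₀ h4]
    linarith
  -- a spread piece
  obtain ⟨J', b', hJI, hJ1, hJ2⟩ := select (F := I) hκ x0
    (f := fun x => if x ∈ T then (1 : ℝ) else 0) (fun x => by split_ifs <;> norm_num)
  have e1 : ∑ x : ι → α, (if x ∈ T then (1 : ℝ) else 0) = T.card := by
    rw [Finset.sum_ite_mem, Finset.univ_inter, Finset.sum_const, nsmul_eq_mul, mul_one]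
  have e2 : ∑ x ∈ agr J' b', (if x ∈ T then (1 : ℝ) else 0) = (agr J' b' ∩ T).card := by
    rw [Finset.sum_ite_mem, Finset.sum_const, nsmul_eq_mul, mul_one]
  obtain ⟨X', hX'⟩ : ∃ X', X' = agr J' b' ∩ T := ⟨_, rfl⟩
  have hX's := spread_of_select (agr J' b' ∩ T) (fun x => by
    by_cases h4 : x ∈ agr J' b' <;> by_cases h5 : x ∈ T <;> simp [h4, h5]) hJ2
  rw [e1, e2, ← hX'] at hJ1
  rw [← hX'] at hX's
  have hTpos : (0 : ℝ) < T.card := by
    by_contra hcon
    push Not at hcon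
    have h1 : (T.card : ℝ) * Fintype.card α ^ I.card ≤ 0 :=
      mul_nonpos_of_nonpos_of_nonneg hcon (by positivity)
    have h2 : 0 < η' * (Fintype.card α : ℝ) ^ Fintype.card ι := by positivity
    linarith
  have hX'pos : (0 : ℝ) < X'.card := lt_of_lt_of_le (by positivity) hJ1
  have hX'ne : X'.Nonempty := by
    rw [← Finset.card_pos]
    exact_mod_cast hX'pos
  obtain ⟨m, hmdef⟩ : ∃ m : ℝ, m = Fintype.card α := ⟨_, rfl⟩
  rw [← hmdef] at hm hm1 hκm hTη
  have hcardI : (I ∪ J').card = I.card + J'.card := Finset.card_union_of_disjoint hJI.symm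
  have hmass : (κ' : ℝ) → κ' = P.κ * m → κ' ^ J'.card * (η' * m ^ Fintype.card ι) ≤
      X'.card * m ^ (I ∪ J').card := by
    rintro κ' rfl
    rw [hcardI]
    calc (P.κ * m) ^ J'.card * (η' * m ^ Fintype.card ι) ≤
          (P.κ * m) ^ J'.card * (T.card * m ^ I.card) :=
          mul_le_mul_of_nonneg_left hTη (by positivity)
      _ = (P.κ ^ J'.card * T.card) * m ^ (I.card + J'.card) := by rw [mul_pow, pow_add]; ring
      _ ≤ X'.card * m ^ (I.card + J'.card) := mul_le_mul_of_nonneg_right hJ1 (by positivity)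
  have hmass := hmass _ rfl
  have hX'T : ∀ x ∈ X', x ∈ T := fun x hx => by
    rw [hX'] at hx
    exact (Finset.mem_inter.mp hx).2
  obtain ⟨x1, hx1⟩ := hX'ne
  have hX'1 : ∀ x ∈ X', ∀ i ∈ I ∪ J', x i = x1 i := by
    intro x hx i hi
    rcases Finset.mem_union.mp hi with h | h
    · rw [hX0 x (hTX x (hX'T x hx)).1 i h, hX0 x1 (hTX x1 (hX'T x1 hx1)).1 i h]
    · rw [hX'] at hx hx1
      rw [mem_agr.mp (Finset.mem_inter.mp hx).1 i h, mem_agr.mp (Finset.mem_inter.mp hx1).1 i h]
  have hJd : J'.card ≤ P.ds := by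
    by_contra hcon
    push Not at hcon
    have h1 : (X'.card : ℝ) ≤ (agr (I ∪ J') x1).card := by
      exact_mod_cast Finset.card_le_card fun x hx => mem_agr.mpr (hX'1 x hx)
    have h2 : ((agr (I ∪ J') x1).card : ℝ) * m ^ (I ∪ J').card = m ^ Fintype.card ι := by
      rw [hmdef]
      exact_mod_cast card_agr (I ∪ J') x1
    have h3 : (P.κ * m) ^ J'.card * (η' * m ^ Fintype.card ι) ≤ m ^ Fintype.card ι := by
      rw [← h2] at hmass ⊢
      refine hmass.trans ?_
      exact mul_le_mul_of_nonneg_right h1 (by positivity)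
    have h4 : (P.κ * m) ^ (P.ds + 1) ≤ (P.κ * m) ^ J'.card := pow_le_pow_right₀ hκm hcon
    have h5 : 1 < (P.κ * m) ^ J'.card * η' := by
      have h6 := P.hds
      rw [← hη', ← hmdef] at h6
      exact h6.trans_le (mul_le_mul_of_nonneg_right h4 hη'0.le)
    have h6 : 0 < m ^ Fintype.card ι := by positivity
    nlinarith
  have hIe : (I ∪ J').card ≤ e := by omega
  have hX'η : η' * m ^ Fintype.card ι ≤ X'.card * m ^ (I ∪ J').card := by
    refine le_trans ?_ hmass
    have h1 : (1 : ℝ) ≤ (P.κ * m) ^ J'.card := one_le_pow₀ hκm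
    have h2 : 0 ≤ η' * m ^ Fintype.card ι := by positivity
    nlinarith
  -- the common label
  obtain ⟨kst, hkst⟩ : ∃ kst : Lb ι α e x0, kst = lab x0 x1 ⟨I ∪ J', hIe⟩ := ⟨_, rfl⟩
  have hkx : ∀ x ∈ X', lab x0 x ⟨I ∪ J', hIe⟩ = kst := by
    intro x hx
    rw [hkst]
    unfold lab
    apply Subtype.ext
    refine Prod.ext rfl ?_
    funext i
    simp only
    by_cases h : i ∈ I ∪ J'
    · rw [if_pos h, if_pos h]
      exact hX'1 x hx i h
    · rw [if_neg h, if_neg h]
  obtain ⟨ls, hls⟩ : ∃ ls, ls = lam (r, kst) := ⟨_, rfl⟩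
  have hlsx : ∀ x ∈ X', 0 < lh r x ∧ lh r x ≤ ls ∧ 0 < A' r x ∧ Φ x = A' r x * lh r x := by
    intro x hx
    obtain ⟨h1, h2, h3⟩ := hTX x (hX'T x hx)
    have h4 : Φ x = A' r x * lh r x := by rw [hΦ, h3]
    rw [h4] at h2
    have h5 : 0 < lh r x := by
      rcases (hlh0 r x).eq_or_lt with h0 | h0
      · rw [← h0, mul_zero] at h2
        exact absurd h2 (lt_irrefl _)
      · exact h0
    have h6 : 0 < A' r x := by
      rcases (hA'0 r x h1).eq_or_lt with h0 | h0
      · rw [← h0, zero_mul] at h2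
        exact absurd h2 (lt_irrefl _)
      · exact h0
    refine ⟨h5, ?_, h6, h4⟩
    rw [hls, hlh, ← hkx x hx]
    exact hJr r x _
  have hlspos : 0 < ls := lt_of_lt_of_le (hlsx x1 hx1).1 (hlsx x1 hx1).2.1
  obtain ⟨Ys, hYs⟩ : ∃ Ys, Ys = Y1.filter fun y => lam (r, kst) ≤ 2 * (Bk (r, kst) y * ω y) :=
    ⟨_, rfl⟩
  have hYsc : mm ≤ Ys.card := by
    rw [hYs]
    exact hlam2 (r, kst) (by rw [← hls]; exact hlspos)
  have hYsY1 : ∀ y ∈ Ys, y ∈ Y1 := fun y hy => by
    rw [hYs] at hy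
    exact (Finset.mem_filter.mp hy).1
  have hYsprop : ∀ y ∈ Ys, Live A (I ∪ J') (zz x1 y) ∧ ls ≤ 2 * (B' r y * ω y) := by
    intro y hy
    rw [hYs] at hy
    have h1 := (Finset.mem_filter.mp hy).2
    rw [← hls, hBk] at h1
    by_cases hl : Live A kst.1.1 (zz kst.1.2 y)
    · rw [if_pos hl] at h1
      refine ⟨?_, h1⟩
      rw [hkst] at hl
      exact live_lab.mp hl
    · rw [if_neg hl] at h1
      simp only [zero_mul, mul_zero] at h1
      linarith
  have hYst : (Fintype.card (ι → α → Bool) : ℝ) ≤ 2 ^ P.t * Ys.card := by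
    refine hYmm.trans (mul_le_mul_of_nonneg_left ?_ (by positivity))
    exact_mod_cast hYsc
  -- live indicators
  obtain ⟨lv, hlv⟩ : ∃ lv : Lb ι α e x0 → (ι → α → Bool) → ℝ, ∀ q y, lv q y =
    if Live A q.1.1 (zz q.1.2 y) then 1 else 0 := ⟨_, fun _ _ => rfl⟩
  have hlv01 : ∀ q y, 0 ≤ lv q y := fun q y => by rw [hlv]; split_ifs <;> norm_num
  obtain ⟨Wc, hWc⟩ : ∃ Wc : ℝ, Wc = (1 + Fintype.card ι * Fintype.card α) ^ e := ⟨_, rfl⟩
  have hW : (Fintype.card (Lb ι α e x0) : ℝ) ≤ Wc := by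
    rw [hWc]
    exact_mod_cast card_lb_le e x0
  have hW0 : 0 ≤ Wc := by rw [hWc]; positivity
  have hRRN : (Fintype.card RR : ℝ) ≤ N := by exact_mod_cast hRR
  have hCCC : (Fintype.card CC : ℝ) ≤ C := by exact_mod_cast hCC
  have hcardR : (Fintype.card (CC ⊕ ((Option RR × Lb ι α e x0) ⊕ Lb ι α e x0)) : ℝ) ≤
      C + (N + 2) * Wc := by
    rw [Fintype.card_sum, Fintype.card_sum, Fintype.card_prod, Fintype.card_option]
    push_cast
    nlinarith
  have hcardM : (Fintype.card ((Option RR × Lb ι α e x0) ⊕ (Lb ι α e x0 ⊕ Lb ι α e x0)) : ℝ) ≤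
      (N + 3) * Wc := by
    rw [Fintype.card_sum, Fintype.card_sum, Fintype.card_prod, Fintype.card_option]
    push_cast
    nlinarith
  -- the dead products
  obtain ⟨Jd, hJd1⟩ : ∃ Jd : (CC ⊕ ((Option RR × Lb ι α e x0) ⊕ Lb ι α e x0)) → Finset ι,
    Jd = fun o => match o with
      | Sum.inl c => J c
      | Sum.inr (Sum.inl q) => q.2.1.1
      | Sum.inr (Sum.inr q) => q.1.1 := ⟨_, rfl⟩
  obtain ⟨bd, hbd⟩ : ∃ bd : (CC ⊕ ((Option RR × Lb ι α e x0) ⊕ Lb ι α e x0)) → ι → α,
    bd = fun o => match o with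
      | Sum.inl c => b c
      | Sum.inr (Sum.inl q) => q.2.1.2
      | Sum.inr (Sum.inr q) => q.1.2 := ⟨_, rfl⟩
  obtain ⟨fd, hfd⟩ : ∃ fd : (CC ⊕ ((Option RR × Lb ι α e x0) ⊕ Lb ι α e x0)) → (ι → α) → ℝ,
    fd = fun o x => match o with
      | Sum.inl c => f c x / Φ x
      | Sum.inr (Sum.inl q) => if lab x0 x (Jr q.1 x) = q.2 then -(A' q.1 x / Φ x) else 0
      | Sum.inr (Sum.inr q) => if lab x0 x (Jr r x) = q then 1 / 2 else 0 := ⟨_, rfl⟩
  obtain ⟨gd, hgd⟩ : ∃ gd : (CC ⊕ ((Option RR × Lb ι α e x0) ⊕ Lb ι α e x0)) →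
      (ι → α → Bool) → ℝ,
    gd = fun o y => match o with
      | Sum.inl c => g c y * ω y
      | Sum.inr (Sum.inl q) => B' q.1 y * ω y * (1 - lv q.2 y)
      | Sum.inr (Sum.inr q) => 1 - lv q y := ⟨_, rfl⟩
  -- the nonnegative products
  obtain ⟨Pd, hPd⟩ : ∃ Pd : ((Option RR × Lb ι α e x0) ⊕ (Lb ι α e x0 ⊕ Lb ι α e x0)) →
      (ι → α) → ℝ,
    Pd = fun o x => match o with
      | Sum.inl q => if q.1 = r then 0 else if lab x0 x (Jr q.1 x) = q.2 then A' q.1 x / Φ x else 0
      | Sum.inr (Sum.inl q) => if lab x0 x (Jr r x) = q then A' r x / Φ x - 1 / ls else 0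
      | Sum.inr (Sum.inr q) => if lab x0 x (Jr r x) = q then 1 else 0 := ⟨_, rfl⟩
  obtain ⟨Qd, hQd⟩ : ∃ Qd : ((Option RR × Lb ι α e x0) ⊕ (Lb ι α e x0 ⊕ Lb ι α e x0)) →
      (ι → α → Bool) → ℝ,
    Qd = fun o y => match o with
      | Sum.inl q => B' q.1 y * ω y * lv q.2 y
      | Sum.inr (Sum.inl q) => B' r y * ω y * lv q y
      | Sum.inr (Sum.inr q) => (B' r y * ω y / ls - 1 / 2) * lv q y := ⟨_, rfl⟩
  have hBω : ∀ r', ∀ y ∈ Ys, 0 ≤ B' r' y * ω y := fun r' y hy =>
    mul_nonneg (hB'0 r' y (hY1Y (hYsY1 y hy))) (hω y).le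
  have hX'X : ∀ x ∈ X', x ∈ X := fun x hx => (hTX x (hX'T x hx)).1
  have hΦpos : ∀ x ∈ X', 0 < Φ x := fun x hx => (hTX x (hX'T x hx)).2.1
  have hPr : ∀ x ∈ X', A' r x / Φ x = 1 / lh r x := by
    intro x hx
    obtain ⟨h1, _, h3, h4⟩ := hlsx x hx
    rw [h4]
    field_simp
  have hPls : ∀ x ∈ X', 0 ≤ A' r x / Φ x - 1 / ls := by
    intro x hx
    obtain ⟨h1, h2, _, _⟩ := hlsx x hx
    rw [hPr x hx]
    have := one_div_le_one_div_of_le h1 h2
    linarith
  have hQls : ∀ y ∈ Ys, 0 ≤ B' r y * ω y / ls - 1 / 2 := by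
    intro y hy
    have h1 := (hYsprop y hy).2
    have h2 : 1 / 2 ≤ B' r y * ω y / ls := by
      rw [le_div_iff₀ hlspos]
      linarith
    linarith
  have hprod : ∀ r', ∀ x ∈ X', ∀ y ∈ Ys, A' r' x / Φ x * (B' r' y * ω y * lv (lab x0 x (Jr r' x)) y)
      ≤ 1 := by
    intro r' x hx y hy
    rw [hlv]
    split_ifs with hl
    · have h1 := hlive r' x (hX'X x hx) y (hYsY1 y hy) hl
      have h2 := hΦpos x hx
      rw [mul_one, div_mul_eq_mul_div, div_le_one h2]
      exact h1
    · rw [mul_zero, mul_zero]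
      exact zero_le_one
  have hfin := core (R := CC ⊕ ((Option RR × Lb ι α e x0) ⊕ Lb ι α e x0))
    (M := (Option RR × Lb ι α e x0) ⊕ (Lb ι α e x0 ⊕ Lb ι α e x0)) P.hp P.htp A P.hDk
    (I := I ∪ J') (d := P.d + P.ds + P.d') (d' := P.d') (by omega) P.hdD (x0 := x1)
    (κ := 2 * P.κ) (κ1 := P.κ1) (η := η') (by positivity) hκ1 hη'0
    (by rw [← hmdef]; linarith)
    (by
      have h2 := P.hd'
      rw [← hη', ← hmdef] at h2
      rw [← hmdef]
      refine h2.trans (mul_le_mul_of_nonneg_right ?_ (by positivity))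
      refine pow_le_pow_left₀ (by positivity) ?_ _
      nlinarith)
    X' ⟨x1, hx1⟩ hX'1 (Spread_two hκ.le hX's) (by rw [← hmdef]; exact hX'η) Ys
    (fun y hy => (hYsprop y hy).1) hYst P.hh0 (by linarith) P.hρ P.hρ1 Jd bd
    (by
      rw [hJd1]
      have h9 := P.hdD
      rintro (c | q | q)
      · exact hJ c
      · exact q.2.2.1.trans (by omega)
      · exact q.2.1.trans (by omega))
    fd gd
    (by
      rw [hfd, hJd1, hbd]
      rintro (c | q | q) x hx hne i hi
      · refine hf c x (hX'X x hx) ?_ i hi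
        intro h0
        apply hne
        show f c x / Φ x = 0
        rw [h0, zero_div]
      · have h1 : lab x0 x (Jr q.1 x) = q.2 := by
          by_contra hcon
          exact hne (if_neg hcon)
        have h2 : i ∈ q.2.1.1 := hi
        show x i = q.2.1.2 i
        rw [← h1] at h2 ⊢
        exact lab_agree x0 x _ i h2
      · have h1 : lab x0 x (Jr r x) = q := by
          by_contra hcon
          exact hne (if_neg hcon)
        have h2 : i ∈ q.1.1 := hi
        show x i = q.1.2 i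
        rw [← h1] at h2 ⊢
        exact lab_agree x0 x _ i h2)
    (by
      rw [hgd, hJd1, hbd]
      rintro (c | q | q) y hy hne hl
      · refine hg c y (hY1Y (hYsY1 y hy)) ?_ hl
        intro h0
        apply hne
        show g c y * ω y = 0
        rw [h0, zero_mul]
      · apply hne
        show B' q.1 y * ω y * (1 - lv q.2 y) = 0
        rw [hlv, if_pos hl]
        ring
      · apply hne
        show 1 - lv q y = 0
        rw [hlv, if_pos hl]
        ring)
    Pd Qd
    (by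
      rw [hPd]
      rintro (q | q | q) x hx
      · show 0 ≤ (if q.1 = r then (0 : ℝ) else
          if lab x0 x (Jr q.1 x) = q.2 then A' q.1 x / Φ x else 0)
        split_ifs
        · exact le_rfl
        · exact div_nonneg (hA'0 _ x (hX'X x hx)) (hΦpos x hx).le
        · exact le_rfl
      · show 0 ≤ (if lab x0 x (Jr r x) = q then A' r x / Φ x - 1 / ls else 0)
        split_ifs
        · exact hPls x hx
        · exact le_rfl
      · show (0 : ℝ) ≤ (if lab x0 x (Jr r x) = q then 1 else 0)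
        split_ifs <;> norm_num)
    (by
      rw [hQd]
      rintro (q | q | q) y hy
      · exact mul_nonneg (hBω _ y hy) (hlv01 _ _)
      · exact mul_nonneg (hBω _ y hy) (hlv01 _ _)
      · exact mul_nonneg (hQls y hy) (hlv01 _ _))
    (by
      rw [hPd, hQd]
      rintro (q | q | q) x hx y hy
      · show (if q.1 = r then (0 : ℝ) else
          if lab x0 x (Jr q.1 x) = q.2 then A' q.1 x / Φ x else 0) *
          (B' q.1 y * ω y * lv q.2 y) ≤ 1
        split_ifs with h1 h2
        · rw [zero_mul]; exact zero_le_one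
        · rw [← h2]
          exact hprod q.1 x hx y hy
        · rw [zero_mul]; exact zero_le_one
      · show (if lab x0 x (Jr r x) = q then A' r x / Φ x - 1 / ls else 0) *
          (B' r y * ω y * lv q y) ≤ 1
        split_ifs with h1
        · rw [← h1]
          refine le_trans ?_ (hprod r x hx y hy)
          refine mul_le_mul_of_nonneg_right ?_ (mul_nonneg (hBω _ y hy) (hlv01 _ _))
          have : 0 < 1 / ls := by positivity
          linarith
        · rw [zero_mul]; exact zero_le_one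
      · show (if lab x0 x (Jr r x) = q then (1 : ℝ) else 0) *
          ((B' r y * ω y / ls - 1 / 2) * lv q y) ≤ 1
        split_ifs with h1
        · rw [one_mul, ← h1]
          have h2 := hprod r x hx y hy
          have h3 := hPls x hx
          have h4 : 0 ≤ B' r y * ω y * lv (lab x0 x (Jr r x)) y :=
            mul_nonneg (hBω _ y hy) (hlv01 _ _)
          have h5 : (A' r x / Φ x - 1 / ls) * (B' r y * ω y * lv (lab x0 x (Jr r x)) y) ≥ 0 :=
            mul_nonneg h3 h4
          have h6 : (B' r y * ω y / ls - 1 / 2) * lv (lab x0 x (Jr r x)) y =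
              1 / ls * (B' r y * ω y * lv (lab x0 x (Jr r x)) y) -
                1 / 2 * lv (lab x0 x (Jr r x)) y := by ring
          have h7 := hlv01 (lab x0 x (Jr r x)) y
          rw [h6]
          linarith
        · rw [zero_mul]; exact zero_le_one)
    (c := 1 / 2) (by norm_num)
    (by
      intro x hx y hy
      have hΦx := hΦpos x hx
      have h0 := hrel' x (hX'X x hx) y (hY1Y (hYsY1 y hy))
      -- the left side
      have e3 : ∑ o, fd o x * gd o y = ω y / Φ x * (∑ c, f c x * g c y) +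
          ((∑ r', -(A' r' x / Φ x) * (B' r' y * ω y * (1 - lv (lab x0 x (Jr r' x)) y))) +
            1 / 2 * (1 - lv (lab x0 x (Jr r x)) y)) := by
        rw [Fintype.sum_sum_type, Fintype.sum_sum_type, Fintype.sum_prod_type]
        congr 1
        · rw [Finset.mul_sum, hfd, hgd]
          refine Finset.sum_congr rfl fun c _ => ?_
          show f c x / Φ x * (g c y * ω y) = _
          ring
        · congr 1
          · refine Finset.sum_congr rfl fun r' _ => ?_
            rw [hfd, hgd]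
            rw [Finset.sum_eq_single (lab x0 x (Jr r' x))]
            · show (if lab x0 x (Jr r' x) = lab x0 x (Jr r' x) then -(A' r' x / Φ x) else 0) *
                (B' r' y * ω y * (1 - lv (lab x0 x (Jr r' x)) y)) = _
              rw [if_pos rfl]
            · intro q _ hq
              show (if lab x0 x (Jr r' x) = q then -(A' r' x / Φ x) else 0) * _ = 0
              rw [if_neg (Ne.symm hq), zero_mul]
            · intro h
              exact absurd (Finset.mem_univ _) h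
          · rw [hfd, hgd]
            rw [Finset.sum_eq_single (lab x0 x (Jr r x))]
            · show (if lab x0 x (Jr r x) = lab x0 x (Jr r x) then (1 : ℝ) / 2 else 0) *
                (1 - lv (lab x0 x (Jr r x)) y) = _
              rw [if_pos rfl]
            · intro q _ hq
              show (if lab x0 x (Jr r x) = q then (1 : ℝ) / 2 else 0) * _ = 0
              rw [if_neg (Ne.symm hq), zero_mul]
            · intro h
              exact absurd (Finset.mem_univ _) h
      have e4 : ∑ o, Pd o x * Qd o y =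
          (∑ r', if r' = r then 0 else A' r' x / Φ x *
            (B' r' y * ω y * lv (lab x0 x (Jr r' x)) y)) +
          ((A' r x / Φ x - 1 / ls) * (B' r y * ω y * lv (lab x0 x (Jr r x)) y) +
            (B' r y * ω y / ls - 1 / 2) * lv (lab x0 x (Jr r x)) y) := by
        rw [Fintype.sum_sum_type, Fintype.sum_sum_type, Fintype.sum_prod_type]
        congr 1
        · refine Finset.sum_congr rfl fun r' _ => ?_
          rw [hPd, hQd]
          rw [Finset.sum_eq_single (lab x0 x (Jr r' x))]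
          · show (if r' = r then (0 : ℝ) else
              if lab x0 x (Jr r' x) = lab x0 x (Jr r' x) then A' r' x / Φ x else 0) *
              (B' r' y * ω y * lv (lab x0 x (Jr r' x)) y) = _
            by_cases h : r' = r
            · rw [if_pos h, if_pos h, zero_mul]
            · rw [if_neg h, if_neg h, if_pos rfl]
          · intro q _ hq
            show (if r' = r then (0 : ℝ) else
              if lab x0 x (Jr r' x) = q then A' r' x / Φ x else 0) * _ = 0
            rw [if_neg (Ne.symm hq), ite_self, zero_mul]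
          · intro h
            exact absurd (Finset.mem_univ _) h
        · congr 1
          · rw [hPd, hQd]
            rw [Finset.sum_eq_single (lab x0 x (Jr r x))]
            · show (if lab x0 x (Jr r x) = lab x0 x (Jr r x) then A' r x / Φ x - 1 / ls else 0) *
                (B' r y * ω y * lv (lab x0 x (Jr r x)) y) = _
              rw [if_pos rfl]
            · intro q _ hq
              show (if lab x0 x (Jr r x) = q then A' r x / Φ x - 1 / ls else 0) * _ = 0
              rw [if_neg (Ne.symm hq), zero_mul]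
            · intro h
              exact absurd (Finset.mem_univ _) h
          · rw [hPd, hQd]
            rw [Finset.sum_eq_single (lab x0 x (Jr r x))]
            · show (if lab x0 x (Jr r x) = lab x0 x (Jr r x) then (1 : ℝ) else 0) *
                ((B' r y * ω y / ls - 1 / 2) * lv (lab x0 x (Jr r x)) y) = _
              rw [if_pos rfl, one_mul]
            · intro q _ hq
              show (if lab x0 x (Jr r x) = q then (1 : ℝ) else 0) * _ = 0
              rw [if_neg (Ne.symm hq), zero_mul]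
            · intro h
              exact absurd (Finset.mem_univ _) h
      rw [e3, e4, h0]
      -- the product `r`
      have e5 : ∑ r', -(A' r' x / Φ x) * (B' r' y * ω y * (1 - lv (lab x0 x (Jr r' x)) y)) =
          -(ω y / Φ x * ∑ r', A' r' x * B' r' y) +
          ∑ r', A' r' x / Φ x * (B' r' y * ω y * lv (lab x0 x (Jr r' x)) y) := by
        rw [Finset.mul_sum, ← Finset.sum_neg_distrib, ← Finset.sum_add_distrib]
        refine Finset.sum_congr rfl fun r' _ => ?_
        ring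
      have e6 : ∑ r', A' r' x / Φ x * (B' r' y * ω y * lv (lab x0 x (Jr r' x)) y) =
          (∑ r', if r' = r then 0 else A' r' x / Φ x *
            (B' r' y * ω y * lv (lab x0 x (Jr r' x)) y)) +
          A' r x / Φ x * (B' r y * ω y * lv (lab x0 x (Jr r x)) y) := by
        have e7 : ∑ r' : Option RR, (if r' = r then A' r' x / Φ x *
            (B' r' y * ω y * lv (lab x0 x (Jr r' x)) y) else 0) =
            A' r x / Φ x * (B' r y * ω y * lv (lab x0 x (Jr r x)) y) := by
          rw [Finset.sum_ite_eq' univ r, if_pos (Finset.mem_univ _)]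
        rw [← e7, ← Finset.sum_add_distrib]
        refine Finset.sum_congr rfl fun r' _ => ?_
        split_ifs <;> ring
      rw [e5, e6]
      ring)
    (δ := P.δ) P.hδ0
    (by
      have h2 := P.hδ
      rw [← hη', ← he] at h2
      refine le_trans ?_ h2
      rw [← hWc, ← hmdef]
      have e3 : m ^ (I ∪ J').card ≤ m ^ e := pow_le_pow_right₀ hm1 hIe
      have e4 : (0 : ℝ) ≤ Fintype.card ((Option RR × Lb ι α e x0) ⊕
        (Lb ι α e x0 ⊕ Lb ι α e x0)) := Nat.cast_nonneg _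
      have e5 : (1 / 2 + (Fintype.card ((Option RR × Lb ι α e x0) ⊕
          (Lb ι α e x0 ⊕ Lb ι α e x0)) : ℝ)) ^ 2 ≤ (1 + (N + 3) * Wc) ^ 2 :=
        pow_le_pow_left₀ (by linarith) (by linarith) 2
      have e6 : (0 : ℝ) ≤ C + (N + 2) * Wc := by positivity
      gcongr)
  have h1 := P.n1
  rw [← he, ← hWc] at h1
  have h2 := err_nonneg (Fintype.card ι) (e + P.d') D P.t P.p (ρ := P.ρ)
    (le_trans (mul_nonneg (Nat.cast_nonneg _) P.hh0) P.hρ)
  rw [← he] at hfin
  have h4 : 0 ≤ err (Fintype.card ι) (e + P.d') D P.t P.p P.ρ +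
      P.κ1 * (1 + Fintype.card ι) ^ D := by positivity
  have h5 := mul_le_mul_of_nonneg_right hcardM h4
  linarith

end Pool.Agent.H58.LM
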