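import Pool.Agent.H58.LM.Ind

/-! The choice of the parameters. -/

set_option autoImplicit false
set_option linter.unusedSectionVars false

namespace Pool.Agent.H58.LM

open Finset
open Pool.Agent.H58.LG (zz)

/-- The parameters for circuits of size at most `U ^ (10 d)`. -/
theorem exists_par {k s R u d : ℕ} (hd1 : 1 ≤ d) (hu : 16 ≤ u) (hk : 1 + k ≤ 2 ^ u)
    (hkD : 90 * d + 1 ≤ k) (hpu : u * (7872 * d + 80) ≤ 2 ^ u) (hs : s ≤ (2 ^ u) ^ (10 * d))
    (hR : R ≤ (2 ^ u) ^ (10 * d)) :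
    ∃ (C N : ℕ) (P : Par k ((2 ^ u) ^ 17) s C N (90 * d)), P.d = d ∧ P.t0 = u * (48 * d + 1) ∧
      P.κ * (((2 ^ u) ^ 17 : ℕ) : ℝ) = (2 ^ u) ^ 10 ∧ P.η = 1 / (2 ^ u) ^ (10 * d + 10) ∧
      (1 + k * (2 ^ u) ^ 17) ^ (6 * d) ≤ C ∧ 4 * (s * (1 + k * (2 ^ u) ^ 17) ^ d) ≤ C ∧
      4 * (s * (1 + k * (2 ^ u) ^ 17) ^ d) + R ≤ N := by
  obtain ⟨V, hV⟩ : ∃ V : ℕ, V = 2 ^ u := ⟨_, rfl⟩
  have hV16 : 2 ^ 16 ≤ V := by
    rw [hV]
    exact Nat.pow_le_pow_right (by norm_num) hu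
  have hV65 : 65536 ≤ V := by
    calc 65536 = 2 ^ 16 := by norm_num
      _ ≤ V := hV16
  rw [← hV] at hk hpu hs hR
  rw [← hV]
  obtain ⟨m, hm⟩ : ∃ m : ℕ, m = V ^ 17 := ⟨_, rfl⟩
  have hm1 : 1 ≤ m := by
    rw [hm]
    exact Nat.one_le_pow _ _ (by omega)
  have hkm : 1 + k * m ≤ V ^ 18 := by
    calc 1 + k * m ≤ m + k * m := by omega
      _ = (1 + k) * m := by ring
      _ ≤ V * V ^ 17 := by rw [← hm]; exact Nat.mul_le_mul_right _ hk
      _ = V ^ 18 := by ring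
  have hkme : ∀ e : ℕ, (1 + k * m) ^ e ≤ V ^ (18 * e) := by
    intro e
    rw [pow_mul]
    exact Nat.pow_le_pow_left hkm e
  have hV0 : 0 < V := by omega
  have hmono : ∀ {a b : ℕ}, a ≤ b → V ^ a ≤ V ^ b := fun h => Nat.pow_le_pow_right hV0 h
  have h28 : s * (1 + k * m) ^ d ≤ V ^ (28 * d) := by
    calc s * (1 + k * m) ^ d ≤ V ^ (10 * d) * V ^ (18 * d) := Nat.mul_le_mul hs (hkme d)
      _ = V ^ (28 * d) := by rw [← pow_add]; congr 1; omega
  obtain ⟨N, hN⟩ : ∃ N, N = 4 * (s * (1 + k * m) ^ d) + R := ⟨_, rfl⟩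
  obtain ⟨C, hC⟩ : ∃ C, C = (1 + k * m) ^ (6 * d) + 4 * (s * (1 + k * m) ^ d) := ⟨_, rfl⟩
  have hRV : R ≤ V ^ (28 * d) := hR.trans (hmono (by omega))
  have hN5 : N ≤ 5 * V ^ (28 * d) := by omega
  have hone : 1 ≤ V ^ (28 * d) := Nat.one_le_pow _ _ hV0
  have hN3 : 2 * (N + 3) ≤ V ^ (28 * d + 1) := by
    calc 2 * (N + 3) ≤ 16 * V ^ (28 * d) := by omega
      _ ≤ V * V ^ (28 * d) := Nat.mul_le_mul_right _ (by omega)
      _ = V ^ (28 * d + 1) := by ring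
  have hCV : C ≤ V ^ (108 * d + 1) := by
    have h1 := hkme (6 * d)
    have h2 : V ^ (28 * d) ≤ V ^ (108 * d) := hmono (by omega)
    have h3 : V ^ (18 * (6 * d)) = V ^ (108 * d) := by congr 1; omega
    calc C ≤ 5 * V ^ (108 * d) := by rw [h3] at h1; omega
      _ ≤ V * V ^ (108 * d) := Nat.mul_le_mul_right _ (by omega)
      _ = V ^ (108 * d + 1) := by ring
  -- real versions
  obtain ⟨U, hU⟩ : ∃ U : ℝ, U = V := ⟨_, rfl⟩
  have hU65 : 65536 ≤ U := by rw [hU]; exact_mod_cast hV65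
  have hU0 : 0 < U := by linarith
  have hU1 : 1 ≤ U := by linarith
  have hUpow : ∀ {a b : ℕ}, a ≤ b → U ^ a ≤ U ^ b := fun h => pow_le_pow_right₀ hU1 h
  have hmU : (m : ℝ) = U ^ 17 := by rw [hm, hU]; push_cast; ring
  have hN3U : 2 * ((N : ℝ) + 3) ≤ U ^ (28 * d + 1) := by rw [hU]; exact_mod_cast hN3
  have hCU : (C : ℝ) ≤ U ^ (108 * d + 1) := by rw [hU]; exact_mod_cast hCV
  have hWU : ∀ e : ℕ, (1 + k * m : ℝ) ^ e ≤ U ^ (18 * e) := by
    intro e
    rw [hU]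
    exact_mod_cast hkme e
  have hZU : (1 + (k : ℝ)) ^ (90 * d) ≤ U ^ (90 * d) := by
    have h1 : (1 + (k : ℝ)) ≤ U := by rw [hU]; exact_mod_cast hk
    exact pow_le_pow_left₀ (by positivity) h1 _
  have hW90 : (1 + k * m : ℝ) ^ (d + 4 * d) ≤ U ^ (90 * d) := by
    refine (hWU _).trans (le_of_eq ?_)
    congr 1
    omega
  have hNW : ((N : ℝ) + 3) * (1 + k * m : ℝ) ^ (d + 4 * d) ≤ U ^ (118 * d + 1) := by
    have h0 : (0 : ℝ) ≤ N := Nat.cast_nonneg _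
    calc ((N : ℝ) + 3) * (1 + k * m : ℝ) ^ (d + 4 * d) ≤ U ^ (28 * d + 1) * U ^ (90 * d) :=
          mul_le_mul (by linarith) hW90 (by positivity) (by positivity)
      _ = U ^ (118 * d + 1) := by rw [← pow_add]; congr 1; omega
  have hηN : ∀ x : ℝ, 0 ≤ x → x / U ^ (38 * d + 11) ≤
      x * (1 / U ^ (10 * d + 10) / (2 * ((N : ℝ) + 1))) := by
    intro x hx
    have h0 : (0 : ℝ) ≤ N := Nat.cast_nonneg _
    have h1 : 0 < U ^ (10 * d + 10) := by positivity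
    have h2 : 0 < 2 * ((N : ℝ) + 1) := by positivity
    rw [div_div, mul_one_div]
    refine div_le_div_of_nonneg_left hx (by positivity) ?_
    calc U ^ (10 * d + 10) * (2 * ((N : ℝ) + 1)) ≤ U ^ (10 * d + 10) * U ^ (28 * d + 1) :=
          mul_le_mul_of_nonneg_left (by linarith) h1.le
      _ = U ^ (38 * d + 11) := by rw [← pow_add]; congr 1; omega
  have hκm' : 1 / U ^ 7 * (m : ℝ) = U ^ 10 := by
    rw [hmU, one_div_mul_eq_div, div_eq_iff (by positivity), ← pow_add]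
  -- the parameters
  obtain ⟨p, hp⟩ : ∃ p, p = u * (492 * d + 5) := ⟨_, rfl⟩
  obtain ⟨t, ht⟩ : ∃ t, t = u * (284 * d + 3) := ⟨_, rfl⟩
  have h2U : ∀ e : ℕ, (2 : ℝ) ^ (u * e) = U ^ e := by
    intro e
    rw [pow_mul, hU, hV]
    push_cast
    ring
  have h2V : ∀ e : ℕ, 2 ^ (u * e) = V ^ e := by
    intro e
    rw [pow_mul, hV]
  have hd2 : (2 : ℝ) ^ (30 * d) ≤ U ^ (2 * d) := by
    calc (2 : ℝ) ^ (30 * d) = (2 ^ 15) ^ (2 * d) := by rw [← pow_mul]; congr 1; omega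
      _ ≤ U ^ (2 * d) := pow_le_pow_left₀ (by norm_num) (by linarith) _
  refine ⟨C, N, ⟨p, t, u * (48 * d + 1), d, 4 * d, 25 * d, 1 / U ^ 7, 1 / U ^ (208 * d + 2),
    1 / U ^ (10 * d + 10), 1 / U ^ 3, 1 / U ^ 2, 1 / 16, ?_, ?_, ?_, ?_, ?_, ?_, ?_, ?_, ?_, ?_,
    ?_, ?_, ?_, ?_, ?_, ?_, ?_, ?_, ?_, ?_, ?_⟩, rfl, rfl, ?_, ?_, ?_, ?_, ?_⟩
  · -- hp
    rw [hp]
    exact Nat.one_le_iff_ne_zero.mpr (Nat.mul_ne_zero (by omega) (by omega))
  · -- htp
    rw [hp, ht]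
    exact Nat.mul_le_mul_left _ (by omega)
  · -- hDk
    exact hkD
  · -- hdD
    omega
  · positivity
  · positivity
  · positivity
  · -- hκm
    rw [← hm, hκm']
    exact one_le_pow₀ hU1
  · -- hηκ
    rw [← hm, hκm', one_div_mul_eq_div, div_le_one (by positivity)]
    exact hUpow (by omega)
  · -- hd
    rw [← hm, hκm', ← pow_mul, mul_one_div, one_le_div (by positivity)]
    exact hUpow (by omega)
  · -- hds
    rw [← hm, hκm', ← pow_mul]
    refine lt_of_lt_of_le ?_ (hηN _ (by positivity))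
    rw [one_lt_div (by positivity)]
    exact pow_lt_pow_right₀ (by linarith) (by omega)
  · -- hd'
    rw [← hm, hκm', ← pow_mul, ← mul_assoc]
    refine le_trans ?_ (hηN _ (by positivity))
    rw [mul_one_div, div_div, ← pow_add, one_le_div (by positivity)]
    exact hUpow (by omega)
  · positivity
  · -- hh
    have h1 : 16 * (p : ℝ) ≤ U := by
      rw [hU]
      have : 16 * p ≤ V := by
        refine le_trans (le_of_eq ?_) hpu
        rw [hp]
        ring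
      exact_mod_cast this
    calc 16 * (p : ℝ) * (1 / U ^ 7) ≤ U * (1 / U ^ 7) :=
          mul_le_mul_of_nonneg_right h1 (by positivity)
      _ = (1 / U ^ 3) ^ 2 := by
        field_simp
  · -- hρ
    have h1 : (k : ℝ) ≤ U := by
      rw [hU]
      exact_mod_cast (by omega : k ≤ V)
    calc (k : ℝ) * (1 / U ^ 3) ≤ U * (1 / U ^ 3) := mul_le_mul_of_nonneg_right h1 (by positivity)
      _ = 1 / U ^ 2 := by field_simp
  · -- hρ1
    rw [div_le_div_iff₀ (by positivity) (by norm_num)]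
    nlinarith
  · -- ht
    rw [ht, h2V, h2V, ← hm]
    have h1 : 2 * (N + 1) ≤ V ^ (28 * d + 1) := by omega
    have h2 : (1 + k * m) ^ (d + 4 * d) ≤ V ^ (90 * d) := by
      refine (hkme _).trans (le_of_eq ?_)
      congr 1
      omega
    calc 4 * ((N + 1) * (1 + k * m) ^ (d + 4 * d)) ^ 2 * V ^ (48 * d + 1) =
          ((2 * (N + 1)) * (1 + k * m) ^ (d + 4 * d)) ^ 2 * V ^ (48 * d + 1) := by ring
      _ ≤ (V ^ (28 * d + 1) * V ^ (90 * d)) ^ 2 * V ^ (48 * d + 1) := by gcongr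
      _ = V ^ (284 * d + 3) := by
        rw [← pow_add, ← pow_mul, ← pow_add]
        congr 1
        omega
  · -- htk
    rw [ht]
    have h1 : 4 * u ≤ V ^ 17 := by
      have h2 : u < V := by rw [hV]; exact Nat.lt_two_pow_self
      calc 4 * u ≤ V * V := Nat.mul_le_mul (by omega) h2.le
        _ = V ^ 2 := by ring
        _ ≤ V ^ 17 := hmono (by omega)
    calc u * (284 * d + 3) ≤ (90 * d + 1) * (4 * u) := by nlinarith
      _ ≤ k * V ^ 17 := Nat.mul_le_mul hkD h1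
  · norm_num
  · -- hδ
    rw [ht, h2U, ← hm]
    have h1 : (C : ℝ) + (N + 2) * (1 + k * m : ℝ) ^ (d + 4 * d) ≤ U ^ (118 * d + 2) := by
      have e1 : ((N : ℝ) + 2) * (1 + k * m : ℝ) ^ (d + 4 * d) ≤ U ^ (118 * d + 1) := by
        refine le_trans ?_ hNW
        refine mul_le_mul_of_nonneg_right (by linarith) (by positivity)
      have e2 : (C : ℝ) ≤ U ^ (118 * d + 1) := hCU.trans (hUpow (by omega))
      calc (C : ℝ) + (N + 2) * (1 + k * m : ℝ) ^ (d + 4 * d) ≤ 2 * U ^ (118 * d + 1) := by linarith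
        _ ≤ U * U ^ (118 * d + 1) := mul_le_mul_of_nonneg_right (by linarith) (by positivity)
        _ = _ := by ring
    have h2 : 1 + ((N : ℝ) + 3) * (1 + k * m : ℝ) ^ (d + 4 * d) ≤ U ^ (118 * d + 2) := by
      have e1 : (1 : ℝ) ≤ U ^ (118 * d + 1) := one_le_pow₀ hU1
      calc 1 + ((N : ℝ) + 3) * (1 + k * m : ℝ) ^ (d + 4 * d) ≤ 2 * U ^ (118 * d + 1) := by linarith
        _ ≤ U * U ^ (118 * d + 1) := mul_le_mul_of_nonneg_right (by linarith) (by positivity)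
        _ = _ := by ring
    have h3 : (0 : ℝ) ≤ 1 + ((N : ℝ) + 3) * (1 + k * m : ℝ) ^ (d + 4 * d) := by positivity
    have h4 : (0 : ℝ) ≤ (C : ℝ) + (N + 2) * (1 + k * m : ℝ) ^ (d + 4 * d) := by positivity
    have hlhs : U ^ (284 * d + 3) * ((C : ℝ) + (N + 2) * (1 + k * m : ℝ) ^ (d + 4 * d)) *
        ((1 + (k : ℝ)) ^ (90 * d)) ^ 3 *
        (1 + ((N : ℝ) + 3) * (1 + k * m : ℝ) ^ (d + 4 * d)) ^ 2 * (m : ℝ) ^ (d + 4 * d) ≤
        U ^ (993 * d + 9) := by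
      calc U ^ (284 * d + 3) * ((C : ℝ) + (N + 2) * (1 + k * m : ℝ) ^ (d + 4 * d)) *
          ((1 + (k : ℝ)) ^ (90 * d)) ^ 3 *
          (1 + ((N : ℝ) + 3) * (1 + k * m : ℝ) ^ (d + 4 * d)) ^ 2 * (m : ℝ) ^ (d + 4 * d)
          ≤ U ^ (284 * d + 3) * U ^ (118 * d + 2) * (U ^ (90 * d)) ^ 3 *
            (U ^ (118 * d + 2)) ^ 2 * (U ^ 17) ^ (d + 4 * d) := by
            rw [hmU]
            rw [hmU] at h1 h2 h3 h4
            gcongr
        _ = U ^ (993 * d + 9) := by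
          rw [← pow_mul, ← pow_mul, ← pow_mul, ← pow_add, ← pow_add, ← pow_add, ← pow_add]
          congr 1
          omega
    refine hlhs.trans ?_
    have h5 := hηN ((1 / 16) ^ 2 * (m : ℝ) ^ (90 * d + 1)) (by positivity)
    have h6 : (1 / 16 : ℝ) ^ 2 * (1 / U ^ (10 * d + 10) / (2 * ((N : ℝ) + 1))) *
        (m : ℝ) ^ (90 * d + 1) = (1 / 16) ^ 2 * (m : ℝ) ^ (90 * d + 1) *
        (1 / U ^ (10 * d + 10) / (2 * ((N : ℝ) + 1))) := by ring
    rw [h6]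
    refine le_trans ?_ h5
    rw [le_div_iff₀ (by positivity), hmU, ← pow_mul, ← pow_add]
    have h7 : U ^ (993 * d + 9 + (38 * d + 11)) ≤ U ^ (17 * (90 * d + 1) - 1) := hUpow (by omega)
    have h8 : U * U ^ (17 * (90 * d + 1) - 1) = U ^ (17 * (90 * d + 1)) := by
      rw [← pow_succ']
      congr 1
    rw [← h8]
    have h9 : 0 ≤ U ^ (17 * (90 * d + 1) - 1) := by positivity
    nlinarith
  · -- n1
    rw [← hm, ht, hp]
    have hdd : d + 4 * d + 25 * d = 30 * d := by ring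
    have hDd : 90 * d + 1 - 30 * d = 60 * d + 1 := by omega
    unfold err
    rw [hdd, hDd, h2U]
    have e1 : ((1 : ℝ) / 2) ^ (u * (492 * d + 5)) = 1 / U ^ (492 * d + 5) := by
      rw [one_div_pow, h2U]
    rw [e1]
    have e2 : 4 * (2 : ℝ) ^ (30 * d) * (1 / U ^ 2) ^ (60 * d + 1) ≤ 4 / U ^ (118 * d + 2) := by
      rw [one_div_pow, ← pow_mul, mul_one_div, div_le_div_iff₀ (by positivity) (by positivity)]
      calc 4 * (2 : ℝ) ^ (30 * d) * U ^ (118 * d + 2) ≤ 4 * U ^ (2 * d) * U ^ (118 * d + 2) := by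
            gcongr
        _ = 4 * U ^ (2 * (60 * d + 1)) := by
          rw [mul_assoc, ← pow_add]
          congr 2
          omega
    have e3 : U ^ (284 * d + 3) * (1 / U ^ (492 * d + 5)) * (1 + (k : ℝ)) ^ (90 * d) ≤
        1 / U ^ (118 * d + 2) := by
      rw [mul_one_div]
      calc U ^ (284 * d + 3) / U ^ (492 * d + 5) * (1 + (k : ℝ)) ^ (90 * d) ≤
            U ^ (284 * d + 3) / U ^ (492 * d + 5) * U ^ (90 * d) :=
            mul_le_mul_of_nonneg_left hZU (by positivity)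
        _ = 1 / U ^ (118 * d + 2) := by
          rw [div_mul_eq_mul_div, div_eq_div_iff (by positivity) (by positivity), one_mul,
            ← pow_add, ← pow_add]
          congr 1
          omega
    have e4 : 1 / U ^ (208 * d + 2) * (1 + (k : ℝ)) ^ (90 * d) ≤ 1 / U ^ (118 * d + 2) := by
      calc 1 / U ^ (208 * d + 2) * (1 + (k : ℝ)) ^ (90 * d) ≤
            1 / U ^ (208 * d + 2) * U ^ (90 * d) := mul_le_mul_of_nonneg_left hZU (by positivity)
        _ = 1 / U ^ (118 * d + 2) := by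
          rw [one_div_mul_eq_div, div_eq_div_iff (by positivity) (by positivity), one_mul,
            ← pow_add]
          congr 1
          omega
    have e5 : 4 * (2 : ℝ) ^ (30 * d) * (1 / U ^ 2) ^ (60 * d + 1) +
        U ^ (284 * d + 3) * (1 / U ^ (492 * d + 5)) * (1 + (k : ℝ)) ^ (90 * d) +
        1 / U ^ (208 * d + 2) * (1 + (k : ℝ)) ^ (90 * d) ≤ 6 / U ^ (118 * d + 2) := by
      have : 6 / U ^ (118 * d + 2) = 4 / U ^ (118 * d + 2) + 1 / U ^ (118 * d + 2) +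
        1 / U ^ (118 * d + 2) := by ring
      linarith
    have e6 : (0 : ℝ) ≤ (N + 3) * (1 + k * m : ℝ) ^ (d + 4 * d) := by positivity
    have e7 : ((N : ℝ) + 3) * (1 + k * m : ℝ) ^ (d + 4 * d) *
        (4 * (2 : ℝ) ^ (30 * d) * (1 / U ^ 2) ^ (60 * d + 1) +
        U ^ (284 * d + 3) * (1 / U ^ (492 * d + 5)) * (1 + (k : ℝ)) ^ (90 * d) +
        1 / U ^ (208 * d + 2) * (1 + (k : ℝ)) ^ (90 * d)) ≤
        U ^ (118 * d + 1) * (6 / U ^ (118 * d + 2)) :=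
      mul_le_mul hNW e5 (by positivity) (by positivity)
    have e8 : U ^ (118 * d + 1) * (6 / U ^ (118 * d + 2)) = 6 / U := by
      rw [pow_succ U (118 * d + 1)]
      field_simp
    have e9 : 6 / U ≤ 1 / 16 := by
      rw [div_le_div_iff₀ hU0 (by norm_num)]
      linarith
    rw [e8] at e7
    linarith
  · -- κ m
    have h1 : ((V ^ 17 : ℕ) : ℝ) = m := by rw [hm]
    show 1 / U ^ 7 * ((V ^ 17 : ℕ) : ℝ) = _
    rw [h1, hκm', hU, hV]
    push_cast
    ring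
  · show 1 / U ^ (10 * d + 10) = _
    rw [hU, hV]
    push_cast
    ring
  · rw [← hm, hC]
    omega
  · rw [← hm, hC]
    omega
  · rw [← hm, hN]

end Pool.Agent.H58.LM
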