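import Pool.Agent.H58.LM.Ker

/-! Near nonnegativity of the kernel at products. -/

set_option autoImplicit false
set_option linter.unusedSectionVars false

namespace Pool.Agent.H58.LM

open Finset
open Pool.Agent.H58.LG (zz Pure agr mem_agr Spread decay select sum_small sum_large card_agr)

variable {ι α : Type*} [Fintype ι] [DecidableEq ι] [Fintype α] [DecidableEq α] {D : ℕ}

theorem lam_eq (A : Sys ι D) (f : (ι → α) → ℝ) (g : (ι → α → Bool) → ℝ) :
    Lam A f g = ∑ x, f x * ∑ y, g y * ker A (zz x y) := by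
  unfold Lam
  refine Finset.sum_congr rfl fun x _ => ?_
  rw [Finset.mul_sum]
  exact Finset.sum_congr rfl fun y _ => by ring

/-- the kernel is small at a spread piece and a dead restriction -/
theorem dead_piece {p : ℕ} (hp : 1 ≤ p) (A : Sys ι D) {F : Finset ι} {d : ℕ} (hFd : F.card ≤ d)
    (hdD : d ≤ D) {x1 : ι → α} {f : (ι → α) → ℝ} {κ : ℝ}
    (hκ : 0 ≤ κ) (hf0 : ∀ x, 0 ≤ f x) (hfF : ∀ x, f x ≠ 0 → ∀ i ∈ F, x i = x1 i)
    (hsp : Spread F κ (∑ x, f x) f) {g : (ι → α → Bool) → ℝ} {b0 G : ℝ}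
    (hg0 : ∀ y, 0 ≤ g y) (hgb : ∀ y, g y ≤ b0) (hG : ∑ y, g y ≤ G)
    (hgF : ∀ y, g y ≠ 0 → ¬ Live A F (zz x1 y))
    (hb : b0 * Fintype.card (ι → α → Bool) ≤ 2 ^ p * G) {h ρ : ℝ} (hh0 : 0 ≤ h)
    (hh : 8 * p * κ ≤ h ^ 2) (hρ : Fintype.card ι * h ≤ ρ) (hρ1 : ρ ≤ 1 / 2) :
    |Lam A f g| ≤ (∑ x, f x) * G * (4 * 2 ^ d * ρ ^ (D + 1 - d)) := by
  classical
  have hρ0 : 0 ≤ ρ := le_trans (by positivity) hρ
  have hF0 : 0 ≤ ∑ x, f x := Finset.sum_nonneg fun x _ => hf0 x
  have hG0 : 0 ≤ G := (Finset.sum_nonneg fun y _ => hg0 y).trans hG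
  have h1 : Lam A f g = ∑ S ∈ A.L.filter (fun S => D < (S \ F).card + F.card),
      A.sn S * ∑ x, ∑ y, f x * g y * chi S (zz x y) := by
    unfold Lam
    have e1 : ∀ x y, f x * g y * ker A (zz x y) =
        ∑ S ∈ A.L.filter (fun S => D < (S \ F).card + F.card),
          A.sn S * (f x * g y * chi S (zz x y)) := by
      intro x y
      by_cases hx : f x = 0
      · rw [hx]
        simp
      by_cases hy : g y = 0
      · rw [hy]
        simp
      have hd : ¬ Live A F (zz x y) := by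
        intro hl
        refine hgF y hy ((Live.congr fun i hi => ?_).mp hl)
        unfold zz
        rw [hfF x hx i hi]
      rw [ker_dead A (hFd.trans hdD) hd, Finset.mul_sum]
      exact Finset.sum_congr rfl fun S _ => by ring
    simp only [e1, Finset.mul_sum]
    symm
    rw [Finset.sum_comm]
    refine Finset.sum_congr rfl fun x _ => ?_
    rw [Finset.sum_comm]
  rw [h1]
  refine (Finset.abs_sum_le_sum_abs _ _).trans ?_
  have e1 : ∀ S ∈ A.L.filter (fun S => D < (S \ F).card + F.card),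
      |A.sn S * ∑ x, ∑ y, f x * g y * chi S (zz x y)| ≤
        2 * (∑ x, f x) * G * h ^ (S \ F).card := by
    intro S hS
    rw [abs_mul, abs_sn A (Finset.mem_filter.mp hS).1, one_mul]
    exact pterm hp hκ hf0 hfF hsp hg0 hgb hG hb hh0 hh
  refine (Finset.sum_le_sum e1).trans ?_
  rw [← Finset.mul_sum]
  have e2 : ∑ S ∈ A.L.filter (fun S => D < (S \ F).card + F.card), h ^ (S \ F).card ≤
      LI A F * (2 * ρ ^ (D + 1 - F.card)) := by
    refine le_trans ?_ (sum_tail A (hFd.trans hdD) (D + 1 - F.card) hh0 hρ hρ1)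
    refine Finset.sum_le_sum_of_subset_of_nonneg ?_ fun S _ _ => by positivity
    intro S hS
    obtain ⟨e3, e4⟩ := Finset.mem_filter.mp hS
    exact Finset.mem_filter.mpr ⟨e3, by omega⟩
  have e3 : (LI A F : ℝ) * (2 * ρ ^ (D + 1 - F.card)) ≤ 2 * 2 ^ d * ρ ^ (D + 1 - d) := by
    have e4 : (LI A F : ℝ) ≤ 2 ^ F.card := by exact_mod_cast LI_le A F
    have e5 : D + 1 - F.card = (D + 1 - d) + (d - F.card) := by omega
    have e6 : ρ ^ (d - F.card) ≤ 1 := pow_le_one₀ hρ0 (by linarith)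
    have e7 : (2 : ℝ) ^ F.card ≤ 2 ^ d := pow_le_pow_right₀ (by norm_num) hFd
    have e8 : 0 ≤ ρ ^ (D + 1 - d) := by positivity
    have e9 : 0 ≤ ρ ^ (d - F.card) := by positivity
    rw [e5, pow_add]
    calc (LI A F : ℝ) * (2 * (ρ ^ (D + 1 - d) * ρ ^ (d - F.card))) ≤
          2 ^ d * (2 * (ρ ^ (D + 1 - d) * 1)) := by
          refine mul_le_mul (e4.trans e7) ?_ (by positivity) (by positivity)
          refine mul_le_mul_of_nonneg_left ?_ (by norm_num)
          exact mul_le_mul_of_nonneg_left e6 e8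
      _ = _ := by ring
  have e4 : 0 ≤ 2 * (∑ x, f x) * G := by positivity
  refine (mul_le_mul_of_nonneg_left (e2.trans e3) e4).trans (le_of_eq ?_)
  ring

/-- the error of the nonnegativity of the kernel -/
noncomputable def err (k d D t p : ℕ) (ρ : ℝ) : ℝ :=
  4 * 2 ^ d * ρ ^ (D + 1 - d) + 2 ^ t * (1 / 2) ^ p * (1 + k) ^ D

theorem err_nonneg (k d D t p : ℕ) {ρ : ℝ} (hρ : 0 ≤ ρ) : 0 ≤ err k d D t p ρ := by
  unfold err
  positivity

/-- near nonnegativity at spread pieces -/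
theorem piece {p t : ℕ} (hp : 1 ≤ p) (htp : t ≤ p) (A : Sys ι D) {F : Finset ι} {d : ℕ}
    (hFd : F.card ≤ d) (hdD : d ≤ D) {x1 : ι → α} {f : (ι → α) → ℝ} {κ : ℝ}
    (hκ : 0 ≤ κ) (hf0 : ∀ x, 0 ≤ f x) (hfF : ∀ x, f x ≠ 0 → ∀ i ∈ F, x i = x1 i)
    (hsp : Spread F κ (∑ x, f x) f) {g : (ι → α → Bool) → ℝ} {b0 : ℝ}
    (Y : Finset (ι → α → Bool)) (hb0 : 0 ≤ b0)
    (hg0 : ∀ y, 0 ≤ g y) (hgb : ∀ y, g y ≤ b0) (hgY : ∀ y, y ∉ Y → g y = 0)
    (hY : (Fintype.card (ι → α → Bool) : ℝ) ≤ 2 ^ t * Y.card) {h ρ : ℝ} (hh0 : 0 ≤ h)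
    (hh : 8 * p * κ ≤ h ^ 2) (hρ : Fintype.card ι * h ≤ ρ) (hρ1 : ρ ≤ 1 / 8) :
    -((∑ x, f x) * (b0 * Y.card) * err (Fintype.card ι) d D t p ρ) ≤ Lam A f g := by
  classical
  have hρ0 : 0 ≤ ρ := le_trans (by positivity) hρ
  have hF0 : 0 ≤ ∑ x, f x := Finset.sum_nonneg fun x _ => hf0 x
  have hFD : F.card ≤ D := hFd.trans hdD
  have hgG : ∑ y, g y ≤ b0 * Y.card := by
    have e1 : ∑ y, g y = ∑ y ∈ Y, g y := by
      symm
      refine Finset.sum_subset (Finset.subset_univ _) fun y _ hy => hgY y hy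
    rw [e1]
    refine (Finset.sum_le_sum fun y _ => hgb y).trans ?_
    rw [Finset.sum_const, nsmul_eq_mul, mul_comm]
  have hbY : b0 * Fintype.card (ι → α → Bool) ≤ 2 ^ p * (b0 * Y.card) := by
    have h1 : (2 : ℝ) ^ t ≤ 2 ^ p := pow_le_pow_right₀ (by norm_num) htp
    have h2 : (0 : ℝ) ≤ Y.card := Nat.cast_nonneg _
    calc b0 * Fintype.card (ι → α → Bool) ≤ b0 * (2 ^ t * Y.card) :=
          mul_le_mul_of_nonneg_left hY hb0
      _ ≤ b0 * (2 ^ p * Y.card) :=
        mul_le_mul_of_nonneg_left (mul_le_mul_of_nonneg_right h1 h2) hb0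
      _ = _ := by ring
  obtain ⟨g1, hg1⟩ : ∃ g1 : (ι → α → Bool) → ℝ, ∀ y, g1 y =
    @ite ℝ (Live A F (zz x1 y)) (Classical.dec _) (g y) 0 := ⟨_, fun _ => rfl⟩
  obtain ⟨g2, hg2⟩ : ∃ g2 : (ι → α → Bool) → ℝ, ∀ y, g2 y =
    @ite ℝ (Live A F (zz x1 y)) (Classical.dec _) 0 (g y) := ⟨_, fun _ => rfl⟩
  have hsplit : Lam A f g = Lam A f g1 + Lam A f g2 := by
    unfold Lam
    rw [← Finset.sum_add_distrib]
    refine Finset.sum_congr rfl fun x _ => ?_
    rw [← Finset.sum_add_distrib]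
    refine Finset.sum_congr rfl fun y _ => ?_
    rw [hg1, hg2]
    split_ifs <;> ring
  have hg10 : ∀ y, 0 ≤ g1 y := by
    intro y
    rw [hg1]
    split_ifs
    · exact hg0 y
    · exact le_rfl
  have hg1b : ∀ y, g1 y ≤ b0 := by
    intro y
    rw [hg1]
    split_ifs
    · exact hgb y
    · exact hb0
  have hg20 : ∀ y, 0 ≤ g2 y := by
    intro y
    rw [hg2]
    split_ifs
    · exact le_rfl
    · exact hg0 y
  have hg2b : ∀ y, g2 y ≤ b0 := by
    intro y
    rw [hg2]
    split_ifs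
    · exact hb0
    · exact hgb y
  have hg2G : ∑ y, g2 y ≤ b0 * Y.card := by
    refine le_trans (Finset.sum_le_sum fun y _ => ?_) hgG
    rw [hg2]
    split_ifs
    · exact hg0 y
    · exact le_rfl
  -- the dead part
  have h2 := dead_piece (f := f) (g := g2) (x1 := x1) hp A hFd hdD hκ hf0 hfF hsp hg20 hg2b hg2G
    (fun y hy hl => hy (by rw [hg2, if_pos hl])) hbY hh0 hh hρ (by linarith)
  -- the live part
  have h4 : -((∑ x, f x) * (b0 * Y.card) * (2 ^ t * (1 / 2) ^ p * (1 + Fintype.card ι) ^ D)) ≤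
      Lam A f g1 := by
    have hG0 : 0 ≤ ∑ y, g1 y := Finset.sum_nonneg fun y _ => hg10 y
    rcases le_or_gt (b0 * Fintype.card (ι → α → Bool)) (2 ^ p * ∑ y, g1 y) with hc | hc
    · have e1 := main_part (f := f) (g := g1) (x0 := x1) hp A hFD hκ hf0 hfF hsp hg10 hg1b
        (fun y hy => by
          by_contra hcon
          rw [hg1, if_neg hcon] at hy
          exact hy rfl) hc hh0 hh hρ hρ1
      refine le_trans ?_ e1
      have e3 : 0 ≤ (∑ x, f x) * (b0 * Y.card) *
        (2 ^ t * (1 / 2) ^ p * (1 + Fintype.card ι) ^ D) := by positivity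
      have e4 : 0 ≤ 1 / 2 * (LI A F * ((∑ x, f x) * (∑ y, g1 y))) := by positivity
      linarith
    · have e1 : |Lam A f g1| ≤ (∑ x, f x) * (∑ y, g1 y) * (1 + Fintype.card ι) ^ D := by
        unfold Lam
        rw [Finset.sum_mul_sum, Finset.sum_mul]
        refine (Finset.abs_sum_le_sum_abs _ _).trans (Finset.sum_le_sum fun x _ => ?_)
        rw [Finset.sum_mul]
        refine (Finset.abs_sum_le_sum_abs _ _).trans (Finset.sum_le_sum fun y _ => ?_)
        rw [abs_mul, abs_of_nonneg (mul_nonneg (hf0 x) (hg10 y))]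
        exact mul_le_mul_of_nonneg_left (abs_ker_le A _) (mul_nonneg (hf0 x) (hg10 y))
      have e3 : ∑ y, g1 y ≤ (b0 * Y.card) * (2 ^ t * (1 / 2) ^ p) := by
        have e5 : (1 / 2 : ℝ) ^ p * 2 ^ p = 1 := by
          rw [← mul_pow]
          norm_num
        calc ∑ y, g1 y = (1 / 2) ^ p * (2 ^ p * ∑ y, g1 y) := by rw [← mul_assoc, e5, one_mul]
          _ ≤ (1 / 2) ^ p * (b0 * Fintype.card (ι → α → Bool)) :=
            mul_le_mul_of_nonneg_left hc.le (by positivity)
          _ ≤ (1 / 2) ^ p * (b0 * (2 ^ t * Y.card)) :=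
            mul_le_mul_of_nonneg_left (mul_le_mul_of_nonneg_left hY hb0) (by positivity)
          _ = _ := by ring
      have e4 : (∑ x, f x) * (∑ y, g1 y) * (1 + Fintype.card ι) ^ D ≤
          (∑ x, f x) * (b0 * Y.card) * (2 ^ t * (1 / 2) ^ p * (1 + Fintype.card ι) ^ D) := by
        calc (∑ x, f x) * (∑ y, g1 y) * (1 + Fintype.card ι) ^ D
            ≤ (∑ x, f x) * ((b0 * Y.card) * (2 ^ t * (1 / 2) ^ p)) * (1 + Fintype.card ι) ^ D :=
              mul_le_mul_of_nonneg_right (mul_le_mul_of_nonneg_left e3 hF0) (by positivity)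
          _ = _ := by ring
      have e5 := (abs_le.mp e1).1
      linarith
  have h5 := (abs_le.mp h2).1
  rw [hsplit]
  unfold err
  have h6 : (∑ x, f x) * (b0 * Y.card) *
      (4 * 2 ^ d * ρ ^ (D + 1 - d) + 2 ^ t * (1 / 2) ^ p * (1 + (Fintype.card ι : ℝ)) ^ D) =
      (∑ x, f x) * (b0 * Y.card) * (4 * 2 ^ d * ρ ^ (D + 1 - d)) +
      (∑ x, f x) * (b0 * Y.card) * (2 ^ t * (1 / 2) ^ p * (1 + (Fintype.card ι : ℝ)) ^ D) := by
    ring
  rw [h6]
  linarith

/-- near nonnegativity of the kernel -/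
theorem nonneg_part {p t : ℕ} (hp : 1 ≤ p) (htp : t ≤ p) (A : Sys ι D) {I : Finset ι}
    {d d' : ℕ} (hId : I.card + d' ≤ d) (hdD : d ≤ D) {x0 : ι → α}
    {κ κ1 η : ℝ} (hκ : 0 < κ) (hκ1 : 0 < κ1) (hη : 0 < η)
    (hκm : 1 ≤ κ * Fintype.card α) (hd : 1 ≤ (κ * Fintype.card α) ^ (d' + 1) * (κ1 * η))
    (X : Finset (ι → α)) (hX0 : ∀ x ∈ X, ∀ i ∈ I, x i = x0 i)
    (hXη : η * Fintype.card α ^ Fintype.card ι ≤ X.card * Fintype.card α ^ I.card)
    {f : (ι → α) → ℝ} {a0 : ℝ} (hf0 : ∀ x, 0 ≤ f x) (hfa : ∀ x, f x ≤ a0)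
    (hfX : ∀ x, x ∉ X → f x = 0)
    {g : (ι → α → Bool) → ℝ} {b0 : ℝ} (Y : Finset (ι → α → Bool)) (ha0 : 0 ≤ a0) (hb0 : 0 ≤ b0)
    (hg0 : ∀ y, 0 ≤ g y) (hgb : ∀ y, g y ≤ b0) (hgY : ∀ y, y ∉ Y → g y = 0)
    (hY : (Fintype.card (ι → α → Bool) : ℝ) ≤ 2 ^ t * Y.card) {h ρ : ℝ} (hh0 : 0 ≤ h)
    (hh : 8 * p * κ ≤ h ^ 2) (hρ : Fintype.card ι * h ≤ ρ) (hρ1 : ρ ≤ 1 / 8) :
    -(a0 * b0 * (X.card * Y.card *
      (err (Fintype.card ι) d D t p ρ + κ1 * (1 + Fintype.card ι) ^ D))) ≤ Lam A f g := by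
  classical
  have hρ0 : 0 ≤ ρ := le_trans (by positivity) hρ
  have herr := err_nonneg (Fintype.card ι) d D t p hρ0
  obtain ⟨E, hE⟩ : ∃ E, E = err (Fintype.card ι) d D t p ρ := ⟨_, rfl⟩
  obtain ⟨Z, hZ⟩ : ∃ Z : ℝ, Z = (1 + Fintype.card ι) ^ D := ⟨_, rfl⟩
  have hZ0 : 0 < Z := by rw [hZ]; positivity
  rw [← hE] at herr ⊢
  rw [← hZ]
  obtain ⟨l, hl⟩ : ∃ l : (ι → α) → ℝ, ∀ x, l x = ∑ y, g y * ker A (zz x y) := ⟨_, fun _ => rfl⟩
  rw [lam_eq]
  simp only [← hl]
  have hYc : (0 : ℝ) ≤ Y.card := Nat.cast_nonneg _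
  have hXc : (0 : ℝ) ≤ X.card := Nat.cast_nonneg _
  have hgsum : ∑ y, g y ≤ b0 * Y.card := by
    have e1 : ∑ y, g y = ∑ y ∈ Y, g y := by
      symm
      refine Finset.sum_subset (Finset.subset_univ _) fun y _ hy => hgY y hy
    rw [e1]
    refine (Finset.sum_le_sum fun y _ => hgb y).trans ?_
    rw [Finset.sum_const, nsmul_eq_mul, mul_comm]
  have hlsup : ∀ x, |l x| ≤ b0 * Y.card * Z := by
    intro x
    rw [hl]
    refine (Finset.abs_sum_le_sum_abs _ _).trans ?_
    have e1 : ∀ y ∈ (univ : Finset (ι → α → Bool)), |g y * ker A (zz x y)| ≤ g y * Z := by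
      intro y _
      rw [abs_mul, abs_of_nonneg (hg0 y), hZ]
      exact mul_le_mul_of_nonneg_left (abs_ker_le A _) (hg0 y)
    refine (Finset.sum_le_sum e1).trans ?_
    rw [← Finset.sum_mul]
    exact mul_le_mul_of_nonneg_right hgsum (by positivity)
  obtain ⟨fs, hfs⟩ : ∃ fs : (ι → α) → ℝ, ∀ x, fs x =
    if l x < -(b0 * Y.card * E) then f x else 0 := ⟨_, fun _ => rfl⟩
  have hfs0 : ∀ x, 0 ≤ fs x := by
    intro x
    rw [hfs]
    split_ifs
    · exact hf0 x
    · exact le_rfl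
  have hfsf : ∀ x, fs x ≤ f x := by
    intro x
    rw [hfs]
    split_ifs
    · exact le_rfl
    · exact hf0 x
  have hfsum : ∑ x, f x ≤ a0 * X.card := by
    have e1 : ∑ x, f x = ∑ x ∈ X, f x := by
      symm
      refine Finset.sum_subset (Finset.subset_univ _) fun x _ hx => hfX x hx
    rw [e1]
    refine (Finset.sum_le_sum fun x _ => hfa x).trans ?_
    rw [Finset.sum_const, nsmul_eq_mul, mul_comm]
  rcases le_or_gt (∑ x, fs x) (κ1 * (a0 * X.card)) with hc | hc
  · have e1 : ∀ x, f x * l x ≥ -(f x * (b0 * Y.card * E)) - fs x * (b0 * Y.card * Z) := by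
      intro x
      rw [hfs]
      split_ifs with h1
      · have h2 := (abs_le.mp (hlsup x)).1
        have h3 := mul_le_mul_of_nonneg_left h2 (hf0 x)
        have h4 : 0 ≤ f x * (b0 * Y.card * E) := mul_nonneg (hf0 x) (by positivity)
        linarith
      · push Not at h1
        have h3 := mul_le_mul_of_nonneg_left h1 (hf0 x)
        linarith
    have e2 : ∑ x, f x * l x ≥
        -((∑ x, f x) * (b0 * Y.card * E)) - (∑ x, fs x) * (b0 * Y.card * Z) := by
      rw [Finset.sum_mul, Finset.sum_mul, ← Finset.sum_neg_distrib, ← Finset.sum_sub_distrib]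
      exact Finset.sum_le_sum fun x _ => e1 x
    have e3 : (∑ x, f x) * (b0 * Y.card * E) ≤ (a0 * X.card) * (b0 * Y.card * E) :=
      mul_le_mul_of_nonneg_right hfsum (by positivity)
    have e4 : (∑ x, fs x) * (b0 * Y.card * Z) ≤ (κ1 * (a0 * X.card)) * (b0 * Y.card * Z) :=
      mul_le_mul_of_nonneg_right hc (by positivity)
    have e5 : a0 * b0 * (X.card * Y.card * (E + κ1 * Z)) =
        (a0 * X.card) * (b0 * Y.card * E) + (κ1 * (a0 * X.card)) * (b0 * Y.card * Z) := by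
      ring
    rw [e5]
    linarith
  · exfalso
    obtain ⟨J, b, hJI, hJ1, hJ2⟩ := select (F := I) hκ x0 hfs0
    have ha0' : 0 < a0 := by
      rcases ha0.eq_or_lt with h0 | h0
      · exfalso
        rw [← h0, zero_mul, mul_zero] at hc
        have h1 : ∑ x, fs x ≤ 0 :=
          Finset.sum_nonpos fun x _ => (hfsf x).trans ((hfa x).trans h0.symm.le)
        linarith
      · exact h0
    have hXpos : (0 : ℝ) < X.card := by
      rcases hXc.eq_or_lt with h0 | h0
      · exfalso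
        rw [← h0, mul_zero, mul_zero] at hc
        have h1 : ∑ x, fs x ≤ ∑ x, f x := Finset.sum_le_sum fun x _ => hfsf x
        rw [← h0, mul_zero] at hfsum
        linarith
      · exact h0
    obtain ⟨M1, hM1⟩ : ∃ M1, M1 = ∑ x ∈ agr J b, fs x := ⟨_, rfl⟩
    rw [← hM1] at hJ1 hJ2
    have hκJ : 0 < κ ^ J.card := by positivity
    have hM1pos : κ ^ J.card * (κ1 * (a0 * X.card)) < M1 :=
      lt_of_lt_of_le (mul_lt_mul_of_pos_left hc hκJ) hJ1
    have hM10 : 0 < M1 := lt_of_le_of_lt (by positivity) hM1pos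
    obtain ⟨x1, hx1⟩ : ∃ x1 : ι → α, x1 = fun i => if i ∈ J then b i else x0 i := ⟨_, rfl⟩
    have hsupp : ∀ x ∈ agr J b, fs x ≠ 0 → x ∈ agr (I ∪ J) x1 := by
      intro x hx hne
      have hxX : x ∈ X := by
        by_contra hcon
        have := hfX x hcon
        exact hne (le_antisymm ((hfsf x).trans this.le) (hfs0 x))
      rw [mem_agr] at hx ⊢
      intro i hi
      rw [hx1]
      simp only
      by_cases hiJ : i ∈ J
      · rw [if_pos hiJ]
        exact hx i hiJ
      · rw [if_neg hiJ]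
        exact hX0 x hxX i ((Finset.mem_union.mp hi).resolve_right hiJ)
    have hJd : J.card ≤ d' := by
      by_contra hcon
      push Not at hcon
      have h1 : M1 ≤ a0 * (agr (I ∪ J) x1).card := by
        have h2 : M1 ≤ ∑ x ∈ agr (I ∪ J) x1, fs x := by
          rw [hM1, ← Finset.sum_filter_add_sum_filter_not (agr J b) (fun x => fs x ≠ 0)]
          rw [Finset.sum_eq_zero (s := (agr J b).filter fun x => ¬ fs x ≠ 0) (fun x hx => by
            have := (Finset.mem_filter.mp hx).2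
            push Not at this
            exact this), add_zero]
          refine Finset.sum_le_sum_of_subset_of_nonneg ?_ fun x _ _ => hfs0 x
          intro x hx
          obtain ⟨h3, h4⟩ := Finset.mem_filter.mp hx
          exact hsupp x h3 h4
        refine h2.trans ?_
        refine (Finset.sum_le_sum fun x _ => (hfsf x).trans (hfa x)).trans ?_
        rw [Finset.sum_const, nsmul_eq_mul, mul_comm]
      have h2 : ((agr (I ∪ J) x1).card : ℝ) * Fintype.card α ^ (I.card + J.card) =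
          Fintype.card α ^ Fintype.card ι := by
        have h3 := card_agr (I ∪ J) x1
        rw [Finset.card_union_of_disjoint hJI.symm] at h3
        exact_mod_cast h3
      obtain ⟨m, hm⟩ : ∃ m : ℝ, m = Fintype.card α := ⟨_, rfl⟩
      have hm0 : 0 < m := by
        rcases (Nat.cast_nonneg (α := ℝ) (Fintype.card α)).eq_or_lt with h3 | h3
        · exfalso
          rw [← h3, mul_zero] at hκm
          linarith
        · rw [hm]; exact h3
      rw [← hm] at h2 hκm hd hXη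
      -- (κ m) ^ |J| κ1 η < 1
      have h3 : κ ^ J.card * (κ1 * (a0 * X.card)) * m ^ (I.card + J.card) <
          a0 * m ^ Fintype.card ι := by
        have h4 : 0 < m ^ (I.card + J.card) := by positivity
        calc κ ^ J.card * (κ1 * (a0 * X.card)) * m ^ (I.card + J.card) <
              M1 * m ^ (I.card + J.card) := mul_lt_mul_of_pos_right hM1pos h4
          _ ≤ (a0 * (agr (I ∪ J) x1).card) * m ^ (I.card + J.card) :=
              mul_le_mul_of_nonneg_right h1 h4.le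
          _ = a0 * m ^ Fintype.card ι := by rw [mul_assoc, h2]
      have h5 : a0 * m ^ Fintype.card ι * ((κ * m) ^ J.card * (κ1 * η)) <
          a0 * m ^ Fintype.card ι := by
        calc a0 * m ^ Fintype.card ι * ((κ * m) ^ J.card * (κ1 * η)) =
              (κ ^ J.card * (κ1 * a0)) * m ^ J.card * (η * m ^ Fintype.card ι) := by
                rw [mul_pow]; ring
          _ ≤ (κ ^ J.card * (κ1 * a0)) * m ^ J.card * (X.card * m ^ I.card) :=
              mul_le_mul_of_nonneg_left hXη (by positivity)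
          _ = κ ^ J.card * (κ1 * (a0 * X.card)) * m ^ (I.card + J.card) := by
              rw [pow_add]; ring
          _ < _ := h3
      have h6 : (κ * m) ^ (d' + 1) ≤ (κ * m) ^ J.card := pow_le_pow_right₀ hκm hcon
      have h7 : 1 ≤ (κ * m) ^ J.card * (κ1 * η) :=
        hd.trans (mul_le_mul_of_nonneg_right h6 (by positivity))
      have h8 : 0 < a0 * m ^ Fintype.card ι := by positivity
      nlinarith
    obtain ⟨f', hf'⟩ : ∃ f' : (ι → α) → ℝ, f' = fun x => if x ∈ agr J b then fs x else 0 :=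
      ⟨_, rfl⟩
    have hf'sum : ∑ x, f' x = M1 := by
      rw [hf', hM1]
      simp only
      rw [Finset.sum_ite_mem, Finset.univ_inter]
    have hf'0 : ∀ x, 0 ≤ f' x := by
      intro x
      rw [hf']
      simp only
      split_ifs
      · exact hfs0 x
      · exact le_rfl
    have hFc : (I ∪ J).card ≤ d := by
      have := Finset.card_union_le I J
      omega
    have h1 := piece (f := f') (g := g) (x1 := x1) hp htp A hFc hdD hκ.le hf'0
      (fun x hx i hi => by
        rw [hf'] at hx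
        simp only at hx
        by_cases hxa : x ∈ agr J b
        · rw [if_pos hxa] at hx
          exact (mem_agr.mp (hsupp x hxa hx)) i hi
        · rw [if_neg hxa] at hx
          exact absurd rfl hx)
      (by rw [hf'sum, hf']; exact hJ2) Y hb0 hg0 hgb hgY hY hh0 hh hρ hρ1
    rw [hf'sum, lam_eq, ← hE] at h1
    simp only [← hl] at h1
    have h2 : ∑ x, f' x * l x < -(M1 * (b0 * Y.card) * E) := by
      have h3 : ∀ x, f' x * l x ≤ f' x * (-(b0 * Y.card * E)) := by
        intro x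
        simp only [hf', hfs]
        split_ifs with h4 h5
        · exact mul_le_mul_of_nonneg_left h5.le (hf0 x)
        · simp
        · simp
      have h4 : ∃ x ∈ (univ : Finset (ι → α)), f' x * l x < f' x * (-(b0 * Y.card * E)) := by
        have h5 : ∃ x ∈ (univ : Finset (ι → α)), f' x ≠ 0 := by
          by_contra hcon
          push Not at hcon
          rw [Finset.sum_eq_zero hcon] at hf'sum
          linarith
        obtain ⟨x, _, hx⟩ := h5
        refine ⟨x, Finset.mem_univ _, ?_⟩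
        have h6 : 0 < f' x := lt_of_le_of_ne (hf'0 x) (Ne.symm hx)
        refine mul_lt_mul_of_pos_left ?_ h6
        by_contra hcon
        apply hx
        rw [hf']
        simp only
        rw [hfs, if_neg hcon]
        simp
      have h5 := Finset.sum_lt_sum (fun x _ => h3 x) h4
      rw [← Finset.sum_mul, hf'sum] at h5
      refine h5.trans_le (le_of_eq ?_)
      ring
    linarith

end Pool.Agent.H58.LM
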